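import Pool.Agent.R309.PB.Defs

namespace PB

open Pointwise

/-- `G` is Bergman: there is no strictly increasing sequence `X_n` of subsets with union `G`,
`X_n = X_n⁻¹` and `X_n X_n ⊆ X_{n+1}`. -/
def Bergman (G : Type*) [Group G] : Prop :=
  ¬ ∃ X : ℕ → Set G, StrictMono X ∧ (⋃ n, X n) = Set.univ ∧
    ∀ n, X n = (X n)⁻¹ ∧ X n * X n ⊆ X (n + 1)

section
variable {G : Type*} [Group G] {X : ℕ → Set G}

theorem list_prod_mem (hmono : Monotone X) (h : ∀ n, X n * X n ⊆ X (n + 1)) (k : ℕ)
    (l : List G) (hl : ∀ g ∈ l, g ∈ X k) (h1 : (1 : G) ∈ X k) :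
    l.prod ∈ X (k + l.length) := by
  induction l with
  | nil => simpa using h1
  | cons a l ih =>
    rw [List.prod_cons, List.length_cons, ← Nat.add_assoc]
    apply h
    refine ⟨a, hmono (Nat.le_add_right _ _) (hl a (by simp)), l.prod,
      ih (fun g hg => hl g (by simp [hg])), rfl⟩

theorem pow_mem' (hmono : Monotone X) (h : ∀ n, X n * X n ⊆ X (n + 1)) (k m : ℕ)
    (g : G) (hg : g ∈ X k) (h1 : (1 : G) ∈ X k) : g ^ m ∈ X (k + m) := by
  have := list_prod_mem hmono h k (List.replicate m g)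
    (by intro a ha; rw [List.mem_replicate] at ha; rw [ha.2]; exact hg) h1
  simpa using this

/-- the length exponent of the words `U_i` -/
def len (i : ℕ) : ℕ := ((List.range (i + 3)).map (fun j => e i j + 1)).sum + (i + 3)

theorem Uw_mem (hmono : Monotone X) (h : ∀ n, X n * X n ⊆ X (n + 1)) (k i : ℕ)
    (a b : G) (ha : a ∈ X k) (hb : b ∈ X k) (h1 : (1 : G) ∈ X k) : Uw i a b ∈ X (k + len i) := by
  set N := ((List.range (i + 3)).map (fun j => e i j + 1)).sum with hN
  have hstep : ∀ j ∈ List.range (i + 3), a * b ^ e i j ∈ X (k + N) := by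
    intro j hj
    have h2 : a * b ^ e i j ∈ X (k + e i j + 1) := by
      apply h
      exact ⟨a, hmono (Nat.le_add_right _ _) ha, _, pow_mem' hmono h k _ b hb h1, rfl⟩
    apply hmono _ h2
    have : e i j + 1 ≤ N := by
      rw [hN]
      exact List.single_le_sum (by simp) _ (List.mem_map.2 ⟨j, hj, rfl⟩)
    omega
  have := list_prod_mem hmono h (k + N) ((List.range (i + 3)).map (fun j => a * b ^ (e i j)))
    (by
      intro g hg
      obtain ⟨j, hj, rfl⟩ := List.mem_map.1 hg
      exact hstep j hj) (hmono (Nat.le_add_right _ _) h1)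
  rw [List.length_map, List.length_range] at this
  unfold Uw len
  rw [← hN, ← Nat.add_assoc]
  exact this

end

theorem bergman_of_sol {M : Type*} [Group M] (hs : ∀ x : ℕ → M, ∃ s : Fin 4 → M, Sol x s) :
    Bergman M := by
  rintro ⟨X, hX, hU, hn⟩
  have hmono := hX.monotone
  have hne : ∀ n, ∃ g : M, g ∉ X n := by
    intro n
    by_contra hcon
    push Not at hcon
    have : X n < X (n + 1) := hX (Nat.lt_succ_self n)
    apply this.not_ge
    intro g _
    exact hcon g
  choose y hy using fun i : ℕ => hne (i + len i + 1)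
  obtain ⟨s, hs⟩ := hs y
  have hmem : ∀ g : M, ∃ n, g ∈ X n := by
    intro g
    have : g ∈ ⋃ n, X n := by rw [hU]; trivial
    exact Set.mem_iUnion.1 this
  choose r hr using hmem
  set k := r 1 + (r (s 0) + r (s 1) + r (s 2) + r (s 3)) with hk
  have hin : ∀ g, r g ≤ k → g ∈ X k := fun g hg => hmono hg (hr g)
  have h1 := hin 1 (by omega)
  have h2 := Uw_mem hmono (fun n => (hn n).2) k k (s 0) (s 1) (hin _ (by omega)) (hin _ (by omega)) h1
  have h3 := Uw_mem hmono (fun n => (hn n).2) k k (s 2) (s 3) (hin _ (by omega)) (hin _ (by omega)) h1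
  have h4 : (Uw k (s 0) (s 1))⁻¹ ∈ X (k + len k) := by
    rw [(hn _).1, Set.inv_mem_inv]
    exact h2
  apply hy k
  have h5 := hs k
  have h6 : y k = (Uw k (s 0) (s 1))⁻¹ * Uw k (s 2) (s 3) := by
    rw [h5]; group
  rw [h6]
  exact (hn _).2 ⟨_, h4, _, h3, rfl⟩

end PB
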