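import Pool.Agent.R309.PB.Defs

/-! PB-C1 (MP_b2dc7d_gt): `hU` is injective and only finitely many `f` have few letters `a` in
`hU f`. -/

namespace PB

namespace C1

/-- the letters of `b^n` -/
def bz (n : ℤ) : List (Bool × Bool) := List.replicate n.natAbs (false, decide (0 ≤ n))

/-- the letters of `∏ a^{s_i} b^{n_i}` -/
def sy (L : List (Bool × ℤ)) : List (Bool × Bool) := L.flatMap (fun p => (true, p.1) :: bz p.2)

/-- the letter `a^{±1}` -/
def A (s : Bool) : D := FreeGroup.mk [(true, s)]

/-- `b^n ∏ a^{s_i} b^{n_i}` -/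
def val (n : ℤ) (L : List (Bool × ℤ)) : D :=
  (FreeGroup.of false : D) ^ n * (L.map (fun p => A p.1 * (FreeGroup.of false : D) ^ p.2)).prod

/-- no cancellation -/
def RC (L : List (Bool × ℤ)) : Prop := L.IsChain (fun p q => p.1 = q.1 ∨ p.2 ≠ 0)

theorem mk_replicate (c : Bool × Bool) (k : ℕ) :
    (FreeGroup.mk (List.replicate k c) : D) = (FreeGroup.mk [c]) ^ k := by
  induction k with
  | zero => rfl
  | succ k ih => rw [List.replicate_succ, pow_succ', ← ih, FreeGroup.mul_mk]; rfl

theorem mk_bz (n : ℤ) : (FreeGroup.mk (bz n) : D) = (FreeGroup.of false : D) ^ n := by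
  unfold bz
  rw [mk_replicate]
  rcases le_or_gt 0 n with h | h
  · obtain ⟨k, rfl⟩ := Int.eq_ofNat_of_zero_le h
    rw [decide_eq_true h, Int.natAbs_natCast, zpow_natCast]
    rfl
  · obtain ⟨k, hk⟩ := Int.eq_ofNat_of_zero_le (show 0 ≤ -n by omega)
    have h1 : n = -(k : ℤ) := by omega
    rw [decide_eq_false (by omega), h1, Int.natAbs_neg, Int.natAbs_natCast, zpow_neg, zpow_natCast,
      ← inv_pow]
    rfl

theorem val_eq_mk (n : ℤ) (L : List (Bool × ℤ)) : val n L = FreeGroup.mk (bz n ++ sy L) := by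
  unfold val
  rw [← FreeGroup.mul_mk, mk_bz]
  congr 1
  induction L with
  | nil => rfl
  | cons p L ih =>
    have h3 : sy (p :: L) = (true, p.1) :: (bz p.2 ++ sy L) := rfl
    rw [List.map_cons, List.prod_cons, ih, h3, ← mk_bz, A, FreeGroup.mul_mk, FreeGroup.mul_mk]
    rfl

theorem sy_head (L : List (Bool × ℤ)) : (sy L).head? = L.head?.map (fun p => (true, p.1)) := by
  cases L with
  | nil => rfl
  | cons p L => rfl

theorem bz_mem {n : ℤ} {x : Bool × Bool} (h : x ∈ bz n) : x.1 = false := by
  unfold bz at h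
  rw [List.mem_replicate] at h
  rw [h.2]

theorem red_append (n : ℤ) (L : List (Bool × ℤ)) (h : FreeGroup.IsReduced (sy L)) :
    FreeGroup.IsReduced (bz n ++ sy L) := by
  unfold FreeGroup.IsReduced
  rw [List.isChain_append]
  refine ⟨List.isChain_replicate_of_rel _ (fun _ => rfl), h, ?_⟩
  intro x hx y hy hxy
  exfalso
  have h1 : x.1 = false := bz_mem (List.mem_of_mem_getLast? hx)
  rw [sy_head] at hy
  rw [Option.mem_map] at hy
  obtain ⟨p, _, rfl⟩ := hy
  rw [h1] at hxy
  exact absurd hxy (by simp)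

theorem red_sy (L : List (Bool × ℤ)) (h : RC L) : FreeGroup.IsReduced (sy L) := by
  induction L with
  | nil => exact FreeGroup.IsReduced.nil
  | cons p L ih =>
    unfold RC at h
    rw [List.isChain_cons] at h
    obtain ⟨h1, h2⟩ := h
    have h3 : sy (p :: L) = (true, p.1) :: (bz p.2 ++ sy L) := rfl
    rw [h3]
    unfold FreeGroup.IsReduced
    rw [List.isChain_cons]
    refine ⟨?_, red_append _ _ (ih h2)⟩
    intro y hy hxy
    by_cases hp : p.2 = 0
    · have h4 : bz p.2 = [] := by rw [hp]; rfl
      rw [h4, List.nil_append, sy_head, Option.mem_map] at hy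
      obtain ⟨q, hq, rfl⟩ := hy
      rcases h1 q hq with h5 | h5
      · exact h5
      · exact absurd hp h5
    · exfalso
      have h4 : bz p.2 = (false, decide (0 ≤ p.2)) :: List.replicate (p.2.natAbs - 1)
          (false, decide (0 ≤ p.2)) := by
        unfold bz
        obtain ⟨k, hk⟩ : ∃ k, p.2.natAbs = k + 1 := ⟨p.2.natAbs - 1, by omega⟩
        rw [hk, List.replicate_succ, Nat.add_sub_cancel]
      rw [h4] at hy
      simp at hy
      rw [← hy] at hxy
      simp at hxy

theorem acount_val (n : ℤ) (L : List (Bool × ℤ)) (h : RC L) : acount (val n L) = L.length := by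
  unfold acount
  rw [val_eq_mk, FreeGroup.toWord_mk, (red_append n L (red_sy L h)).reduce_eq, List.filter_append,
    List.length_append]
  have hb : ∀ n : ℤ, (bz n).filter (fun l => l.1) = [] := by
    intro n
    rw [List.filter_eq_nil_iff]
    intro a ha
    rw [bz_mem ha]
    simp
  rw [hb, List.length_nil, zero_add]
  clear h
  induction L with
  | nil => rfl
  | cons p L ih =>
    have h3 : sy (p :: L) = (true, p.1) :: (bz p.2 ++ sy L) := rfl
    rw [h3, List.filter_cons_of_pos (by simp), List.length_cons, List.filter_append, hb,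
      List.nil_append, ih, List.length_cons]

/-! ### multiplication by `U_i^{±1}` -/

theorem rc_append {s : Bool} (M L : List (Bool × ℤ)) (hM : ∀ p ∈ M, p.1 = s) (hL : RC L)
    (hh : ∀ q ∈ L.head?, q.1 = s) : RC (M ++ L) := by
  induction M with
  | nil => exact hL
  | cons p M ih =>
    rw [List.cons_append]
    unfold RC
    rw [List.isChain_cons]
    refine ⟨?_, ih (fun q hq => hM q (List.mem_cons_of_mem _ hq))⟩
    intro y hy
    left
    rw [hM p List.mem_cons_self]
    cases M with
    | nil => exact (hh y hy).symm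
    | cons q M =>
      simp at hy
      rw [← hy]
      exact (hM q (List.mem_cons_of_mem _ List.mem_cons_self)).symm

/-- the middle part of `U_i` -/
def P (i : ℕ) : List (Bool × ℤ) := (List.range (i + 1)).map (fun j => (true, (e i (j + 1) : ℤ)))

/-- `∏_{j=n-1}^{0} a⁻¹ b^{-x_j}` -/
def N (x : ℕ → ℤ) : ℕ → List (Bool × ℤ)
  | 0 => []
  | n + 1 => (false, -x n) :: N x n

theorem N_length (x : ℕ → ℤ) (n : ℕ) : (N x n).length = n := by
  induction n with
  | zero => rfl
  | succ n ih => rw [N, List.length_cons, ih]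

theorem N_mem (x : ℕ → ℤ) (n : ℕ) : ∀ p ∈ N x n, p.1 = false := by
  induction n with
  | zero => intro p hp; simp [N] at hp
  | succ n ih =>
    intro p hp
    rw [N, List.mem_cons] at hp
    rcases hp with rfl | hp
    · rfl
    · exact ih p hp

theorem N_last (x : ℕ → ℤ) (n : ℕ) : N x (n + 1) = N (fun j => x (j + 1)) n ++ [(false, -x 0)] := by
  induction n with
  | zero => rfl
  | succ n ih => rw [N, ih, N, List.cons_append]

theorem A_false : A false = (A true)⁻¹ := rfl

theorem A_true : A true = FreeGroup.of true := rfl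

theorem inv_prod (x : ℕ → ℤ) (n : ℕ) :
    (((List.range (n + 1)).map (fun j => A true * (FreeGroup.of false : D) ^ x j)).prod)⁻¹ =
      val (-x n) (N x n) * A false := by
  induction n with
  | zero =>
    simp only [zero_add, List.range_one, List.map_cons, List.map_nil, List.prod_cons,
      List.prod_nil, mul_one, mul_inv_rev, N, val]
    rw [zpow_neg, A_false]
  | succ n ih =>
    rw [List.range_succ, List.map_append, List.prod_append, mul_inv_rev, ih]
    simp only [List.map_cons, List.map_nil, List.prod_cons, List.prod_nil, mul_one, mul_inv_rev, N,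
      val]
    rw [zpow_neg, zpow_neg, A_false]
    group

theorem U_eq (i : ℕ) : U i =
    ((List.range (i + 3)).map (fun j => A true * (FreeGroup.of false : D) ^ (e i j : ℤ))).prod := by
  unfold U Uw
  simp only [zpow_natCast, A_true]

/-- left multiplication by `U_i` -/
theorem step_pos (i : ℕ) (m : ℤ) (L : List (Bool × ℤ)) :
    U i * val m L = val 0 ((true, (e i 0 : ℤ)) :: (P i ++ (true, (e i (i + 2) : ℤ) + m) :: L)) := by
  rw [U_eq, List.range_succ, List.map_append, List.prod_append, List.range_succ_eq_map]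
  unfold val P
  simp only [List.map_cons, List.map_nil, List.prod_cons, List.prod_nil, List.map_append,
    List.prod_append, List.map_map, Function.comp_def, zpow_zero, one_mul, mul_one, zpow_add,
    mul_assoc]

/-- left multiplication by `U_i⁻¹` -/
theorem step_neg (i : ℕ) (m : ℤ) (L : List (Bool × ℤ)) :
    (U i)⁻¹ * val m L =
      val (-(e i (i + 2) : ℤ)) (N (fun j => (e i j : ℤ)) (i + 2) ++ (false, m) :: L) := by
  rw [U_eq, inv_prod (fun j => (e i j : ℤ)) (i + 2)]
  unfold val
  simp only [List.map_cons, List.prod_cons, List.map_append, List.prod_append, mul_assoc]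

/-- left multiplication by `U_i⁻¹`, with cancellation -/
theorem step_neg_pos (i : ℕ) (y : ℤ) (L : List (Bool × ℤ)) :
    (U i)⁻¹ * val 0 ((true, y) :: L) =
      val (-(e i (i + 2) : ℤ)) (N (fun j => (e i (j + 1) : ℤ)) (i + 1) ++
        (false, -(e i 0 : ℤ) + y) :: L) := by
  rw [step_neg, N_last]
  unfold val
  simp only [List.map_cons, List.prod_cons, List.map_append, List.prod_append, mul_assoc,
    List.map_nil, List.prod_nil, one_mul, zpow_zero, zpow_add, A_false, inv_mul_cancel_left]

theorem e_inj {i j k l : ℕ} (h : e i k = e j l) : i = j := by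
  unfold e at h
  have h1 := Nat.pow_right_injective (le_refl 2) h
  exact (Nat.pair_eq_pair.1 h1).1

/-- the expected number of letters `a` -/
def sm (w : List (ℕ × Bool)) : ℕ := (w.map (fun p => p.1 + 2)).sum

theorem hU_cons_true (i : ℕ) (w : List (ℕ × Bool)) :
    hU (FreeGroup.mk ((i, true) :: w)) = U i * hU (FreeGroup.mk w) := by
  have h : (FreeGroup.mk ((i, true) :: w) : FreeGroup ℕ) = FreeGroup.of i * FreeGroup.mk w := by
    rw [FreeGroup.of, FreeGroup.mul_mk]
    rfl
  rw [h, map_mul]
  unfold hU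
  rw [FreeGroup.lift_apply_of]

theorem hU_cons_false (i : ℕ) (w : List (ℕ × Bool)) :
    hU (FreeGroup.mk ((i, false) :: w)) = (U i)⁻¹ * hU (FreeGroup.mk w) := by
  have h : (FreeGroup.mk ((i, false) :: w) : FreeGroup ℕ) =
      (FreeGroup.of i)⁻¹ * FreeGroup.mk w := by
    rw [FreeGroup.of, FreeGroup.inv_mk, FreeGroup.mul_mk]
    rfl
  rw [h, map_mul, map_inv]
  unfold hU
  rw [FreeGroup.lift_apply_of]

theorem sm_cons (i : ℕ) (s : Bool) (w : List (ℕ × Bool)) : sm ((i, s) :: w) = i + 2 + sm w := rfl

theorem P_mem (i : ℕ) : ∀ p ∈ P i, p.1 = true := by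
  intro p hp
  unfold P at hp
  rw [List.mem_map] at hp
  obtain ⟨_, _, rfl⟩ := hp
  rfl

theorem P_length (i : ℕ) : (P i).length = i + 1 := by
  simp [P]

theorem head_append {s : Bool} (M L : List (Bool × ℤ)) (hM : ∀ p ∈ M, p.1 = s) (h : M ≠ []) :
    ∀ q ∈ (M ++ L).head?, q.1 = s := by
  intro q hq
  cases M with
  | nil => exact absurd rfl h
  | cons p M =>
    simp at hq
    rw [← hq]
    exact hM p List.mem_cons_self

theorem pos_case (i : ℕ) (m : ℤ) (L : List (Bool × ℤ)) (w : List (ℕ × Bool))
    (h : hU (FreeGroup.mk w) = val m L) (hL : RC L)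
    (hj : ∀ q ∈ L.head?, q.1 = true ∨ (e i (i + 2) : ℤ) + m ≠ 0) (hs : sm w ≤ L.length) :
    ∃ L', hU (FreeGroup.mk ((i, true) :: w)) = val 0 ((true, (e i 0 : ℤ)) :: L') ∧ RC L' ∧
      (∀ q ∈ L'.head?, q.1 = true) ∧ sm ((i, true) :: w) ≤ L'.length := by
  refine ⟨P i ++ (true, (e i (i + 2) : ℤ) + m) :: L, ?_, ?_, ?_, ?_⟩
  · rw [hU_cons_true, h, step_pos]
  · apply rc_append (s := true) _ _ (P_mem i)
    · unfold RC
      rw [List.isChain_cons]
      refine ⟨?_, hL⟩
      intro q hq
      rcases hj q hq with h1 | h1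
      · left
        exact h1.symm
      · right
        exact h1
    · intro q hq
      simp at hq
      rw [← hq]
  · apply head_append _ _ (P_mem i)
    intro h0
    have := P_length i
    rw [h0] at this
    simp at this
  · rw [sm_cons, List.length_append, P_length, List.length_cons]
    omega

theorem neg_case (i : ℕ) (m : ℤ) (L : List (Bool × ℤ)) (w : List (ℕ × Bool))
    (h : hU (FreeGroup.mk w) = val m L) (hL : RC L)
    (hj : ∀ q ∈ L.head?, q.1 = false ∨ m ≠ 0) (hs : sm w ≤ L.length) :
    ∃ L', hU (FreeGroup.mk ((i, false) :: w)) = val (-(e i (i + 2) : ℤ)) L' ∧ RC L' ∧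
      (∀ q ∈ L'.head?, q.1 = false) ∧ sm ((i, false) :: w) ≤ L'.length := by
  refine ⟨N (fun j => (e i j : ℤ)) (i + 2) ++ (false, m) :: L, ?_, ?_, ?_, ?_⟩
  · rw [hU_cons_false, h, step_neg]
  · apply rc_append (s := false) _ _ (N_mem _ _)
    · unfold RC
      rw [List.isChain_cons]
      refine ⟨?_, hL⟩
      intro q hq
      rcases hj q hq with h1 | h1
      · left
        exact h1.symm
      · right
        exact h1
    · intro q hq
      simp at hq
      rw [← hq]
  · apply head_append _ _ (N_mem _ _)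
    intro h0
    have := N_length (fun j => (e i j : ℤ)) (i + 2)
    rw [h0] at this
    simp at this
  · rw [sm_cons, List.length_append, N_length, List.length_cons]
    omega

theorem neg_pos_case (i : ℕ) (y : ℤ) (L : List (Bool × ℤ)) (w : List (ℕ × Bool))
    (h : hU (FreeGroup.mk w) = val 0 ((true, y) :: L)) (hL : RC L)
    (hy : -(e i 0 : ℤ) + y ≠ 0) (hs : sm w ≤ L.length) :
    ∃ L', hU (FreeGroup.mk ((i, false) :: w)) = val (-(e i (i + 2) : ℤ)) L' ∧ RC L' ∧
      (∀ q ∈ L'.head?, q.1 = false) ∧ sm ((i, false) :: w) ≤ L'.length := by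
  refine ⟨N (fun j => (e i (j + 1) : ℤ)) (i + 1) ++ (false, -(e i 0 : ℤ) + y) :: L, ?_, ?_, ?_, ?_⟩
  · rw [hU_cons_false, h, step_neg_pos]
  · apply rc_append (s := false) _ _ (N_mem _ _)
    · unfold RC
      rw [List.isChain_cons]
      refine ⟨?_, hL⟩
      intro q hq
      right
      exact hy
    · intro q hq
      simp at hq
      rw [← hq]
  · apply head_append _ _ (N_mem _ _)
    intro h0
    have := N_length (fun j => (e i (j + 1) : ℤ)) (i + 1)
    rw [h0] at this
    simp at this
  · rw [sm_cons, List.length_append, N_length, List.length_cons]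
    omega

theorem main (w : List (ℕ × Bool)) (i : ℕ) (s : Bool)
    (hw : FreeGroup.IsReduced ((i, s) :: w)) :
    (s = true → ∃ L, hU (FreeGroup.mk ((i, s) :: w)) = val 0 ((true, (e i 0 : ℤ)) :: L) ∧ RC L ∧
      (∀ q ∈ L.head?, q.1 = true) ∧ sm ((i, s) :: w) ≤ L.length) ∧
    (s = false → ∃ L, hU (FreeGroup.mk ((i, s) :: w)) = val (-(e i (i + 2) : ℤ)) L ∧ RC L ∧
      (∀ q ∈ L.head?, q.1 = false) ∧ sm ((i, s) :: w) ≤ L.length) := by
  induction w generalizing i s with
  | nil =>
    have h1 : hU (FreeGroup.mk []) = val 0 [] := by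
      have : (FreeGroup.mk [] : FreeGroup ℕ) = 1 := rfl
      rw [this, map_one]
      simp [val]
    refine ⟨?_, ?_⟩
    · rintro rfl
      exact pos_case i 0 [] [] h1 List.isChain_nil (by simp) (by simp [sm])
    · rintro rfl
      exact neg_case i 0 [] [] h1 List.isChain_nil (by simp) (by simp [sm])
  | cons c w ih =>
    obtain ⟨j, t⟩ := c
    rw [FreeGroup.isReduced_cons_cons] at hw
    obtain ⟨hij, hw'⟩ := hw
    simp only at hij
    obtain ⟨ih1, ih2⟩ := ih j t hw'
    cases t with
    | true =>
      obtain ⟨L, hL1, hL2, hL3, hL4⟩ := ih1 rfl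
      refine ⟨?_, ?_⟩
      · rintro rfl
        refine pos_case i 0 ((true, (e j 0 : ℤ)) :: L) _ hL1 ?_ ?_ ?_
        · unfold RC
          rw [List.isChain_cons]
          exact ⟨fun q hq => Or.inl (hL3 q hq).symm, hL2⟩
        · intro q hq
          left
          simp at hq
          rw [← hq]
        · rw [List.length_cons]
          omega
      · rintro rfl
        refine neg_pos_case i (e j 0 : ℤ) L _ hL1 hL2 ?_ hL4
        intro h0
        have h1 : e i 0 = e j 0 := by
          have : (e i 0 : ℤ) = (e j 0 : ℤ) := by linarith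
          exact_mod_cast this
        exact absurd (hij (e_inj h1)) (by simp)
    | false =>
      obtain ⟨L, hL1, hL2, hL3, hL4⟩ := ih2 rfl
      refine ⟨?_, ?_⟩
      · rintro rfl
        refine pos_case i _ L _ hL1 hL2 ?_ hL4
        intro q hq
        right
        intro h0
        have h1 : e i (i + 2) = e j (j + 2) := by
          have : (e i (i + 2) : ℤ) = (e j (j + 2) : ℤ) := by linarith
          exact_mod_cast this
        exact absurd (hij (e_inj h1)) (by simp)
      · rintro rfl
        exact neg_case i _ L _ hL1 hL2 (fun q hq => Or.inl (hL3 q hq)) hL4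

theorem acount_ge (f : FreeGroup ℕ) : sm f.toWord ≤ acount (hU f) := by
  rcases h : f.toWord with _ | ⟨⟨i, s⟩, w⟩
  · simp [sm]
  · have hr : FreeGroup.IsReduced ((i, s) :: w) := by
      rw [← h]
      exact FreeGroup.isReduced_toWord
    have hf : f = FreeGroup.mk ((i, s) :: w) := by
      rw [← h, FreeGroup.mk_toWord]
    obtain ⟨h1, h2⟩ := main w i s hr
    cases s with
    | true =>
      obtain ⟨L, hL1, hL2, hL3, hL4⟩ := h1 rfl
      rw [hf, hL1, acount_val, List.length_cons]
      · omega
      · unfold RC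
        rw [List.isChain_cons]
        exact ⟨fun q hq => Or.inl (hL3 q hq).symm, hL2⟩
    | false =>
      obtain ⟨L, hL1, hL2, hL3, hL4⟩ := h2 rfl
      rw [hf, hL1, acount_val _ _ hL2]
      exact hL4

theorem sm_length (w : List (ℕ × Bool)) : w.length ≤ sm w := by
  induction w with
  | nil => simp
  | cons c w ih =>
    obtain ⟨i, s⟩ := c
    rw [sm_cons, List.length_cons]
    omega

theorem sm_mem (w : List (ℕ × Bool)) : ∀ p ∈ w, p.1 ≤ sm w := by
  induction w with
  | nil => intro p hp; simp at hp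
  | cons c w ih =>
    obtain ⟨i, s⟩ := c
    intro p hp
    rw [sm_cons]
    rw [List.mem_cons] at hp
    rcases hp with rfl | hp
    · show i ≤ _
      omega
    · have := ih p hp
      omega

end C1

/-- PB-C1 -/
theorem hU_injective : Function.Injective hU := by
  rw [injective_iff_map_eq_one]
  intro f hf
  have h1 := C1.acount_ge f
  rw [hf] at h1
  have h2 : acount 1 = 0 := by
    unfold acount
    rw [FreeGroup.toWord_one]
    rfl
  rw [h2] at h1
  have h3 := C1.sm_length f.toWord
  have h4 : f.toWord.length = 0 := by omega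
  rw [List.length_eq_zero_iff, FreeGroup.toWord_eq_nil_iff] at h4
  exact h4

/-- PB-C1 -/
theorem finite_acount (m : ℕ) : {f : FreeGroup ℕ | acount (hU f) ≤ m}.Finite := by
  have h1 := List.finite_length_le (Fin (m + 1) × Bool) m
  refine (h1.image (fun l => (FreeGroup.mk (l.map (fun p => (p.1.val, p.2))) : FreeGroup ℕ))).subset ?_
  intro f hf
  have hf' : acount (hU f) ≤ m := hf
  have h2 := (C1.acount_ge f).trans hf'
  have h3 := (C1.sm_length f.toWord).trans h2
  have h4 : ∀ p ∈ f.toWord, p.1 < m + 1 := fun p hp =>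
    Nat.lt_succ_of_le ((C1.sm_mem f.toWord p hp).trans h2)
  refine ⟨f.toWord.pmap (fun p hp => ((⟨p.1, hp⟩ : Fin (m + 1)), p.2)) h4, ?_, ?_⟩
  · show (List.pmap _ _ _).length ≤ m
    rw [List.length_pmap]
    exact h3
  · show FreeGroup.mk (List.map _ (List.pmap _ _ _)) = f
    rw [List.map_pmap]
    simp only [Prod.mk.eta]
    rw [List.pmap_eq_map, List.map_id', FreeGroup.mk_toWord]

end PB
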