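import Pool.Agent.R309.PB.Defs

/-!
PB-ETA: existence of the partition of unity.
-/

namespace PB

namespace ETA

/-- jumps: equality or a `W`-move starting outside `W` -/
def J (x y : D) : Prop := y * x⁻¹ ∈ W ∧ (x ∈ W → y = x)

lemma J_refl (x : D) : J x x := by
  refine ⟨?_, fun _ => rfl⟩
  rw [mul_inv_cancel]; exact W.one_mem

lemma J_symm {x y : D} (h : J x y) : J y x := by
  have h1 : x * y⁻¹ ∈ W := by
    have := W.inv_mem h.1
    simpa using this
  refine ⟨h1, fun hy => ?_⟩
  have hx : x ∈ W := by
    have := W.mul_mem h1 hy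
    simpa using this
  exact (h.2 hx).symm

lemma J_trans {x y z : D} (h : J x y) (h' : J y z) : J x z := by
  refine ⟨?_, fun hx => ?_⟩
  · have := W.mul_mem h'.1 h.1
    simpa [mul_assoc] using this
  · have hy := h.2 hx
    rw [hy] at h'
    exact h'.2 hx

lemma letter_inv {c : D} (h : IsLetter c) : IsLetter c⁻¹ := by
  rcases h with h | h | h | h
  · right; left; rw [h]
  · left; rw [h, inv_inv]
  · right; right; right; rw [h]
  · right; right; left; rw [h, inv_inv]

open Classical in
/-- the weight -/
noncomputable def om (d : D) : ℝ := if h : ∃ n, d ∈ Vis n then 1 / (Nat.find h : ℝ) else 0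

lemma Vis_zero : Vis 0 = ∅ := by
  ext d
  simp only [Set.mem_empty_iff_false, iff_false]
  rintro ⟨f, g, s, t, h, -⟩
  exact absurd h.pos (by norm_num)

lemma om_nonneg (d : D) : 0 ≤ om d := by
  unfold om
  split_ifs
  · positivity
  · exact le_rfl

lemma le_om {d : D} {n : ℕ} (h : d ∈ Vis n) : 1 / (n : ℝ) ≤ om d := by
  classical
  have hex : ∃ n, d ∈ Vis n := ⟨n, h⟩
  unfold om
  rw [dif_pos hex]
  have h1 : Nat.find hex ≤ n := Nat.find_min' hex h
  have h2 : 0 < Nat.find hex := by
    rcases Nat.eq_zero_or_pos (Nat.find hex) with h0 | h0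
    · exfalso
      have := Nat.find_spec hex
      rw [h0, Vis_zero] at this
      exact this
    · exact h0
  apply one_div_le_one_div_of_le
  · exact_mod_cast h2
  · exact_mod_cast h1

lemma om_finite (hV : ∀ n, (Vis n).Finite) (ε : ℝ) (hε : 0 < ε) : {d : D | ε ≤ om d}.Finite := by
  classical
  refine Set.Finite.subset (Set.Finite.biUnion (Set.finite_le_nat ⌊1 / ε⌋₊) (fun n _ => hV n)) ?_
  intro d hd
  simp only [Set.mem_ofPred_eq] at hd
  unfold om at hd
  split_ifs at hd with h
  · simp only [Set.mem_iUnion]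
    refine ⟨Nat.find h, ?_, Nat.find_spec h⟩
    simp only [Set.mem_ofPred_eq]
    apply Nat.le_floor
    have h0 : (0 : ℝ) < Nat.find h := by
      rcases Nat.eq_zero_or_pos (Nat.find h) with h0 | h0
      · exfalso
        have := Nat.find_spec h
        rw [h0, Vis_zero] at this
        exact this
      · exact_mod_cast h0
    rw [le_div_iff₀ hε, mul_comm]
    rw [le_div_iff₀ h0] at hd
    exact hd
  · exact absurd hd (not_le.2 hε)

/-- paths with number of letters and cost -/
inductive P : ℕ → ℝ → D → D → Prop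
  | nil {x y : D} (h : J x y) : P 0 0 x y
  | cons {n : ℕ} {c : ℝ} {x y z w : D} (h : J x y) (hl : IsLetter (z * y⁻¹)) (hp : P n c z w) :
      P (n + 1) (om y + om z + c) x w

lemma P_pre {n : ℕ} {c : ℝ} {x y z : D} (h : J x y) (hp : P n c y z) : P n c x z := by
  cases hp with
  | nil h' => exact P.nil (J_trans h h')
  | cons h' hl hp => exact P.cons (J_trans h h') hl hp

lemma P_append {n m : ℕ} {c c' : ℝ} {x y z : D} (hp : P n c x y) (hq : P m c' y z) :
    P (m + n) (c + c') x z := by
  induction hp with
  | nil h => simpa using P_pre h hq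
  | cons h hl hp ih =>
    have := P.cons h hl (ih hq)
    rw [← add_assoc] at this
    exact this

lemma P_symm {n : ℕ} {c : ℝ} {x y : D} (hp : P n c x y) : P n c y x := by
  induction hp with
  | nil h => exact P.nil (J_symm h)
  | @cons n c x y z w h hl hp ih =>
    have hl' : IsLetter (y * z⁻¹) := by
      have := letter_inv hl
      simpa using this
    have h1 : P 1 (om z + om y + 0) z x := P.cons (J_refl z) hl' (P.nil (J_symm h))
    have h2 := P_append ih h1
    have h3 : c + (om z + om y + 0) = om y + om z + c := by ring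
    rw [h3, Nat.add_comm] at h2
    exact h2

lemma P_nonneg {n : ℕ} {c : ℝ} {x y : D} (hp : P n c x y) : 0 ≤ c := by
  induction hp with
  | nil h => exact le_rfl
  | cons h hl hp ih => exact add_nonneg (add_nonneg (om_nonneg _) (om_nonneg _)) ih

/-- sequences -/
lemma P_seq {n : ℕ} {c : ℝ} {x w : D} (hp : P n c x w) :
    (n = 0 ∧ c = 0 ∧ J x w) ∨ ∃ s t : ℕ → D, 1 ≤ n ∧ J x (s 0) ∧
      (∀ k < n, IsLetter (t k * (s k)⁻¹)) ∧ (∀ k, k + 1 < n → J (t k) (s (k + 1))) ∧
      J (t (n - 1)) w ∧ c = ∑ k ∈ Finset.range n, (om (s k) + om (t k)) := by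
  induction hp with
  | nil h => left; exact ⟨rfl, rfl, h⟩
  | @cons n c x y z w h hl hp ih =>
    right
    rcases ih with ⟨hn, hc, hJ⟩ | ⟨s, t, hn, hJ, hlet, hj, hJ', hc⟩
    · subst hn
      refine ⟨fun _ => y, fun _ => z, by norm_num, h, fun k _ => hl, fun k hk => ?_, hJ, ?_⟩
      · omega
      · rw [hc]; simp
    · refine ⟨fun k => Nat.casesOn k y s, fun k => Nat.casesOn k z t, by omega, h, ?_, ?_, ?_, ?_⟩
      · intro k hk
        cases k with
        | zero => exact hl
        | succ k => exact hlet k (by omega)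
      · intro k hk
        cases k with
        | zero => exact hJ
        | succ k => exact hj k (by omega)
      · obtain ⟨m, rfl⟩ : ∃ m, n = m + 1 := ⟨n - 1, by omega⟩
        exact hJ'
      · rw [Finset.sum_range_succ', hc]
        change om y + om z + _ = _ + (om y + om z)
        rw [add_comm]

/-- cost of a sequence -/
noncomputable def cost (n : ℕ) (s t : ℕ → D) : ℝ := ∑ k ∈ Finset.range n, (om (s k) + om (t k))

lemma cost_reindex (n m : ℕ) (s t : ℕ → D) (φ : ℕ → ℕ) (hφ : ∀ k < m, φ k < n)
    (hinj : ∀ k < m, ∀ l < m, φ k = φ l → k = l) :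
    cost m (s ∘ φ) (t ∘ φ) ≤ cost n s t := by
  unfold cost
  have h1 : ∑ k ∈ Finset.range m, (om ((s ∘ φ) k) + om ((t ∘ φ) k)) =
      ∑ j ∈ (Finset.range m).image φ, (om (s j) + om (t j)) := by
    rw [Finset.sum_image]
    · rfl
    · intro k hk l hl h
      exact hinj k (by simpa using hk) l (by simpa using hl) h
  rw [h1]
  refine Finset.sum_le_sum_of_subset_of_nonneg ?_ (fun j _ _ => add_nonneg (om_nonneg _) (om_nonneg _))
  intro j hj
  rw [Finset.mem_image] at hj
  obtain ⟨k, hk, rfl⟩ := hj
  rw [Finset.mem_range] at hk ⊢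
  exact hφ k hk

/-- sequences from `hU f` to `hU g` -/
structure Q (n : ℕ) (f g : FreeGroup ℕ) (s t : ℕ → D) : Prop where
  pos : 1 ≤ n
  start : s 0 = hU f
  fin : t (n - 1) = hU g
  letter : ∀ k < n, IsLetter (t k * (s k)⁻¹)
  jump : ∀ k, k + 1 < n → J (t k) (s (k + 1))

lemma claim_seq (n : ℕ) : ∀ (f g : FreeGroup ℕ) (s t : ℕ → D), Q n f g s t → tau f ≠ tau g →
    2 ≤ cost n s t := by
  induction n using Nat.strong_induction_on with
  | _ n ih =>
    intro f g s t hQ hfg
    by_cases h1 : ∃ k, k + 1 < n ∧ t k ∈ W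
    · obtain ⟨k, hk, hkW⟩ := h1
      obtain ⟨h, hh⟩ := hkW
      have hs : s (k + 1) = t k := (hQ.jump k hk).2 ⟨h, hh⟩
      by_cases hfh : tau f = tau h
      · -- second half
        have hQ2 : Q (n - (k + 1)) h g (s ∘ fun i => i + (k + 1)) (t ∘ fun i => i + (k + 1)) := by
          refine ⟨by omega, ?_, ?_, ?_, ?_⟩
          · simp only [Function.comp_apply, zero_add]
            rw [hs, hh]
          · simp only [Function.comp_apply]
            rw [← hQ.fin]
            congr 1
            omega
          · intro i hi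
            exact hQ.letter (i + (k + 1)) (by omega)
          · intro i hi
            have := hQ.jump (i + (k + 1)) (by omega)
            simp only [Function.comp_apply]
            rw [show i + 1 + (k + 1) = i + (k + 1) + 1 by ring]
            exact this
        refine (ih _ (by omega) h g _ _ hQ2 (by rw [← hfh]; exact hfg)).trans ?_
        exact cost_reindex n _ s t (fun i => i + (k + 1)) (fun i hi => by omega)
          (fun i _ j _ hij => Nat.add_right_cancel hij)
      · have hQ1 : Q (k + 1) f h (s ∘ fun i => i) (t ∘ fun i => i) := by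
          refine ⟨by omega, hQ.start, ?_, ?_, ?_⟩
          · change t (k + 1 - 1) = hU h
            rw [Nat.add_sub_cancel]
            exact hh.symm
          · intro i hi
            exact hQ.letter i (by omega)
          · intro i hi
            exact hQ.jump i (by omega)
        refine (ih _ (by omega) f h _ _ hQ1 hfh).trans ?_
        exact cost_reindex n _ s t (fun i => i) (fun i hi => by omega)
          (fun i _ j _ hij => hij)
    · push Not at h1
      by_cases h2 : ∃ k l, k < l ∧ l + 1 < n ∧ t l * (t k)⁻¹ ∈ W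
      · obtain ⟨k, l, hkl, hl, hW⟩ := h2
        set φ : ℕ → ℕ := fun i => if i ≤ k then i else i + (l - k) with hφ
        have hφ1 : ∀ i, i ≤ k → φ i = i := fun i hi => by simp [hφ, hi]
        have hφ2 : ∀ i, k < i → φ i = i + (l - k) := fun i hi => by
          simp [hφ, not_le.2 hi]
        have hQ' : Q (n - (l - k)) f g (s ∘ φ) (t ∘ φ) := by
          refine ⟨by omega, ?_, ?_, ?_, ?_⟩
          · simp only [Function.comp_apply]
            rw [hφ1 0 (Nat.zero_le _)]
            exact hQ.start
          · simp only [Function.comp_apply]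
            rw [hφ2 _ (by omega), ← hQ.fin]
            congr 1
            omega
          · intro i hi
            simp only [Function.comp_apply]
            rcases le_or_gt i k with h | h
            · rw [hφ1 i h]; exact hQ.letter i (by omega)
            · rw [hφ2 i h]; exact hQ.letter _ (by omega)
          · intro i hi
            simp only [Function.comp_apply]
            rcases lt_trichotomy i k with h | h | h
            · rw [hφ1 i h.le, hφ1 (i + 1) h]; exact hQ.jump i (by omega)
            · subst h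
              rw [hφ1 i le_rfl, hφ2 (i + 1) (Nat.lt_succ_self i)]
              have e1 : i + 1 + (l - i) = l + 1 := by omega
              rw [e1]
              have h3 := hQ.jump l hl
              refine ⟨?_, fun hc => absurd hc (h1 i (by omega))⟩
              have := W.mul_mem h3.1 hW
              simpa [mul_assoc] using this
            · rw [hφ2 i h, hφ2 (i + 1) (by omega)]
              have := hQ.jump (i + (l - k)) (by omega)
              rw [show i + 1 + (l - k) = i + (l - k) + 1 by ring]
              exact this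
        refine (ih _ (by omega) f g _ _ hQ' hfg).trans ?_
        refine cost_reindex n _ s t φ (fun i hi => ?_) (fun i _ j _ hij => ?_)
        · rcases le_or_gt i k with h | h
          · rw [hφ1 i h]; omega
          · rw [hφ2 i h]; omega
        · rcases le_or_gt i k with h | h <;> rcases le_or_gt j k with h' | h'
          · rwa [hφ1 i h, hφ1 j h'] at hij
          · rw [hφ1 i h, hφ2 j h'] at hij; omega
          · rw [hφ2 i h, hφ1 j h'] at hij; omega
          · rw [hφ2 i h, hφ2 j h'] at hij; omega
      · push Not at h2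
        have hE : Exc n f g s t := by
          refine ⟨hQ.pos, hQ.start, hQ.fin, hQ.letter, fun k hk => (hQ.jump k hk).1, h1, ?_⟩
          intro k l hk hl hkl hW
          rcases lt_or_gt_of_ne hkl with h | h
          · apply h2 k l h hl
            have := W.inv_mem hW
            simpa using this
          · exact h2 l k h hk hW
        have hmem : ∀ k < n, s k ∈ Vis n ∧ t k ∈ Vis n := by
          intro k hk
          exact ⟨⟨f, g, s, t, hE, hfg, k, hk, Or.inl rfl⟩, ⟨f, g, s, t, hE, hfg, k, hk, Or.inr rfl⟩⟩
        have hn : (0 : ℝ) < n := by exact_mod_cast hQ.pos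
        unfold cost
        calc (2 : ℝ) = ∑ k ∈ Finset.range n, (1 / (n : ℝ) + 1 / (n : ℝ)) := by
              rw [Finset.sum_const, Finset.card_range, nsmul_eq_mul]
              field_simp
              norm_num
          _ ≤ _ := by
              refine Finset.sum_le_sum fun k hk => ?_
              rw [Finset.mem_range] at hk
              exact add_le_add (le_om (hmem k hk).1) (le_om (hmem k hk).2)

lemma claim (hC : Function.Injective hU) {n : ℕ} {c : ℝ} {f g : FreeGroup ℕ}
    (hp : P n c (hU f) (hU g)) (hfg : tau f ≠ tau g) : 2 ≤ c := by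
  have hf : hU f ∈ W := ⟨f, rfl⟩
  have hg : hU g ∈ W := ⟨g, rfl⟩
  rcases P_seq hp with ⟨-, -, hJ⟩ | ⟨s, t, hn, hJ, hlet, hj, hJ', hc⟩
  · exfalso
    apply hfg
    rw [hC (hJ.2 hf)]
  · rw [hc]
    exact claim_seq n f g s t ⟨hn, hJ.2 hf, (J_symm hJ').2 hg, hlet, hj⟩ hfg

/-- the set of values -/
def A (d : D) (i : ℕ) : Set ℝ :=
  insert 0 {v | ∃ n c f, tau f = some i ∧ P n c (hU f) d ∧ v = 1 - c}

lemma A_bdd (d : D) (i : ℕ) : BddAbove (A d i) := by
  refine ⟨1, ?_⟩
  rintro v (rfl | ⟨n, c, f, -, hp, rfl⟩)
  · norm_num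
  · have := P_nonneg hp
    linarith

lemma A_ne (d : D) (i : ℕ) : (A d i).Nonempty := ⟨0, Set.mem_insert _ _⟩

/-- the function -/
noncomputable def et (d : D) (i : ℕ) : ℝ := sSup (A d i)

lemma et_nonneg (d : D) (i : ℕ) : 0 ≤ et d i := le_csSup (A_bdd d i) (Set.mem_insert _ _)

lemma et_step (d d' : D) (i : ℕ) (h : IsLetter (d' * d⁻¹)) :
    et d i ≤ et d' i + (om d + om d') := by
  refine csSup_le (A_ne d i) ?_
  rintro v (rfl | ⟨n, c, f, hf, hp, rfl⟩)
  · exact add_nonneg (et_nonneg _ _) (add_nonneg (om_nonneg _) (om_nonneg _))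
  · have h1 : P 1 (om d + om d' + 0) d d' := P.cons (J_refl d) h (P.nil (J_refl d'))
    have h2 := P_append hp h1
    have h3 : 1 - (c + (om d + om d' + 0)) ≤ et d' i :=
      le_csSup (A_bdd d' i) (Or.inr ⟨_, _, f, hf, h2, rfl⟩)
    linarith

lemma A_sub {d d' : D} (i : ℕ) (h : J d d') : A d i ⊆ A d' i := by
  rintro v (rfl | ⟨n, c, f, hf, hp, rfl⟩)
  · exact Set.mem_insert _ _
  · have h2 := P_append hp (P.nil h)
    rw [add_zero] at h2
    exact Or.inr ⟨_, c, f, hf, h2, rfl⟩

end ETA

open ETA in
/-- PB-ETA -/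
theorem exists_eta (hC : Function.Injective hU) (hV : ∀ n, (Vis n).Finite) :
    ∃ η : D → ℕ → ℝ, Eta η := by
  refine ⟨et, ?_, ?_, ?_, ?_, ?_, ?_⟩
  · exact et_nonneg
  · intro d i
    refine csSup_le (A_ne d i) ?_
    rintro v (rfl | ⟨n, c, f, -, hp, rfl⟩)
    · norm_num
    · have := P_nonneg hp
      linarith
  · intro d i j hij
    by_contra hcon
    push Not at hcon
    obtain ⟨h1, h2⟩ := hcon
    have h1' : 0 < et d i := lt_of_le_of_ne (et_nonneg d i) (Ne.symm h1)
    have h2' : 0 < et d j := lt_of_le_of_ne (et_nonneg d j) (Ne.symm h2)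
    obtain ⟨v, hv, hv0⟩ := exists_lt_of_lt_csSup (A_ne d i) h1'
    obtain ⟨v', hv', hv0'⟩ := exists_lt_of_lt_csSup (A_ne d j) h2'
    rcases hv with rfl | ⟨n, c, f, hf, hp, rfl⟩
    · exact lt_irrefl _ hv0
    rcases hv' with rfl | ⟨n', c', f', hf', hp', rfl⟩
    · exact lt_irrefl _ hv0'
    have h3 := P_append hp (P_symm hp')
    have h4 := claim hC h3 (by rw [hf, hf']; simpa using hij)
    linarith
  · intro f i
    split_ifs with h
    · refine le_antisymm ?_ ?_
      · refine csSup_le (A_ne _ i) ?_
        rintro v (rfl | ⟨n, c, f, -, hp, rfl⟩)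
        · norm_num
        · have := P_nonneg hp
          linarith
      · refine le_csSup (A_bdd _ i) (Or.inr ⟨0, 0, f, h, P.nil (J_refl _), by norm_num⟩)
    · refine le_antisymm ?_ (et_nonneg _ _)
      refine csSup_le (A_ne _ i) ?_
      rintro v (rfl | ⟨n, c, g, hg, hp, rfl⟩)
      · exact le_rfl
      · have := claim hC hp (by rw [hg]; exact fun hh => h hh.symm)
        linarith
  · intro f d hd
    funext i
    have hJ : J d (hU f * d) := by
      refine ⟨?_, fun h => absurd h hd⟩
      rw [mul_assoc, mul_inv_cancel, mul_one]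
      exact ⟨f, rfl⟩
    have : A (hU f * d) i = A d i := Set.Subset.antisymm (A_sub i (J_symm hJ)) (A_sub i hJ)
    unfold et
    rw [this]
  · intro c hc ε hε
    have h1 := om_finite hV (ε / 2) (by positivity)
    have h2 : {d : D | ε / 2 ≤ om (c * d)}.Finite :=
      h1.preimage (f := fun d => c * d) ((mul_right_injective c).injOn)
    refine (h1.union h2).subset ?_
    rintro d ⟨i, hi⟩
    have e1 : IsLetter (c * d * d⁻¹) := by rw [mul_assoc, mul_inv_cancel, mul_one]; exact hc
    have e2 : IsLetter (d * (c * d)⁻¹) := by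
      have := letter_inv hc
      simpa [mul_inv_rev] using this
    have h3 := et_step d (c * d) i e1
    have h4 := et_step (c * d) d i e2
    have h5 : |et (c * d) i - et d i| ≤ om d + om (c * d) := by
      rw [abs_le]
      constructor <;> linarith
    have h6 := hi.trans h5
    by_contra hcon
    simp only [Set.mem_union, Set.mem_ofPred_eq, not_or, not_le] at hcon
    linarith [hcon.1, hcon.2]

end PB
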