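import Pool.Agent.R309.PB.Defs

/-!
PB-F: finitely many visited points of simple excursions
-/

open scoped Pointwise

namespace PB

theorem finite_isLetter : {c : D | IsLetter c}.Finite := by
  have : {c : D | IsLetter c} = {FreeGroup.of true, (FreeGroup.of true)⁻¹, FreeGroup.of false,
      (FreeGroup.of false)⁻¹} := by
    ext c
    simp only [IsLetter, Set.mem_setOf_eq, Set.mem_insert_iff, Set.mem_singleton_iff]
  rw [this]
  exact Set.toFinite _

/-- the sets which contain the visited points -/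
def visP (F1 S0 : Set D) : ℕ → Set D
  | 0 => S0
  | k + 1 => F1 * ({c : D | IsLetter c} * visP F1 S0 k)

theorem finite_visP {F1 S0 : Set D} (h1 : F1.Finite) (h0 : S0.Finite) (k : ℕ) :
    (visP F1 S0 k).Finite := by
  induction k with
  | zero => exact h0
  | succ k ih => exact h1.mul (finite_isLetter.mul ih)

theorem vis_finite
    (_hC : Function.Injective hU) (hC' : ∀ m : ℕ, {f : FreeGroup ℕ | acount (hU f) ≤ m}.Finite)
    (hT : ∀ v : FreeGroup ℕ, {u : FreeGroup ℕ | tau (v * u) ≠ tau u}.Finite)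
    (hL : ∀ (n : ℕ) (s t : ℕ → D) (_ : ∀ k < n, IsLetter (t k * (s k)⁻¹))
      (_ : ∀ k < n, s (k + 1) * (t k)⁻¹ ∈ W) (_ : s n = s 0)
      (_ : ∀ k l, k < n → l < n → k ≠ l → t k * (t l)⁻¹ ∉ W),
      ∀ k < n, acount (s (k + 1) * (t k)⁻¹) ≤ 2 * n) (n : ℕ) :
    (Vis n).Finite := by
  set A : Set (FreeGroup ℕ) := {f : FreeGroup ℕ | acount (hU f) ≤ 2 * n} with hA
  have hAf : A.Finite := hC' (2 * n)
  set F1 : Set D := hU '' A with hF1
  set B : Set (FreeGroup ℕ) := ⋃ a ∈ A, {u | tau (a⁻¹ * u) ≠ tau u} with hB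
  have hBf : B.Finite := hAf.biUnion fun a _ => hT _
  set S0 : Set D := hU '' B with hS0
  have hfin : (⋃ k ∈ Set.Iio n, (visP F1 S0 k ∪ {c : D | IsLetter c} * visP F1 S0 k)).Finite := by
    refine (Set.finite_Iio n).biUnion fun k _ => ?_
    have h := finite_visP (hAf.image hU) (hBf.image hU) k
    exact h.union (finite_isLetter.mul h)
  refine hfin.subset ?_
  rintro d ⟨f, g, s, t, hE, hfg, k0, hk0, hd⟩
  have hpos := hE.pos
  -- the closed path
  set s' : ℕ → D := fun k => if k < n then s k else s 0 with hs'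
  have hs'k : ∀ k, k < n → s' k = s k := fun k hk => if_pos hk
  have hs'n : s' n = s 0 := if_neg (lt_irrefl n)
  have hs'0 : s' 0 = s 0 := hs'k 0 (by omega)
  have hfW : hU f ∈ W := ⟨f, rfl⟩
  have hgW : t (n - 1) ∈ W := by rw [hE.fin]; exact ⟨g, rfl⟩
  have hcl := hL n s' t
    (by
      intro k hk
      rw [hs'k k hk]
      exact hE.letter k hk)
    (by
      intro k hk
      by_cases h : k + 1 < n
      · rw [hs'k _ h]
        exact hE.jump k h
      · have h1 : k + 1 = n := by omega
        have h2 : k = n - 1 := by omega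
        rw [h1, hs'n, hE.start, h2]
        exact W.mul_mem hfW (W.inv_mem hgW))
    (by rw [hs'n, hs'0])
    (by
      intro k l hk hl hkl
      by_cases h : k + 1 < n
      · by_cases h' : l + 1 < n
        · exact hE.dist k l h h' hkl
        · have h2 : l = n - 1 := by omega
          intro hmem
          rw [h2] at hmem
          have := W.mul_mem hmem hgW
          rw [inv_mul_cancel_right] at this
          exact hE.notW k h this
      · have h2 : k = n - 1 := by omega
        have h3 : l + 1 < n := by omega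
        intro hmem
        rw [h2] at hmem
        have := W.mul_mem (W.inv_mem hmem) hgW
        rw [mul_inv_rev, inv_inv, inv_mul_cancel_right] at this
        exact hE.notW l h3 this)
  -- the first point
  have h0 : s 0 ∈ S0 := by
    rw [hE.start]
    refine ⟨f, ?_, rfl⟩
    have h1 := hcl (n - 1) (by omega)
    have h2 : n - 1 + 1 = n := by omega
    rw [h2, hs'n, hE.start, hE.fin, ← map_inv, ← map_mul] at h1
    refine Set.mem_biUnion (x := f * g⁻¹) h1 ?_
    show tau ((f * g⁻¹)⁻¹ * f) ≠ tau f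
    have h3 : (f * g⁻¹)⁻¹ * f = g := by group
    rw [h3]
    exact fun h => hfg h.symm
  -- all points
  have hall : ∀ k, k < n → s k ∈ visP F1 S0 k ∧ t k ∈ {c : D | IsLetter c} * visP F1 S0 k := by
    intro k
    induction k with
    | zero =>
      intro hk
      have h1 : s 0 ∈ visP F1 S0 0 := h0
      refine ⟨h1, ?_⟩
      refine Set.mem_mul.2 ⟨t 0 * (s 0)⁻¹, hE.letter 0 hk, s 0, h1, ?_⟩
      rw [inv_mul_cancel_right]
    | succ k ih =>
      intro hk
      obtain ⟨h1, h2⟩ := ih (by omega)
      have h3 : s (k + 1) ∈ visP F1 S0 (k + 1) := by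
        refine Set.mem_mul.2 ⟨s (k + 1) * (t k)⁻¹, ?_, t k, h2, inv_mul_cancel_right _ _⟩
        obtain ⟨w, hw⟩ := hE.jump k hk
        refine ⟨w, ?_, hw⟩
        have h4 := hcl k (by omega)
        rw [hs'k _ hk, ← hw] at h4
        exact h4
      refine ⟨h3, ?_⟩
      exact Set.mem_mul.2 ⟨t (k + 1) * (s (k + 1))⁻¹, hE.letter _ hk, s (k + 1), h3,
        inv_mul_cancel_right _ _⟩
  refine Set.mem_biUnion (x := k0) hk0 ?_
  rcases hd with rfl | rfl
  · exact Or.inl (hall k0 hk0).1
  · exact Or.inr (hall k0 hk0).2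

end PB
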