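import Pool.Agent.R309.PB.Defs

/-!
# MP_b2dc7d_gt, piece PB-FIN
-/

set_option autoImplicit false

namespace PB

namespace PFIN

variable {M : Type*} [Group M]

/-- `ψ` changes by at most `n C` under left multiplication by `w` -/
def Q (ψ : M → ℝ) (C : ℝ) (w : M) (n : ℕ) : Prop := ∀ x, |ψ (w * x) - ψ x| ≤ n * C

theorem Q_mul {ψ : M → ℝ} {C : ℝ} {w v : M} {n m : ℕ} (hw : Q ψ C w n) (hv : Q ψ C v m) :
    Q ψ C (w * v) (n + m) := by
  intro x
  have h1 := hw (v * x)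
  have h2 := hv x
  have h3 := abs_add_le (ψ (w * (v * x)) - ψ (v * x)) (ψ (v * x) - ψ x)
  have h4 : ψ (w * (v * x)) - ψ (v * x) + (ψ (v * x) - ψ x) = ψ (w * v * x) - ψ x := by
    rw [mul_assoc]; ring
  rw [h4] at h3
  push_cast
  linarith

theorem Q_inv {ψ : M → ℝ} {C : ℝ} {w : M} {n : ℕ} (hw : Q ψ C w n) : Q ψ C w⁻¹ n := by
  intro x
  have h := hw (w⁻¹ * x)
  rw [mul_inv_cancel_left] at h
  rw [abs_sub_comm]
  exact h

theorem Q_one (ψ : M → ℝ) (C : ℝ) : Q ψ C 1 0 := by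
  intro x
  simp

theorem Q_pow {ψ : M → ℝ} {C : ℝ} {b : M} (hb : Q ψ C b 1) (n : ℕ) : Q ψ C (b ^ n) n := by
  induction n with
  | zero => rw [pow_zero]; exact Q_one ψ C
  | succ n ih => rw [pow_succ]; exact Q_mul ih hb

/-- length of the words -/
def len (i : ℕ) : ℕ := ((List.range (i + 3)).map (fun j => 1 + e i j)).sum

theorem Q_Uw {ψ : M → ℝ} {C : ℝ} {a b : M} (ha : Q ψ C a 1) (hb : Q ψ C b 1) (i : ℕ) :
    Q ψ C (Uw i a b) (len i) := by
  unfold Uw len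
  generalize List.range (i + 3) = l
  induction l with
  | nil => exact Q_one ψ C
  | cons j l ih =>
    rw [List.map_cons, List.prod_cons, List.map_cons, List.sum_cons]
    exact Q_mul (Q_mul ha (Q_pow hb _)) ih

theorem exists_C {ψ : M → ℝ} (hψ : SO ψ) (f : M) : ∃ C : ℝ, 0 ≤ C ∧ ∀ x, |ψ (f * x) - ψ x| ≤ C := by
  have hfin := hψ f 1 one_pos
  obtain ⟨B, hB⟩ := (hfin.image (fun x => |ψ (f * x) - ψ x|)).bddAbove
  refine ⟨max B 1, le_max_of_le_right zero_le_one, fun x => ?_⟩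
  by_cases hx : 1 ≤ |ψ (f * x) - ψ x|
  · exact (hB ⟨x, hx, rfl⟩).trans (le_max_left _ _)
  · exact (not_le.1 hx).le.trans (le_max_right _ _)

end PFIN

open PFIN

/-- PB-FIN -/
theorem bounded_of_sol {M : Type*} [Group M] (hs : ∀ x : ℕ → M, ∃ s : Fin 4 → M, Sol x s)
    (ψ : M → ℝ) (hψ : SO ψ) : ∃ C : ℝ, ∀ x, |ψ x| ≤ C := by
  by_contra hcon
  push Not at hcon
  choose x hx using fun i : ℕ => hcon (|ψ 1| + (i : ℝ) * (2 * (len i : ℝ)))
  obtain ⟨s, hs⟩ := hs x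
  choose Cf hCf0 hCf using exists_C hψ
  set C : ℝ := Cf (s 0) + Cf (s 1) + Cf (s 2) + Cf (s 3) with hC
  have h0 := hCf0 (s 0)
  have h1 := hCf0 (s 1)
  have h2 := hCf0 (s 2)
  have h3 := hCf0 (s 3)
  have q0 : Q ψ C (s 0) 1 := fun y => by
    have := hCf (s 0) y
    push_cast; linarith
  have q1 : Q ψ C (s 1) 1 := fun y => by
    have := hCf (s 1) y
    push_cast; linarith
  have q2 : Q ψ C (s 2) 1 := fun y => by
    have := hCf (s 2) y
    push_cast; linarith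
  have q3 : Q ψ C (s 3) 1 := fun y => by
    have := hCf (s 3) y
    push_cast; linarith
  obtain ⟨i, hi⟩ := exists_nat_ge C
  have hxi : x i = (Uw i (s 0) (s 1))⁻¹ * Uw i (s 2) (s 3) := by
    rw [hs i, inv_mul_cancel_left]
  have hq : Q ψ C (x i) (len i + len i) := by
    rw [hxi]
    exact Q_mul (Q_inv (Q_Uw q0 q1 i)) (Q_Uw q2 q3 i)
  have h4 := hq 1
  rw [mul_one] at h4
  have h5 := hx i
  have h6 : |ψ (x i)| ≤ |ψ (x i) - ψ 1| + |ψ 1| := by
    have := abs_add_le (ψ (x i) - ψ 1) (ψ 1)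
    rw [sub_add_cancel] at this
    exact this
  push_cast at h4
  have h7 : (0 : ℝ) ≤ len i := Nat.cast_nonneg _
  nlinarith

end PB
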