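import Pool.Agent.R309.PB.Defs

namespace PB

namespace K

inductive Line
  | P
  | Q
  | M (i j : ℕ)

open Line

abbrev V : Type := Line × ℤ

def EdgeA (x y : V) : Prop :=
  (x = (Q, 0) ∧ y = (P, 0)) ∨
  (∃ i : ℕ, x = (P, (e i (i + 2) : ℤ)) ∧ y = (M i (i + 1), 0)) ∨
  (∃ i j : ℕ, 1 ≤ j ∧ j ≤ i ∧ x = (M i (j + 1), (e i (j + 1) : ℤ)) ∧ y = (M i j, 0)) ∨
  (∃ i : ℕ, x = (M i 1, (e i 1 : ℤ)) ∧ y = (Q, -(e i 0 : ℤ)))

def Edge (c : Bool) (x y : V) : Prop :=
  match c with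
  | true => EdgeA x y
  | false => y = (x.1, x.2 + 1)

def Stp (c : Bool × Bool) (x y : V) : Prop :=
  match c with
  | (c, true) => Edge c x y
  | (c, false) => Edge c y x

def Run : List (Bool × Bool) → V → V → Prop
  | [], x, y => x = y
  | c :: L, x, y => ∃ z, Run L x z ∧ Stp c z y

theorem e_inj {i j i' j' : ℕ} (h : e i j = e i' j') : i = i' ∧ j = j' := by
  unfold e at h
  exact Nat.pair_eq_pair.1 (Nat.pow_right_injective (le_refl 2) h)

theorem e_pos (i j : ℕ) : 0 < e i j := by unfold e; positivity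

theorem edgeA_det {x y y' : V} (h : EdgeA x y) (h' : EdgeA x y') : y = y' := by
  rcases h with ⟨h1, h2⟩ | ⟨i, h1, h2⟩ | ⟨i, j, hj, hj', h1, h2⟩ | ⟨i, h1, h2⟩ <;>
  rcases h' with ⟨k1, k2⟩ | ⟨i', k1, k2⟩ | ⟨i', j', kj, kj', k1, k2⟩ | ⟨i', k1, k2⟩ <;>
  subst h1 <;> subst h2 <;> subst k2 <;>
  simp only [Prod.mk.injEq, Line.M.injEq, reduceCtorEq, false_and, Nat.cast_inj,
    true_and, and_true] at k1 ⊢
  · have := (e_inj k1).1; subst this; simp
  · omega
  · omega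
  · omega
  · obtain ⟨rfl, _⟩ := k1; rfl

theorem edgeA_det' {x x' y : V} (h : EdgeA x y) (h' : EdgeA x' y) : x = x' := by
  rcases h with ⟨h1, h2⟩ | ⟨i, h1, h2⟩ | ⟨i, j, hj, hj', h1, h2⟩ | ⟨i, h1, h2⟩ <;>
  rcases h' with ⟨k1, k2⟩ | ⟨i', k1, k2⟩ | ⟨i', j', kj, kj', k1, k2⟩ | ⟨i', k1, k2⟩ <;>
  subst h1 <;> subst h2 <;> subst k1 <;>
  simp only [Prod.mk.injEq, Line.M.injEq, reduceCtorEq, false_and, Nat.cast_inj,
    true_and, and_true, neg_inj] at k2 ⊢
  · obtain ⟨rfl, _⟩ := k2; rfl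
  · omega
  · omega
  · obtain ⟨rfl, rfl⟩ := k2; simp
  · have := (e_inj k2).1; subst this; simp

theorem stp_det {c : Bool × Bool} {x y y' : V} (h : Stp c x y) (h' : Stp c x y') : y = y' := by
  obtain ⟨c, s⟩ := c
  cases c <;> cases s
  · simp only [Stp, Edge] at h h'
    rw [h] at h'
    have h1 := congrArg Prod.fst h'
    have h2 := congrArg Prod.snd h'
    simp at h1 h2
    exact Prod.ext h1 h2
  · simp only [Stp, Edge] at h h'
    rw [h, h']
  · exact edgeA_det' h h'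
  · exact edgeA_det h h'

theorem stp_inv {c s : Bool} {x y : V} : Stp (c, !s) x y ↔ Stp (c, s) y x := by
  cases s <;> simp [Stp]

theorem run_append {L₁ L₂ : List (Bool × Bool)} {x y : V} :
    Run (L₁ ++ L₂) x y ↔ ∃ z, Run L₂ x z ∧ Run L₁ z y := by
  induction L₁ generalizing y with
  | nil => simp [Run]
  | cons c L ih =>
    simp only [List.cons_append, Run, ih]
    constructor
    · rintro ⟨z, ⟨u, h1, h2⟩, h3⟩
      exact ⟨u, h1, z, h2, h3⟩
    · rintro ⟨u, h1, z, h2, h3⟩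
      exact ⟨z, ⟨u, h1, h2⟩, h3⟩

theorem run_step {L L' : List (Bool × Bool)} (h : FreeGroup.Red.Step L L') {x y : V}
    (hr : Run L x y) : Run L' x y := by
  cases h with
  | @not L₁ L₂ c b =>
    rw [run_append] at hr ⊢
    obtain ⟨z, ⟨u, ⟨v, h1, h2⟩, h3⟩, h4⟩ := hr
    rw [stp_inv] at h2
    have h3' : Stp (c, !b) z u := stp_inv.2 h3
    have h2' : Stp (c, !b) v u := stp_inv.2 h2
    have : v = z := by
      have a1 : Stp (c, b) u v := h2
      exact stp_det a1 h3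
    subst this
    exact ⟨v, h1, h4⟩

theorem run_red {L L' : List (Bool × Bool)} (h : FreeGroup.Red L L') {x y : V}
    (hr : Run L x y) : Run L' x y := by
  induction h with
  | refl => exact hr
  | tail _ h ih => exact run_step h ih

def Reach (g : D) (x y : V) : Prop := ∃ L, FreeGroup.mk L = g ∧ Run L x y

theorem reach_one (x : V) : Reach 1 x x := ⟨[], rfl, rfl⟩

theorem reach_mul {g h : D} {x y z : V} (h1 : Reach g x y) (h2 : Reach h y z) :
    Reach (h * g) x z := by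
  obtain ⟨L, rfl, hL⟩ := h1
  obtain ⟨L', rfl, hL'⟩ := h2
  exact ⟨L' ++ L, FreeGroup.mul_mk.symm, run_append.2 ⟨y, hL, hL'⟩⟩

theorem run_inv {L : List (Bool × Bool)} {x y : V} (h : Run L x y) :
    Run (FreeGroup.invRev L) y x := by
  induction L generalizing y with
  | nil => exact h.symm
  | cons c L ih =>
    obtain ⟨z, h1, h2⟩ := h
    have : FreeGroup.invRev (c :: L) = FreeGroup.invRev L ++ [(c.1, !c.2)] := by
      simp [FreeGroup.invRev]
    rw [this, run_append]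
    exact ⟨z, ⟨y, rfl, stp_inv.2 h2⟩, ih h1⟩

theorem reach_inv {g : D} {x y : V} (h : Reach g x y) : Reach g⁻¹ y x := by
  obtain ⟨L, rfl, hL⟩ := h
  exact ⟨_, FreeGroup.inv_mk.symm, run_inv hL⟩

theorem reach_a {x y : V} (h : EdgeA x y) : Reach (FreeGroup.of true) x y :=
  ⟨[(true, true)], rfl, x, rfl, h⟩

theorem reach_b (n : ℕ) (l : Line) (p : ℤ) :
    Reach (FreeGroup.of false ^ n) (l, p) (l, p + n) := by
  induction n with
  | zero => simpa using reach_one (l, p)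
  | succ n ih =>
    rw [pow_succ']
    refine reach_mul ih ⟨[(false, true)], rfl, (l, p + n), rfl, ?_⟩
    simp [Stp, Edge, add_assoc]

/-- tails of the word `U_i` -/
def T (i : ℕ) : ℕ → D
  | 0 => 1
  | m + 1 => FreeGroup.of true * FreeGroup.of false ^ (e i (i + 2 - m)) * T i m

theorem U_eq (i : ℕ) : U i = T i (i + 3) := by
  have h : ∀ m ≤ i + 3, ((List.range m).map (fun j => (FreeGroup.of true : D) *
      FreeGroup.of false ^ (e i j))).prod * T i (i + 3 - m) = T i (i + 3) := by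
    intro m hm
    induction m with
    | zero => simp
    | succ m ih =>
      rw [← ih (by omega), List.range_succ, List.map_append, List.prod_append]
      have e1 : i + 3 - m = (i + 2 - m) + 1 := by omega
      have e2 : i + 3 - (m + 1) = i + 2 - m := by omega
      have e3 : i + 2 - (i + 2 - m) = m := by omega
      rw [e1, e2, T, e3]
      simp [mul_assoc]
  have := h (i + 3) le_rfl
  simpa [U, Uw, T] using this

theorem reach_T (i m : ℕ) (hm : m ≤ i) : Reach (T i (m + 1)) (P, 0) (M i (i + 1 - m), 0) := by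
  induction m with
  | zero =>
    simp only [T, mul_one, Nat.sub_zero]
    refine reach_mul ?_ (reach_a (Or.inr (Or.inl ⟨i, rfl, rfl⟩)))
    simpa using reach_b (e i (i + 2)) P 0
  | succ m ih =>
    rw [T, mul_assoc]
    have e1 : i + 2 - (m + 1) = (i - m - 1 + 1) + 1 := by omega
    have e2 : i + 1 - m = (i - m - 1 + 1) + 1 := by omega
    have e3 : i + 1 - (m + 1) = i - m - 1 + 1 := by omega
    rw [e1, e3]
    refine reach_mul (reach_mul (ih (by omega)) ?_) (reach_a (Or.inr (Or.inr (Or.inl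
      ⟨i, i - m - 1 + 1, by omega, by omega, rfl, rfl⟩))))
    rw [e2]
    simpa using reach_b (e i (i - m - 1 + 1 + 1)) (M i (i - m - 1 + 1 + 1)) 0

theorem reach_U (i : ℕ) : Reach (U i) (P, 0) (P, 0) := by
  rw [U_eq, T, T, mul_assoc, mul_assoc]
  have e1 : i + 2 - (i + 2) = 0 := by omega
  have e2 : i + 2 - (i + 1) = 1 := by omega
  rw [e1, e2]
  have h := reach_T i i le_rfl
  have e3 : i + 1 - i = 1 := by omega
  rw [e3] at h
  have h1 := reach_mul h (by simpa using reach_b (e i 1) (M i 1) 0)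
  have h2 := reach_mul h1 (reach_a (Or.inr (Or.inr (Or.inr ⟨i, rfl, rfl⟩))))
  have h3 := reach_mul h2 (by simpa using reach_b (e i 0) Q (-(e i 0 : ℤ)))
  exact reach_mul h3 (reach_a (Or.inl ⟨rfl, rfl⟩))

def S : Subgroup D where
  carrier := {g | Reach g (P, 0) (P, 0)}
  mul_mem' := fun {_ _} h1 h2 => reach_mul h2 h1
  one_mem' := reach_one _
  inv_mem' := fun {_} h => reach_inv h

theorem W_le : W ≤ S := by
  unfold W hU
  apply FreeGroup.range_lift_le
  rintro _ ⟨i, rfl⟩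
  exact reach_U i

theorem run_of_mem {w : D} (hw : w ∈ W) : Run w.toWord (P, 0) (P, 0) := by
  obtain ⟨L, rfl, hL⟩ := W_le hw
  rw [FreeGroup.toWord_mk]
  exact run_red FreeGroup.reduce.red hL

/-- coset representatives -/
def r : V → D
  | (P, p) => FreeGroup.of false ^ p
  | (Q, p) => FreeGroup.of false ^ p * (FreeGroup.of true)⁻¹
  | (M i j, p) => FreeGroup.of false ^ p * T i (i + 2 - j)

theorem U_mem (i : ℕ) : U i ∈ W := ⟨FreeGroup.of i, by simp [hU]⟩

theorem edge_mem {c : Bool} {x y : V} (h : Edge c x y) : (r y)⁻¹ * FreeGroup.of c * r x ∈ W := by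
  cases c
  · simp only [Edge] at h
    subst h
    obtain ⟨l, p⟩ := x
    have : (r (l, p + 1))⁻¹ * FreeGroup.of false * r (l, p) = 1 := by
      cases l <;> simp [r, zpow_add] <;> group
    rw [this]
    exact one_mem _
  · rcases h with ⟨h1, h2⟩ | ⟨i, h1, h2⟩ | ⟨i, j, hj, hj', h1, h2⟩ | ⟨i, h1, h2⟩
    · subst h1 h2
      have : (r (P, 0))⁻¹ * FreeGroup.of true * r (Q, 0) = 1 := by simp [r]
      rw [this]
      exact one_mem _
    · subst h1 h2
      have e1 : i + 2 - (i + 1) = 0 + 1 := by omega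
      have : (r (M i (i + 1), 0))⁻¹ * FreeGroup.of true * r (P, (e i (i + 2) : ℤ)) = 1 := by
        simp only [r, e1, T, Nat.sub_zero, zpow_natCast]
        group
      rw [this]
      exact one_mem _
    · subst h1 h2
      have e1 : i + 2 - j = (i + 2 - (j + 1)) + 1 := by omega
      have e2 : i + 2 - (i + 2 - (j + 1)) = j + 1 := by omega
      have : (r (M i j, 0))⁻¹ * FreeGroup.of true * r (M i (j + 1), (e i (j + 1) : ℤ)) = 1 := by
        simp only [r, zpow_natCast]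
        rw [e1, T, e2]
        group
      rw [this]
      exact one_mem _
    · subst h1 h2
      have : (r (Q, -(e i 0 : ℤ)))⁻¹ * FreeGroup.of true * r (M i 1, (e i 1 : ℤ)) = U i := by
        have e1 : i + 2 - (i + 2) = 0 := by omega
        have e2 : i + 2 - (i + 1) = 1 := by omega
        have e3 : i + 2 - 1 = i + 1 := by omega
        rw [U_eq, T, T, e1, e2]
        simp only [r, zpow_natCast, e3, zpow_neg]
        group
      rw [this]
      exact U_mem i

theorem mk_cons (c s : Bool) (L : List (Bool × Bool)) :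
    FreeGroup.mk ((c, s) :: L) = (if s then FreeGroup.of c else (FreeGroup.of c)⁻¹) *
      FreeGroup.mk L := by
  cases s
  · have : (FreeGroup.of c)⁻¹ = FreeGroup.mk [(c, false)] := rfl
    simp [this, FreeGroup.mul_mk]
  · have : (FreeGroup.of c) = FreeGroup.mk [(c, true)] := rfl
    simp [this, FreeGroup.mul_mk]

theorem run_mem {L : List (Bool × Bool)} {y : V} (h : Run L (P, 0) y) :
    (r y)⁻¹ * FreeGroup.mk L ∈ W := by
  induction L generalizing y with
  | nil =>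
    cases h
    have : (r (P, 0))⁻¹ * FreeGroup.mk ([] : List (Bool × Bool)) = 1 := by
      simp [r, ← FreeGroup.one_eq_mk]
    rw [this]
    exact one_mem _
  | cons c L ih =>
    obtain ⟨z, h1, h2⟩ := h
    obtain ⟨c, s⟩ := c
    have i1 := ih h1
    rw [mk_cons]
    cases s
    · have i2 := inv_mem (edge_mem (c := c) h2)
      have : (r y)⁻¹ * ((if false = true then FreeGroup.of c else (FreeGroup.of c)⁻¹) *
          FreeGroup.mk L) = ((r z)⁻¹ * FreeGroup.of c * r y)⁻¹ * ((r z)⁻¹ * FreeGroup.mk L) := by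
        simp; group
      rw [this]
      exact mul_mem i2 i1
    · have i2 := edge_mem (c := c) h2
      have : (r y)⁻¹ * ((if true = true then FreeGroup.of c else (FreeGroup.of c)⁻¹) *
          FreeGroup.mk L) = ((r y)⁻¹ * FreeGroup.of c * r z) * ((r z)⁻¹ * FreeGroup.mk L) := by
        simp; group
      rw [this]
      exact mul_mem i2 i1

theorem run_rep {n : ℕ} {δ : Bool} {x y : V} (h : Run (List.replicate n (false, δ)) x y) :
    y = (x.1, x.2 + (if δ then (n : ℤ) else -(n : ℤ))) := by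
  induction n generalizing y with
  | zero => cases h; cases δ <;> simp
  | succ n ih =>
    rw [List.replicate_succ] at h
    obtain ⟨z, h1, h2⟩ := h
    have := ih h1
    subst this
    cases δ
    · simp only [Stp, Edge] at h2
      have k1 := congrArg Prod.fst h2
      have k2 := congrArg Prod.snd h2
      simp at k1 k2
      refine Prod.ext k1.symm ?_
      simp; linarith
    · simp only [Stp, Edge] at h2
      rw [h2]; simp; ring

theorem two_pow_add_aux {a d c b : ℕ} (had : a ≤ d) (hcb : c ≤ b)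
    (h : 2 ^ a + 2 ^ d = 2 ^ c + 2 ^ b) : a = c ∧ d = b := by
  have p1 : 2 ^ a ≤ 2 ^ d := Nat.pow_le_pow_right (by norm_num) had
  have p2 : 2 ^ c ≤ 2 ^ b := Nat.pow_le_pow_right (by norm_num) hcb
  have p3 : 0 < 2 ^ a := by positivity
  have p4 : 0 < 2 ^ c := by positivity
  rcases lt_trichotomy d b with hlt | heq | hlt
  · have : 2 ^ (d + 1) ≤ 2 ^ b := Nat.pow_le_pow_right (by norm_num) hlt
    rw [pow_succ] at this
    omega
  · subst heq
    have : 2 ^ a = 2 ^ c := by omega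
    exact ⟨Nat.pow_right_injective (le_refl 2) this, rfl⟩
  · have : 2 ^ (b + 1) ≤ 2 ^ d := Nat.pow_le_pow_right (by norm_num) hlt
    rw [pow_succ] at this
    omega

theorem two_pow_add {a d c b : ℕ} (h : 2 ^ a + 2 ^ d = 2 ^ c + 2 ^ b) :
    (a = c ∧ d = b) ∨ (a = b ∧ d = c) := by
  rcases le_total a d with h1 | h1 <;> rcases le_total c b with h2 | h2
  · exact Or.inl (two_pow_add_aux h1 h2 h)
  · have := two_pow_add_aux h1 h2 (h.trans (add_comm _ _))
    exact Or.inr this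
  · have := two_pow_add_aux h1 h2 ((add_comm _ _).trans h)
    exact Or.inr ⟨this.2, this.1⟩
  · have := two_pow_add_aux h1 h2 (((add_comm _ _).trans h).trans (add_comm _ _))
    exact Or.inl ⟨this.2, this.1⟩

theorem e_sub {i j i' j' k l k' l' : ℕ}
    (h : (e i j : ℤ) - e i' j' = e k l - e k' l') (hne : (e i j : ℤ) - e i' j' ≠ 0) :
    i = k ∧ i' = k' := by
  have h1 : e i j + e k' l' = e k l + e i' j' := by
    have : (e i j : ℤ) + e k' l' = e k l + e i' j' := by linarith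
    exact_mod_cast this
  unfold e at h1
  rcases two_pow_add h1 with ⟨h2, h3⟩ | ⟨h2, h3⟩
  · exact ⟨(Nat.pair_eq_pair.1 h2).1, (Nat.pair_eq_pair.1 h3).1.symm⟩
  · exfalso
    apply hne
    unfold e
    rw [h2]
    simp

def vt0 (i j : ℕ) : V :=
  if j = i + 2 then (P, 0) else if j = 0 then (Q, -(e i 0 : ℤ)) else (M i j, 0)

def vt1 (i j : ℕ) : V :=
  if j = i + 2 then (P, (e i (i + 2) : ℤ)) else if j = 0 then (Q, 0) else (M i j, (e i j : ℤ))

theorem casePP {x y z : V} {N : ℤ} (h : EdgeA x y) (h' : EdgeA (y.1, y.2 + N) z) :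
    ∃ i j : ℕ, N = e i j ∧ y = vt0 i j := by
  rcases h with ⟨h1, h2⟩ | ⟨i, h1, h2⟩ | ⟨i, j, hj, hj', h1, h2⟩ | ⟨i, h1, h2⟩ <;>
  rcases h' with ⟨k1, k2⟩ | ⟨i', k1, k2⟩ | ⟨i', j', kj, kj', k1, k2⟩ | ⟨i', k1, k2⟩ <;>
  subst h2 <;>
  simp only [Prod.mk.injEq, Line.M.injEq, reduceCtorEq, false_and, true_and, zero_add] at k1
  · exact ⟨i', i' + 2, k1, by simp [vt0]⟩
  · obtain ⟨⟨rfl, hi⟩, rfl⟩ := k1
    exact ⟨i, j' + 1, rfl, by rw [← hi]; simp [vt0]⟩
  · obtain ⟨⟨rfl, hi⟩, rfl⟩ := k1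
    exact ⟨_, _, rfl, by simp [vt0]; omega⟩
  · obtain ⟨⟨rfl, rfl⟩, rfl⟩ := k1
    refine ⟨_, _, rfl, ?_⟩
    rw [vt0, if_neg (by omega), if_neg (by omega)]
  · obtain ⟨⟨rfl, rfl⟩, rfl⟩ := k1
    refine ⟨_, _, rfl, ?_⟩
    rw [vt0, if_neg (by omega), if_neg (by omega)]
  · refine ⟨i, 0, by linarith, ?_⟩
    rw [vt0, if_neg (by omega), if_pos rfl]

theorem caseMM {x y z : V} {N : ℤ} (h : EdgeA y x) (h' : EdgeA z (y.1, y.2 + N)) :
    ∃ i j : ℕ, N = -(e i j : ℤ) ∧ y = vt1 i j := by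
  rcases h with ⟨h1, h2⟩ | ⟨i, h1, h2⟩ | ⟨i, j, hj, hj', h1, h2⟩ | ⟨i, h1, h2⟩ <;>
  rcases h' with ⟨k1, k2⟩ | ⟨i', k1, k2⟩ | ⟨i', j', kj, kj', k1, k2⟩ | ⟨i', k1, k2⟩ <;>
  subst h1 <;>
  simp only [Prod.mk.injEq, Line.M.injEq, reduceCtorEq, false_and, true_and, zero_add] at k2
  · exact ⟨i', 0, k2, by simp [vt1]⟩
  · exact ⟨i, i + 2, by linarith, by simp [vt1]⟩
  · refine ⟨i, j + 1, by linarith [k2.2], ?_⟩
    rw [vt1, if_neg (by omega), if_neg (by omega)]
  · refine ⟨i, j + 1, by linarith [k2.2], ?_⟩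
    rw [vt1, if_neg (by omega), if_neg (by omega)]
  · refine ⟨i, 1, by linarith [k2.2], ?_⟩
    rw [vt1, if_neg (by omega), if_neg (by omega)]
  · refine ⟨i, 1, by linarith [k2.2], ?_⟩
    rw [vt1, if_neg (by omega), if_neg (by omega)]

theorem casePM {x y z : V} {N : ℤ} (hN : N ≠ 0) (h : EdgeA x y) (h' : EdgeA z (y.1, y.2 + N)) :
    ∃ i i' : ℕ, N = (e i 0 : ℤ) - e i' 0 ∧ y = (Q, -(e i 0 : ℤ)) := by
  rcases h with ⟨h1, h2⟩ | ⟨i, h1, h2⟩ | ⟨i, j, hj, hj', h1, h2⟩ | ⟨i, h1, h2⟩ <;>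
  rcases h' with ⟨k1, k2⟩ | ⟨i', k1, k2⟩ | ⟨i', j', kj, kj', k1, k2⟩ | ⟨i', k1, k2⟩ <;>
  subst h2 <;>
  simp only [Prod.mk.injEq, Line.M.injEq, reduceCtorEq, false_and, true_and, zero_add] at k2
  · exact absurd k2 hN
  · exact absurd k2.2 hN
  · exact absurd k2.2 hN
  · exact absurd k2.2 hN
  · exact absurd k2.2 hN
  · exact ⟨i, i', by linarith, rfl⟩

theorem caseMP {x y z : V} {N : ℤ} (hN : N ≠ 0) (h : EdgeA y x) (h' : EdgeA (y.1, y.2 + N) z) :
    ∃ i i' : ℕ, N = (e i' (i' + 2) : ℤ) - e i (i + 2) ∧ y = (P, (e i (i + 2) : ℤ)) := by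
  rcases h with ⟨h1, h2⟩ | ⟨i, h1, h2⟩ | ⟨i, j, hj, hj', h1, h2⟩ | ⟨i, h1, h2⟩ <;>
  rcases h' with ⟨k1, k2⟩ | ⟨i', k1, k2⟩ | ⟨i', j', kj, kj', k1, k2⟩ | ⟨i', k1, k2⟩ <;>
  subst h1 <;>
  simp only [Prod.mk.injEq, Line.M.injEq, reduceCtorEq, false_and, true_and, zero_add] at k1
  · exact absurd k1 hN
  · exact ⟨i, i', by linarith, rfl⟩
  · obtain ⟨⟨rfl, hj2⟩, k3⟩ := k1
    rw [hj2] at k3
    exact absurd (by linarith) hN
  · omega
  · omega
  · obtain ⟨⟨rfl, _⟩, k3⟩ := k1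
    exact absurd (by linarith) hN

theorem uniq {N : ℤ} {ε ε' : Bool} (hN : N = 0 → ε = ε') {x₁ y₁ z₁ x₂ y₂ z₂ : V}
    (h1 : Stp (true, ε) x₁ y₁) (h1' : Stp (true, ε') (y₁.1, y₁.2 + N) z₁)
    (h2 : Stp (true, ε) x₂ y₂) (h2' : Stp (true, ε') (y₂.1, y₂.2 + N) z₂) : x₁ = x₂ := by
  have hy : y₁ = y₂ := by
    cases ε <;> cases ε' <;> simp only [Stp, Edge] at h1 h1' h2 h2'
    · obtain ⟨i, j, e1, e2⟩ := caseMM h1 h1'
      obtain ⟨i', j', e1', e2'⟩ := caseMM h2 h2'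
      have : e i j = e i' j' := by
        have : (e i j : ℤ) = e i' j' := by linarith
        exact_mod_cast this
      obtain ⟨rfl, rfl⟩ := e_inj this
      rw [e2, e2']
    · have hN' : N ≠ 0 := fun h => by simpa using hN h
      obtain ⟨i, j, e1, e2⟩ := caseMP hN' h1 h1'
      obtain ⟨i', j', e1', e2'⟩ := caseMP hN' h2 h2'
      have := e_sub (e1.symm.trans e1') (by rw [← e1]; exact hN')
      rw [e2, e2', this.2]
    · have hN' : N ≠ 0 := fun h => by simpa using hN h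
      obtain ⟨i, j, e1, e2⟩ := casePM hN' h1 h1'
      obtain ⟨i', j', e1', e2'⟩ := casePM hN' h2 h2'
      have := e_sub (e1.symm.trans e1') (by rw [← e1]; exact hN')
      rw [e2, e2', this.1]
    · obtain ⟨i, j, e1, e2⟩ := casePP h1 h1'
      obtain ⟨i', j', e1', e2'⟩ := casePP h2 h2'
      have : e i j = e i' j' := by exact_mod_cast e1.symm.trans e1'
      obtain ⟨rfl, rfl⟩ := e_inj this
      rw [e2, e2']
  subst hy
  exact stp_det (stp_inv.2 h1) (stp_inv.2 h2)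

theorem decomp {w : D} (hw : w ∈ W) {n : ℕ} {δ ε ε' : Bool} {α β : List (Bool × Bool)}
    (h : w.toWord = α ++ (true, ε') :: (List.replicate n (false, δ) ++ (true, ε) :: β)) :
    ∃ x y z : V, Run β (P, 0) x ∧ Stp (true, ε) x y ∧
      Stp (true, ε') (y.1, y.2 + (if δ then (n : ℤ) else -(n : ℤ))) z := by
  have hr := run_of_mem hw
  rw [h, run_append] at hr
  obtain ⟨z, ⟨y', hy', hz⟩, _⟩ := hr
  rw [run_append] at hy'
  obtain ⟨y, ⟨x, hx, hy⟩, hyy⟩ := hy'
  rw [run_rep hyy] at hz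
  exact ⟨x, y, z, hx, hy, hz⟩

end K

theorem key (w₁ w₂ : D) (hw₁ : w₁ ∈ W) (hw₂ : w₂ ∈ W) (n : ℕ) (δ ε ε' : Bool)
    (α₁ β₁ α₂ β₂ : List (Bool × Bool))
    (h₁ : w₁.toWord = α₁ ++ (true, ε') :: (List.replicate n (false, δ) ++ (true, ε) :: β₁))
    (h₂ : w₂.toWord = α₂ ++ (true, ε') :: (List.replicate n (false, δ) ++ (true, ε) :: β₂)) :
    (FreeGroup.mk β₂)⁻¹ * FreeGroup.mk β₁ ∈ W := by
  obtain ⟨x₁, y₁, z₁, a1, b1, c1⟩ := K.decomp hw₁ h₁
  obtain ⟨x₂, y₂, z₂, a2, b2, c2⟩ := K.decomp hw₂ h₂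
  have hN : (if δ then (n : ℤ) else -(n : ℤ)) = 0 → ε = ε' := by
    intro h
    have hn : n = 0 := by cases δ <;> simpa using h
    subst hn
    by_contra hne
    have he : ε = !ε' := by cases ε <;> cases ε' <;> simp_all
    subst he
    have := FreeGroup.reduce_toWord w₁
    rw [h₁] at this
    simp only [List.replicate_zero, List.nil_append] at this
    exact FreeGroup.reduce.not this
  have hx := K.uniq hN b1 c1 b2 c2
  subst hx
  have m1 := K.run_mem a1
  have m2 := K.run_mem a2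
  have : (FreeGroup.mk β₂)⁻¹ * FreeGroup.mk β₁ =
      ((K.r x₁)⁻¹ * FreeGroup.mk β₂)⁻¹ * ((K.r x₁)⁻¹ * FreeGroup.mk β₁) := by group
  rw [this]
  exact mul_mem (inv_mem m2) m1

end PB
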