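import Pool.Agent.R309.PB.Defs

/-! PB-L: counting lemma for closed sequences of letter moves and jumps. -/

namespace PB

/-- PB-L (hypotheses: the three results of PB-O) -/
theorem loop
    (h1 : ∀ x y : D, (Sep x y).Finite) (h1' : ∀ x y : D, (Sep x y).ncard = acount (y * x⁻¹))
    (h2 : ∀ x y : D, IsLetter (y * x⁻¹) → (Sep x y).Subsingleton)
    (h3 : ∀ x₁ y₁ x₂ y₂ : D, y₁ * x₁⁻¹ ∈ W → y₂ * x₂⁻¹ ∈ W → x₂ * x₁⁻¹ ∉ W →
      (Sep x₁ y₁ ∩ Sep x₂ y₂).Subsingleton)
    (n : ℕ) (s t : ℕ → D)
    (hl : ∀ k < n, IsLetter (t k * (s k)⁻¹)) (hj : ∀ k < n, s (k + 1) * (t k)⁻¹ ∈ W)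
    (hc : s n = s 0) (hd : ∀ k l, k < n → l < n → k ≠ l → t k * (t l)⁻¹ ∉ W) :
    ∀ k < n, acount (s (k + 1) * (t k)⁻¹) ≤ 2 * n := by
  intro k hk
  rw [← h1']
  set S : Set D := Sep (t k) (s (k + 1)) with hS
  let A : ℕ → Set D := fun l =>
    Sep (s l) (t l) ∪ (if l = k then ∅ else Sep (t l) (s (l + 1)) ∩ S)
  have hsub : S ⊆ ⋃ l ∈ Finset.range n, A l := by
    intro q hq
    by_contra hcon
    have hA : ∀ l < n, q ∉ A l := by
      intro l hl' hql
      apply hcon
      simp only [Set.mem_iUnion]
      exact ⟨l, Finset.mem_range.mpr hl', hql⟩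
    have hst : ∀ l < n, (HS q (s l) ↔ HS q (t l)) := by
      intro l hl'
      by_contra hne
      exact hA l hl' (Or.inl hne)
    have hts : ∀ l < n, l ≠ k → (HS q (t l) ↔ HS q (s (l + 1))) := by
      intro l hl' hlk
      by_contra hne
      apply hA l hl'
      right
      rw [if_neg hlk]
      exact ⟨hne, hq⟩
    have hlow : ∀ l, l ≤ k → (HS q (s 0) ↔ HS q (s l)) := by
      intro l
      induction l with
      | zero => intro _; exact Iff.rfl
      | succ l ih =>
        intro hlk
        have e1 := ih (by omega)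
        have e2 := hst l (by omega)
        have e3 := hts l (by omega) (by omega)
        exact e1.trans (e2.trans e3)
    have hhigh : ∀ j, k + 1 + j ≤ n → (HS q (s (k + 1)) ↔ HS q (s (k + 1 + j))) := by
      intro j
      induction j with
      | zero => intro _; exact Iff.rfl
      | succ j ih =>
        intro hjn
        have e1 := ih (by omega)
        have e2 := hst (k + 1 + j) (by omega)
        have e3 := hts (k + 1 + j) (by omega) (by omega)
        exact e1.trans (e2.trans e3)
    apply hq
    have e1 := hlow k le_rfl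
    have e2 := hst k hk
    have e3 := hhigh (n - (k + 1)) (by omega)
    have e4 : k + 1 + (n - (k + 1)) = n := by omega
    rw [e4, hc] at e3
    exact e2.symm.trans (e1.symm.trans e3.symm)
  have hfin : (⋃ l ∈ Finset.range n, A l).Finite := by
    apply Set.Finite.biUnion (Finset.finite_toSet _)
    intro l _
    apply Set.Finite.union (h1 _ _)
    split_ifs
    · exact Set.finite_empty
    · exact (h1 _ _).inter_of_left _
  have hone : ∀ X : Set D, X.Subsingleton → X.ncard ≤ 1 := by
    intro X hX
    haveI := hX.finite.to_subtype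
    exact Set.ncard_le_one_iff_subsingleton.mpr hX
  calc S.ncard ≤ (⋃ l ∈ Finset.range n, A l).ncard := Set.ncard_le_ncard hsub hfin
    _ ≤ ∑ l ∈ Finset.range n, (A l).ncard := Finset.set_ncard_biUnion_le _ _
    _ ≤ ∑ _l ∈ Finset.range n, 2 := by
        apply Finset.sum_le_sum
        intro l hl'
        have hln : l < n := Finset.mem_range.mp hl'
        refine (Set.ncard_union_le _ _).trans ?_
        have a1 := hone _ (h2 (s l) (t l) (hl l hln))
        by_cases hlk : l = k
        · rw [if_pos hlk, Set.ncard_empty]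
          omega
        · rw [if_neg hlk]
          have a2 := hone _ (h3 (t l) (s (l + 1)) (t k) (s (k + 1)) (hj l hln) (hj k hk)
            (hd k l hk hln (Ne.symm hlk)))
          rw [← hS] at a2
          omega
    _ = 2 * n := by
        rw [Finset.sum_const, Finset.card_range, smul_eq_mul, mul_comm]

end PB
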