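import Pool.Agent.R309.PB.Defs

/-!
Project PB, piece PB-O: half spaces in the Cayley tree of `FreeGroup Bool`.
-/

namespace PB.OSep

open FreeGroup

theorem red_sub {L₁ L₂ : List (Bool × Bool)} (h : FreeGroup.IsReduced L₂)
    (h' : ∃ s t, s ++ L₁ ++ t = L₂) : FreeGroup.IsReduced L₁ := by
  obtain ⟨s, t, rfl⟩ := h'
  exact (List.IsChain.left_of_append h).right_of_append

/-- `s true = 1`, `s false = a⁻¹` -/
def so (ε : Bool) : D := if ε then 1 else (FreeGroup.of true)⁻¹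

theorem o_word_cons (c : Bool × Bool) (v : D) :
    (FreeGroup.mk [c] * v).toWord = FreeGroup.reduce (c :: v.toWord) := by
  rw [FreeGroup.toWord_mul, FreeGroup.toWord_mk, FreeGroup.reduce_singleton]
  rfl

theorem o_so_word (ε : Bool) : (so ε)⁻¹.toWord = if ε then [] else [(true, true)] := by
  cases ε <;> simp [so]

theorem o_step (c : Bool × Bool) (y q : D) :
    ¬ (HS q y ↔ HS q (FreeGroup.mk [c] * y)) ↔ c.1 = true ∧ q = so c.2 * y := by
  have hq : q = (y * q⁻¹)⁻¹ * y := by group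
  unfold HS
  rw [mul_assoc, o_word_cons]
  generalize hV : (y * q⁻¹) = v at *
  have hred : FreeGroup.IsReduced v.toWord := FreeGroup.isReduced_toWord
  subst hq
  obtain ⟨c1, c2⟩ := c
  have key : (v⁻¹ * y = so c2 * y) ↔ v.toWord = if c2 then [] else [(true, true)] := by
    rw [mul_left_inj, inv_eq_iff_eq_inv, ← o_so_word, FreeGroup.toWord_inj]
  rw [key]
  rcases hL : v.toWord with _ | ⟨hd, tl⟩
  · rw [FreeGroup.reduce_singleton]
    cases c1 <;> cases c2 <;> simp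
  · rw [hL] at hred
    obtain ⟨hd1, hd2⟩ := hd
    have hr : FreeGroup.reduce ((hd1, hd2) :: tl) = (hd1, hd2) :: tl := hred.reduce_eq
    rw [FreeGroup.reduce.cons, hr]
    rcases tl with _ | ⟨hd', tl'⟩
    · cases c1 <;> cases c2 <;> cases hd1 <;> cases hd2 <;> simp
    · have h1 : ((hd1, hd2) :: hd' :: tl').getLast? = (hd' :: tl').getLast? :=
        List.getLast?_cons_cons
      have h2 : ((c1, c2) :: (hd1, hd2) :: hd' :: tl').getLast? = (hd' :: tl').getLast? := by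
        rw [List.getLast?_cons_cons, h1]
      rw [h1]
      cases c1 <;> cases c2 <;> cases hd1 <;> cases hd2 <;> simp [h2]

theorem sep_cons (c : Bool × Bool) (L : List (Bool × Bool)) (x q : D) :
    q ∈ Sep x (FreeGroup.mk (c :: L) * x) ↔
      ¬ (q ∈ Sep x (FreeGroup.mk L * x) ↔ (c.1 = true ∧ q = so c.2 * (FreeGroup.mk L * x))) := by
  have h1 : FreeGroup.mk (c :: L) * x = FreeGroup.mk [c] * (FreeGroup.mk L * x) := by
    rw [← mul_assoc, FreeGroup.mul_mk]; rfl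
  rw [h1, ← o_step c (FreeGroup.mk L * x) q]
  simp only [Sep, Set.mem_ofPred_eq]
  tauto

theorem sep_nil (x : D) : Sep x (FreeGroup.mk [] * x) = ∅ := by
  have : FreeGroup.mk [] * x = x := by
    rw [← FreeGroup.one_eq_mk, one_mul]
  rw [this]
  ext q
  simp [Sep]

theorem sep_list_finite (x : D) (L : List (Bool × Bool)) :
    (Sep x (FreeGroup.mk L * x)).Finite := by
  induction L with
  | nil => rw [sep_nil]; exact Set.finite_empty
  | cons c L ih =>
    refine (ih.insert (so c.2 * (FreeGroup.mk L * x))).subset ?_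
    intro q hq
    rw [sep_cons] at hq
    rw [Set.mem_insert_iff]
    by_contra hcon
    rw [not_or] at hcon
    exact hq (iff_of_false hcon.2 (fun h => hcon.1 h.2))

theorem mk_word_mul (x y : D) : FreeGroup.mk (y * x⁻¹).toWord * x = y := by
  rw [FreeGroup.mk_toWord]; group

theorem sep_finite (x y : D) : (Sep x y).Finite := by
  have h := sep_list_finite x (y * x⁻¹).toWord
  rwa [mk_word_mul] at h

theorem sep_posn (x : D) (L : List (Bool × Bool)) (q : D)
    (hq : q ∈ Sep x (FreeGroup.mk L * x)) :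
    ∃ (α : List (Bool × Bool)) (ε : Bool) (β : List (Bool × Bool)),
      L = α ++ (true, ε) :: β ∧ q = so ε * (FreeGroup.mk β * x) := by
  induction L with
  | nil => rw [sep_nil] at hq; exact absurd hq (Set.notMem_empty _)
  | cons c L ih =>
    rw [sep_cons] at hq
    by_cases h : q ∈ Sep x (FreeGroup.mk L * x)
    · obtain ⟨α, ε, β, h1, h2⟩ := ih h
      exact ⟨c :: α, ε, β, by rw [h1]; rfl, h2⟩
    · have h' : c.1 = true ∧ q = so c.2 * (FreeGroup.mk L * x) := by tauto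
      obtain ⟨c1, c2⟩ := c
      simp only at h'
      exact ⟨[], c2, L, by rw [h'.1]; rfl, h'.2⟩

/-- the new point is not separated -/
theorem sep_new (x : D) (c2 : Bool) (L : List (Bool × Bool))
    (hL : FreeGroup.IsReduced ((true, c2) :: L)) :
    so c2 * (FreeGroup.mk L * x) ∉ Sep x (FreeGroup.mk L * x) := by
  have hL' : FreeGroup.IsReduced L := red_sub hL ⟨[(true, c2)], [], by simp⟩
  intro h
  apply h
  unfold HS
  have e1 : x * (so c2 * (FreeGroup.mk L * x))⁻¹ = (so c2 * FreeGroup.mk L)⁻¹ := by group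
  have e2 : FreeGroup.mk L * x * (so c2 * (FreeGroup.mk L * x))⁻¹ = (so c2)⁻¹ := by group
  rw [e1, e2, FreeGroup.toWord_inv, o_so_word]
  cases c2
  · have e3 : (so false * FreeGroup.mk L).toWord = (true, false) :: L := by
      have : so false * FreeGroup.mk L = FreeGroup.mk ((true, false) :: L) := by
        simp only [so, FreeGroup.of, FreeGroup.inv_mk]
        rfl
      rw [this, FreeGroup.toWord_mk, hL.reduce_eq]
    rw [e3]
    simp [FreeGroup.invRev]
  · have e3 : (so true * FreeGroup.mk L).toWord = L := by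
      have : so true * FreeGroup.mk L = FreeGroup.mk L := by
        simp [so]
      rw [this, FreeGroup.toWord_mk, hL'.reduce_eq]
    rw [e3]
    rcases L with _ | ⟨⟨h1, h2⟩, L⟩
    · simp [FreeGroup.invRev]
    · have := (FreeGroup.isReduced_cons_cons.1 hL).1
      cases h1 <;> cases h2 <;> simp [FreeGroup.invRev] at this ⊢

theorem sep_list_ncard (x : D) (L : List (Bool × Bool)) (hL : FreeGroup.IsReduced L) :
    (Sep x (FreeGroup.mk L * x)).ncard = (L.filter (fun l => l.1)).length := by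
  induction L with
  | nil => rw [sep_nil]; simp
  | cons c L ih =>
    have hL' : FreeGroup.IsReduced L := red_sub hL ⟨[c], [], by simp⟩
    obtain ⟨c1, c2⟩ := c
    cases c1
    · have : Sep x (FreeGroup.mk ((false, c2) :: L) * x) = Sep x (FreeGroup.mk L * x) := by
        ext q
        rw [sep_cons]
        simp
      rw [this, ih hL']
      simp
    · have hnew := sep_new x c2 L hL
      have : Sep x (FreeGroup.mk ((true, c2) :: L) * x) =
          insert (so c2 * (FreeGroup.mk L * x)) (Sep x (FreeGroup.mk L * x)) := by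
        ext q
        rw [sep_cons, Set.mem_insert_iff]
        constructor
        · intro h
          by_contra hcon
          rw [not_or] at hcon
          exact h (iff_of_false hcon.2 (fun h => hcon.1 h.2))
        · rintro (h | h)
          · subst h; simp only [true_and]; tauto
          · have : q ≠ so c2 * (FreeGroup.mk L * x) := by
              rintro rfl; exact hnew h
            simp only [true_and]; tauto
      rw [this, Set.ncard_insert_of_notMem hnew (sep_list_finite x L), ih hL']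
      simp

theorem sep_ncard (x y : D) : (Sep x y).ncard = acount (y * x⁻¹) := by
  have h := sep_list_ncard x (y * x⁻¹).toWord FreeGroup.isReduced_toWord
  rwa [mk_word_mul] at h

theorem sep_letter (x y : D) (h : IsLetter (y * x⁻¹)) : (Sep x y).Subsingleton := by
  have h' : ∃ c : Bool × Bool, y = FreeGroup.mk [c] * x := by
    rcases h with h | h | h | h
    · exact ⟨(true, true), by rw [mul_inv_eq_iff_eq_mul] at h; rw [h]; rfl⟩
    · exact ⟨(true, false), by rw [mul_inv_eq_iff_eq_mul] at h; rw [h]; rfl⟩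
    · exact ⟨(false, true), by rw [mul_inv_eq_iff_eq_mul] at h; rw [h]; rfl⟩
    · exact ⟨(false, false), by rw [mul_inv_eq_iff_eq_mul] at h; rw [h]; rfl⟩
  obtain ⟨c, rfl⟩ := h'
  have h1 : ∀ q ∈ Sep x (FreeGroup.mk [c] * x), q = so c.2 * x := by
    intro q hq
    exact ((o_step c x q).1 hq).2
  intro q hq q' hq'
  rw [h1 q hq, h1 q' hq']

theorem so_not_mk (ε : Bool) : so (!ε) * FreeGroup.mk [(true, ε)] = so ε := by
  cases ε
  · simp only [so, FreeGroup.of, FreeGroup.inv_mk]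
    rfl
  · change (FreeGroup.of true)⁻¹ * FreeGroup.of true = 1
    exact inv_mul_cancel _

/-- two separating edges, in order, from one of the two ends -/
theorem sep_pair (x y p p' : D) (hp : p ∈ Sep x y) (hp' : p' ∈ Sep x y) (hne : p ≠ p') :
    ∃ u v : D, ((u = x ∧ v = y) ∨ (u = y ∧ v = x)) ∧
      ∃ (α : List (Bool × Bool)) (ε' : Bool) (γ : List (Bool × Bool)) (ε : Bool)
        (β : List (Bool × Bool)),
        (v * u⁻¹).toWord = α ++ (true, ε') :: (γ ++ (true, ε) :: β) ∧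
        p = so ε * (FreeGroup.mk β * u) ∧
        p' = so ε' * (FreeGroup.mk (γ ++ (true, ε) :: β) * u) := by
  have hy := mk_word_mul x y
  obtain ⟨α, ε, β, h1, h2⟩ := sep_posn x (y * x⁻¹).toWord p (by rw [hy]; exact hp)
  obtain ⟨α', ε', β', h1', h2'⟩ := sep_posn x (y * x⁻¹).toWord p' (by rw [hy]; exact hp')
  have e : α ++ (true, ε) :: β = α' ++ (true, ε') :: β' := by rw [← h1, ← h1']
  rcases List.append_eq_append_iff.1 e with ⟨m, hm1, hm2⟩ | ⟨m, hm1, hm2⟩
  · -- α' = α ++ m, (true, ε) :: β = m ++ (true, ε') :: β'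
    rcases m with _ | ⟨m0, m⟩
    · exfalso
      simp only [List.nil_append, List.cons.injEq, Prod.mk.injEq, true_and] at hm2
      apply hne
      rw [h2, h2', hm2.1, hm2.2]
    · simp only [List.cons_append, List.cons.injEq] at hm2
      -- β = m ++ (true, ε') :: β'
      obtain ⟨-, hβ⟩ := hm2
      refine ⟨y, x, Or.inr ⟨rfl, rfl⟩, FreeGroup.invRev β', !ε', FreeGroup.invRev m, !ε,
        FreeGroup.invRev α, ?_, ?_, ?_⟩
      · have : x * y⁻¹ = (y * x⁻¹)⁻¹ := by group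
        rw [this, FreeGroup.toWord_inv, h1, hβ]
        simp [FreeGroup.invRev]
      · have hyy : y = FreeGroup.mk α * FreeGroup.mk [(true, ε)] * FreeGroup.mk β * x := by
          rw [FreeGroup.mul_mk, FreeGroup.mul_mk]
          conv_lhs => rw [← hy, h1]
          simp
        rw [← FreeGroup.inv_mk, hyy, h2, ← so_not_mk ε]
        group
      · have hyy : y = FreeGroup.mk α * FreeGroup.mk [(true, ε)] * FreeGroup.mk m *
            FreeGroup.mk [(true, ε')] * FreeGroup.mk β' * x := by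
          rw [FreeGroup.mul_mk, FreeGroup.mul_mk, FreeGroup.mul_mk, FreeGroup.mul_mk]
          conv_lhs => rw [← hy, h1, hβ]
          simp
        have e2 : FreeGroup.mk (FreeGroup.invRev m ++ (true, !ε) :: FreeGroup.invRev α) =
            (FreeGroup.mk α * FreeGroup.mk [(true, ε)] * FreeGroup.mk m)⁻¹ := by
          rw [FreeGroup.mul_mk, FreeGroup.mul_mk, FreeGroup.inv_mk]
          simp [FreeGroup.invRev]
        rw [e2, hyy, h2', ← so_not_mk ε']
        group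
  · -- α = α' ++ m, (true, ε') :: β' = m ++ (true, ε) :: β
    rcases m with _ | ⟨m0, m⟩
    · exfalso
      simp only [List.nil_append, List.cons.injEq, Prod.mk.injEq, true_and] at hm2
      apply hne
      rw [h2, h2', hm2.1, hm2.2]
    · simp only [List.cons_append, List.cons.injEq] at hm2
      obtain ⟨-, hβ⟩ := hm2
      refine ⟨x, y, Or.inl ⟨rfl, rfl⟩, α', ε', m, ε, β, ?_, h2, ?_⟩
      · rw [h1', hβ]
      · rw [h2', hβ]

/-- head part and tail part -/
def hdS (ε : Bool) : List (Bool × Bool) := if ε then [] else [(true, false)]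
def tlT (ε : Bool) : List (Bool × Bool) := if ε then [(true, true)] else []

theorem quot_word (α γ β : List (Bool × Bool)) (ε' ε : Bool) (u p p' w : D)
    (hw : w.toWord = α ++ (true, ε') :: (γ ++ (true, ε) :: β))
    (hp : p = so ε * (FreeGroup.mk β * u))
    (hp' : p' = so ε' * (FreeGroup.mk (γ ++ (true, ε) :: β) * u)) :
    (p' * p⁻¹).toWord = hdS ε' ++ γ ++ tlT ε := by
  have hred : FreeGroup.IsReduced (hdS ε' ++ γ ++ tlT ε) := by
    have h0 : FreeGroup.IsReduced w.toWord := FreeGroup.isReduced_toWord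
    rw [hw] at h0
    refine red_sub h0 ?_
    cases ε' <;> cases ε
    · exact ⟨α, (true, false) :: β, by simp [hdS, tlT]⟩
    · exact ⟨α, β, by simp [hdS, tlT]⟩
    · exact ⟨α ++ [(true, true)], (true, false) :: β, by simp [hdS, tlT]⟩
    · exact ⟨α ++ [(true, true)], β, by simp [hdS, tlT]⟩
  have e : p' * p⁻¹ = FreeGroup.mk (hdS ε' ++ γ ++ tlT ε) := by
    have e1 : so ε' = FreeGroup.mk (hdS ε') := by
      cases ε'
      · rfl
      · rfl
    have e2 : FreeGroup.mk [(true, ε)] * (so ε)⁻¹ = FreeGroup.mk (tlT ε) := by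
      cases ε
      · change (FreeGroup.of true)⁻¹ * ((FreeGroup.of true)⁻¹)⁻¹ = 1
        exact mul_inv_cancel _
      · change FreeGroup.of true * (1 : D)⁻¹ = FreeGroup.of true
        rw [inv_one, mul_one]
    have e3 : FreeGroup.mk (γ ++ (true, ε) :: β) =
        FreeGroup.mk γ * FreeGroup.mk [(true, ε)] * FreeGroup.mk β := by
      rw [FreeGroup.mul_mk, FreeGroup.mul_mk]
      simp
    rw [hp, hp', e3, ← FreeGroup.mul_mk, ← FreeGroup.mul_mk, ← e1, ← e2]
    group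
  rw [e, FreeGroup.toWord_mk, hred.reduce_eq]

theorem head_det (α γ β : List (Bool × Bool)) (ε' ε : Bool)
    (hw : FreeGroup.IsReduced (α ++ (true, ε') :: (γ ++ (true, ε) :: β))) :
    (hdS ε' ++ γ ++ tlT ε).head? = some (true, false) ↔ ε' = false := by
  have h1 : FreeGroup.IsReduced ((true, ε') :: (γ ++ [(true, ε)])) :=
    red_sub hw ⟨α, β, by simp⟩
  cases ε'
  · simp [hdS]
  · rcases γ with _ | ⟨⟨g1, g2⟩, γ⟩
    · cases ε <;> simp [hdS, tlT]
    · rw [List.cons_append, FreeGroup.isReduced_cons_cons] at h1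
      have := h1.1
      cases g1 <;> cases g2 <;> simp [hdS] at this ⊢

theorem last_det (α γ β : List (Bool × Bool)) (ε' ε : Bool)
    (hw : FreeGroup.IsReduced (α ++ (true, ε') :: (γ ++ (true, ε) :: β))) :
    (hdS ε' ++ γ ++ tlT ε).getLast? = some (true, true) ↔ ε = true := by
  have h1 : FreeGroup.IsReduced ((true, ε') :: (γ ++ [(true, ε)])) :=
    red_sub hw ⟨α, β, by simp⟩
  cases ε
  · rcases List.eq_nil_or_concat γ with rfl | ⟨γ', g, rfl⟩
    · cases ε' <;> simp [hdS, tlT]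
    · have h2 : FreeGroup.IsReduced [g, (true, false)] :=
        red_sub h1 ⟨(true, ε') :: γ', [], by simp⟩
      rw [FreeGroup.isReduced_cons_cons] at h2
      have := h2.1
      obtain ⟨g1, g2⟩ := g
      cases g1 <;> cases g2 <;> simp [tlT] at this ⊢
  · simp [tlT]

theorem hT_cancel (ε₁' ε₂' ε₁ ε₂ : Bool) (γ₁ γ₂ : List (Bool × Bool))
    (h' : ε₁' = ε₂') (h : ε₁ = ε₂)
    (e : hdS ε₁' ++ γ₁ ++ tlT ε₁ = hdS ε₂' ++ γ₂ ++ tlT ε₂) : γ₁ = γ₂ := by
  subst h' h
  exact List.append_cancel_left (List.append_cancel_right e)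

/-- last `a`-letter of a reduced word -/
theorem split_last (γ : List (Bool × Bool)) (h : FreeGroup.IsReduced γ) :
    (∃ (n : ℕ) (δ : Bool), γ = List.replicate n (false, δ)) ∨
    ∃ (ζ : List (Bool × Bool)) (ε : Bool) (n : ℕ) (δ : Bool),
      γ = ζ ++ (true, ε) :: List.replicate n (false, δ) := by
  induction γ with
  | nil => exact Or.inl ⟨0, true, rfl⟩
  | cons c γ ih =>
    have h' : FreeGroup.IsReduced γ := red_sub h ⟨[c], [], by simp⟩
    rcases ih h' with ⟨n, δ, rfl⟩ | ⟨ζ, ε, n, δ, rfl⟩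
    · obtain ⟨c1, c2⟩ := c
      cases c1
      · rcases n with _ | n
        · exact Or.inl ⟨1, c2, rfl⟩
        · rw [List.replicate_succ, FreeGroup.isReduced_cons_cons] at h
          have : c2 = δ := h.1 rfl
          subst this
          exact Or.inl ⟨n + 2, c2, by simp [List.replicate_succ]⟩
      · exact Or.inr ⟨[], c2, n, δ, rfl⟩
    · exact Or.inr ⟨c :: ζ, ε, n, δ, rfl⟩

theorem sep_overlap
    (hK : ∀ (w₁ w₂ : D) (_ : w₁ ∈ W) (_ : w₂ ∈ W) (n : ℕ) (δ ε ε' : Bool)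
      (α₁ β₁ α₂ β₂ : List (Bool × Bool))
      (_ : w₁.toWord = α₁ ++ (true, ε') :: (List.replicate n (false, δ) ++ (true, ε) :: β₁))
      (_ : w₂.toWord = α₂ ++ (true, ε') :: (List.replicate n (false, δ) ++ (true, ε) :: β₂)),
      (FreeGroup.mk β₂)⁻¹ * FreeGroup.mk β₁ ∈ W)
    (x₁ y₁ x₂ y₂ : D) (h₁ : y₁ * x₁⁻¹ ∈ W) (h₂ : y₂ * x₂⁻¹ ∈ W) (h : x₂ * x₁⁻¹ ∉ W) :
    (Sep x₁ y₁ ∩ Sep x₂ y₂).Subsingleton := by
  intro p hp p' hp'
  by_contra hne
  apply h
  obtain ⟨u₁, v₁, huv₁, α₁, ε₁', γ₁, ε₁, β₁, hw₁, hp₁, hp₁'⟩ :=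
    sep_pair x₁ y₁ p p' hp.1 hp'.1 hne
  obtain ⟨u₂, v₂, huv₂, α₂, ε₂', γ₂, ε₂, β₂, hw₂, hp₂, hp₂'⟩ :=
    sep_pair x₂ y₂ p p' hp.2 hp'.2 hne
  have hW : ∀ x y u v : D, y * x⁻¹ ∈ W → ((u = x ∧ v = y) ∨ (u = y ∧ v = x)) →
      v * u⁻¹ ∈ W ∧ u * x⁻¹ ∈ W := by
    intro x y u v hxy hh
    rcases hh with ⟨rfl, rfl⟩ | ⟨rfl, rfl⟩
    · exact ⟨hxy, by rw [mul_inv_cancel]; exact W.one_mem⟩
    · refine ⟨?_, hxy⟩
      have := W.inv_mem hxy
      have e : (u * v⁻¹)⁻¹ = v * u⁻¹ := by group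
      rwa [e] at this
  obtain ⟨hW₁, hx₁⟩ := hW x₁ y₁ u₁ v₁ h₁ huv₁
  obtain ⟨hW₂, hx₂⟩ := hW x₂ y₂ u₂ v₂ h₂ huv₂
  have q₁ := quot_word α₁ γ₁ β₁ ε₁' ε₁ u₁ p p' _ hw₁ hp₁ hp₁'
  have q₂ := quot_word α₂ γ₂ β₂ ε₂' ε₂ u₂ p p' _ hw₂ hp₂ hp₂'
  have r₁ : FreeGroup.IsReduced (α₁ ++ (true, ε₁') :: (γ₁ ++ (true, ε₁) :: β₁)) := by
    rw [← hw₁]; exact FreeGroup.isReduced_toWord
  have r₂ : FreeGroup.IsReduced (α₂ ++ (true, ε₂') :: (γ₂ ++ (true, ε₂) :: β₂)) := by
    rw [← hw₂]; exact FreeGroup.isReduced_toWord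
  have hε' : ε₁' = ε₂' := by
    have i₁ := head_det α₁ γ₁ β₁ ε₁' ε₁ r₁
    have i₂ := head_det α₂ γ₂ β₂ ε₂' ε₂ r₂
    rw [← q₁] at i₁
    rw [← q₂] at i₂
    have := i₁.symm.trans i₂
    cases ε₁' <;> cases ε₂' <;> simp at this ⊢
  have hε : ε₁ = ε₂ := by
    have i₁ := last_det α₁ γ₁ β₁ ε₁' ε₁ r₁
    have i₂ := last_det α₂ γ₂ β₂ ε₂' ε₂ r₂
    rw [← q₁] at i₁
    rw [← q₂] at i₂
    have := i₁.symm.trans i₂
    cases ε₁ <;> cases ε₂ <;> simp at this ⊢
  have hγ : γ₁ = γ₂ := hT_cancel ε₁' ε₂' ε₁ ε₂ γ₁ γ₂ hε' hε (by rw [← q₁, ← q₂])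
  subst hε' hε hγ
  have rγ : FreeGroup.IsReduced γ₁ := red_sub r₁ ⟨α₁ ++ [(true, ε₁')], (true, ε₁) :: β₁, by simp⟩
  have hfin : (FreeGroup.mk β₂)⁻¹ * FreeGroup.mk β₁ ∈ W := by
    rcases split_last γ₁ rγ with ⟨n, δ, rfl⟩ | ⟨ζ, ε'', n, δ, rfl⟩
    · exact hK _ _ hW₁ hW₂ n δ ε₁ ε₁' α₁ β₁ α₂ β₂ hw₁ hw₂
    · refine hK _ _ hW₁ hW₂ n δ ε₁ ε'' (α₁ ++ (true, ε₁') :: ζ) β₁
        (α₂ ++ (true, ε₁') :: ζ) β₂ ?_ ?_
      · rw [hw₁]; simp
      · rw [hw₂]; simp
  have e1 : FreeGroup.mk β₁ * u₁ = FreeGroup.mk β₂ * u₂ := by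
    have := hp₁.symm.trans hp₂
    exact mul_left_cancel this
  have e2 : (FreeGroup.mk β₂)⁻¹ * FreeGroup.mk β₁ = u₂ * u₁⁻¹ := by
    rw [inv_mul_eq_iff_eq_mul, ← mul_assoc, ← e1]; group
  rw [e2] at hfin
  have e3 : x₂ * x₁⁻¹ = (u₂ * x₂⁻¹)⁻¹ * (u₂ * u₁⁻¹) * (u₁ * x₁⁻¹) := by group
  rw [e3]
  exact W.mul_mem (W.mul_mem (W.inv_mem hx₂) hfin) hx₁

end PB.OSep

namespace PB

theorem sep_finite (x y : D) : (Sep x y).Finite := OSep.sep_finite x y

theorem sep_ncard (x y : D) : (Sep x y).ncard = acount (y * x⁻¹) := OSep.sep_ncard x y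

theorem sep_letter (x y : D) (h : IsLetter (y * x⁻¹)) : (Sep x y).Subsingleton :=
  OSep.sep_letter x y h

theorem sep_overlap
    (hK : ∀ (w₁ w₂ : D) (_ : w₁ ∈ W) (_ : w₂ ∈ W) (n : ℕ) (δ ε ε' : Bool)
      (α₁ β₁ α₂ β₂ : List (Bool × Bool))
      (_ : w₁.toWord = α₁ ++ (true, ε') :: (List.replicate n (false, δ) ++ (true, ε) :: β₁))
      (_ : w₂.toWord = α₂ ++ (true, ε') :: (List.replicate n (false, δ) ++ (true, ε) :: β₂)),
      (FreeGroup.mk β₂)⁻¹ * FreeGroup.mk β₁ ∈ W)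
    (x₁ y₁ x₂ y₂ : D) (h₁ : y₁ * x₁⁻¹ ∈ W) (h₂ : y₂ * x₂⁻¹ ∈ W) (h : x₂ * x₁⁻¹ ∉ W) :
    (Sep x₁ y₁ ∩ Sep x₂ y₂).Subsingleton :=
  OSep.sep_overlap hK x₁ y₁ x₂ y₂ h₁ h₂ h

end PB
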