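import Pool.Agent.R309.PB.Defs

/-!
PB-Z1: closing off under solutions.  Objects are groups in `Type` with a slowly oscillating function
and an injection into `Ordinal.{0}`; the injections make the homomorphisms between the objects of a
chain unique, so that a family given by transfinite recursion is automatically a directed system.
-/

namespace PB

namespace Z1

open Set

/-- a group with a slowly oscillating function and an injection into the ordinals -/
structure Obj : Type 1 where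
  G : Type
  grp : Group G
  φ : G → ℝ
  so : SO φ
  h01 : ∀ g, 0 ≤ φ g ∧ φ g ≤ 1
  e : G → Ordinal.{0}
  inj : Function.Injective e

attribute [instance] Obj.grp

/-- extensions -/
structure Hm (S T : Obj) where
  f : S.G →* T.G
  he : ∀ g, T.e (f g) = S.e g
  hφ : ∀ g, T.φ (f g) = S.φ g
  out : ∀ g p, p ∉ range f → T.φ (f g * p) = T.φ p

lemma Hm.injective {S T : Obj} (h : Hm S T) : Function.Injective h.f := by
  intro a b hab
  apply S.inj
  rw [← h.he, ← h.he, hab]

lemma Hm.unique {S T : Obj} (h h' : Hm S T) (g : S.G) : h.f g = h'.f g :=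
  T.inj ((h.he g).trans (h'.he g).symm)

def Hm.refl (S : Obj) : Hm S S where
  f := MonoidHom.id _
  he _ := rfl
  hφ _ := rfl
  out g p hp := absurd ⟨p, rfl⟩ hp

def Hm.trans {S T V : Obj} (h : Hm S T) (h' : Hm T V) : Hm S V where
  f := h'.f.comp h.f
  he g := by rw [MonoidHom.comp_apply, h'.he, h.he]
  hφ g := by rw [MonoidHom.comp_apply, h'.hφ, h.hφ]
  out g p hp := by
    rw [MonoidHom.comp_apply]
    by_cases h1 : p ∈ range h'.f
    · obtain ⟨q, rfl⟩ := h1
      have h2 : q ∉ range h.f := by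
        rintro ⟨a, rfl⟩
        exact hp ⟨a, rfl⟩
      rw [← map_mul, h'.hφ, h'.hφ, h.out g q h2]
    · exact h'.out _ _ h1

/-! ### limits -/

theorem limit {I : Type} [LinearOrder I] [Nonempty I] (F : I → Obj)
    (hF : ∀ i j, i ≤ j → Nonempty (Hm (F i) (F j))) :
    ∃ (V : Obj) (h : ∀ i, Hm (F i) V), ∀ v : V.G, ∃ i g, (h i).f g = v := by
  classical
  let t : ∀ i j, i ≤ j → ((F i).G →* (F j).G) := fun i j h => (Classical.choice (hF i j h)).f
  have te : ∀ i j (h : i ≤ j) g, (F j).e (t i j h g) = (F i).e g :=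
    fun i j h g => (Classical.choice (hF i j h)).he g
  have tφ : ∀ i j (h : i ≤ j) g, (F j).φ (t i j h g) = (F i).φ g :=
    fun i j h g => (Classical.choice (hF i j h)).hφ g
  have tout : ∀ i j (h : i ≤ j) g p, p ∉ range (t i j h) →
      (F j).φ (t i j h g * p) = (F j).φ p :=
    fun i j h g p hp => (Classical.choice (hF i j h)).out g p hp
  haveI ds : DirectedSystem (fun i => (F i).G) (fun i j h => ⇑(t i j h)) :=
    { map_self := fun i x => (F i).inj (te i i le_rfl x)
      map_map := fun {k j i} hij hjk x => (F k).inj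
        ((te j k hjk _).trans ((te i j hij x).trans (te i k (hij.trans hjk) x).symm)) }
  let L : Type := DirectLimit (fun i => (F i).G) t
  let mk : ∀ i, (F i).G → L := fun i g => ⟦⟨i, g⟩⟧
  have mk_t : ∀ i j (h : i ≤ j) g, mk j (t i j h g) = mk i g :=
    fun i j h g => (DirectLimit.eq_of_le (f := t) ⟨i, g⟩ j h).symm
  have mk_mul : ∀ i (a b : (F i).G), mk i (a * b) = mk i a * mk i b :=
    fun i a b => (DirectLimit.mul_def (f := t) i a b).symm
  have mk_one : ∀ i, mk i 1 = 1 := fun i => (DirectLimit.one_def (f := t) i).symm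
  let φL : L → ℝ := DirectLimit.lift t (fun i x => (F i).φ x) (fun i j h x => (tφ i j h x).symm)
  let eL : L → Ordinal.{0} :=
    DirectLimit.lift t (fun i x => (F i).e x) (fun i j h x => (te i j h x).symm)
  have φL_mk : ∀ i g, φL (mk i g) = (F i).φ g := fun i g => rfl
  have eL_mk : ∀ i g, eL (mk i g) = (F i).e g := fun i g => rfl
  have einj : Function.Injective eL :=
    DirectLimit.lift_injective t (fun i x => (F i).e x) _ (fun i => (F i).inj)
  have surj : ∀ v : L, ∃ i g, mk i g = v := fun v => by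
    obtain ⟨i, x, hx⟩ := DirectLimit.exists_eq_mk t v
    exact ⟨i, x, hx.symm⟩
  -- elements outside the image of `F i`
  have out : ∀ i (g : (F i).G) (p : L), p ∉ range (mk i) → φL (mk i g * p) = φL p := by
    intro i g p hp
    obtain ⟨j, q, rfl⟩ := surj p
    have h1 : i ≤ max i j := le_max_left _ _
    have h2 : j ≤ max i j := le_max_right _ _
    rw [← mk_t j _ h2 q, ← mk_t i _ h1 g, ← mk_mul, φL_mk, φL_mk]
    refine tout i _ h1 g _ ?_
    rintro ⟨a, ha⟩
    apply hp
    refine ⟨a, ?_⟩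
    rw [← mk_t i _ h1 a, ha, mk_t j _ h2]
  have hso : SO φL := by
    intro v ε hε
    obtain ⟨i, a, rfl⟩ := surj v
    refine (((F i).so a ε hε).image (mk i)).subset ?_
    intro x hx
    by_cases hxr : x ∈ range (mk i)
    · obtain ⟨y, rfl⟩ := hxr
      refine ⟨y, ?_, rfl⟩
      have hx' : ε ≤ |φL (mk i a * mk i y) - φL (mk i y)| := hx
      rw [← mk_mul, φL_mk, φL_mk] at hx'
      exact hx'
    · exfalso
      have hx' : ε ≤ |φL (mk i a * x) - φL x| := hx
      rw [out i a x hxr, sub_self, abs_zero] at hx'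
      linarith
  have h01 : ∀ v : L, 0 ≤ φL v ∧ φL v ≤ 1 := by
    intro v
    obtain ⟨i, a, rfl⟩ := surj v
    rw [φL_mk]
    exact (F i).h01 a
  refine ⟨⟨L, inferInstance, φL, hso, h01, eL, einj⟩, fun i => ⟨⟨⟨mk i, mk_one i⟩, mk_mul i⟩,
    fun g => rfl, fun g => rfl, fun g p hp => out i g p hp⟩, fun v => surj v⟩

/-! ### one step -/

/-- every sequence of `S` has a solution in `T` -/
def Good {S T : Obj} (h : Hm S T) : Prop :=
  ∀ x : ℕ → S.G, ∃ s : Fin 4 → T.G, Sol (fun i => h.f (x i)) s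

lemma Good.pre {S T V : Obj} (h : Hm S T) (h' : Hm T V) (hg : Good h') : Good (h.trans h') :=
  fun x => hg fun i => h.f (x i)

lemma Sol_map {S T : Obj} (h : Hm S T) (x : ℕ → S.G) (s : Fin 4 → S.G) (hs : Sol x s) :
    Sol (fun i => h.f (x i)) (fun k => h.f (s k)) := by
  have key : ∀ i a b, h.f (Uw i a b) = Uw i (h.f a) (h.f b) := by
    intro i a b
    unfold Uw
    rw [map_list_prod, List.map_map]
    congr 1
    apply List.map_congr_left
    intro j _
    simp
  intro i
  have := congrArg h.f (hs i)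
  rw [map_mul, key, key] at this
  exact this

theorem step
    (hstep : ∀ (G : Type) [Group G] (φ : G → ℝ), SO φ → (∀ g, 0 ≤ φ g ∧ φ g ≤ 1) →
      ∃ (E : Type) (_ : Group E) (ι : G →* E) (φ' : E → ℝ), SO φ' ∧ (∀ g, 0 ≤ φ' g ∧ φ' g ≤ 1) ∧
        Function.Injective ι ∧ (∀ g, φ' (ι g) = φ g) ∧
        (∀ g p, p ∉ Set.range ι → φ' (ι g * p) = φ' p) ∧
        ∀ x : ℕ → G, ∃ s : Fin 4 → E, Sol (fun i => ι (x i)) s)
    (V : Obj) : ∃ (E : Obj) (h : Hm V E), Good h := by
  classical
  obtain ⟨E, gE, ι, φ', h1, h2, h3, h4, h5, h6⟩ := hstep V.G V.φ V.so V.h01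
  obtain ⟨b, hb⟩ := Ordinal.bddAbove_range.{0, 0} V.e
  let w : E → Ordinal.{0} := fun x => b + 1 + Ordinal.typein (WellOrderingRel : E → E → Prop) x
  have hw : Function.Injective w := by
    intro x y hxy
    have := (add_right_inj (b + 1)).1 hxy
    exact Ordinal.typein_injective _ this
  let eE : E → Ordinal.{0} := Function.extend ι V.e w
  have e1 : ∀ g, eE (ι g) = V.e g := fun g => h3.extend_apply _ _ g
  have e2 : ∀ x, x ∉ range ι → eE x = w x := fun x hx => Function.extend_apply' _ _ _ hx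
  have hlt : ∀ g x, V.e g < w x := by
    intro g x
    have h7 : V.e g ≤ b := hb ⟨g, rfl⟩
    calc V.e g ≤ b := h7
      _ < b + 1 := by simp
      _ ≤ w x := le_add_of_nonneg_right bot_le
  have hinj : Function.Injective eE := by
    intro x y hxy
    by_cases hx : x ∈ range ι
    · obtain ⟨a, rfl⟩ := hx
      by_cases hy : y ∈ range ι
      · obtain ⟨c, rfl⟩ := hy
        rw [e1, e1] at hxy
        rw [V.inj hxy]
      · rw [e1, e2 y hy] at hxy
        exact absurd hxy (hlt a y).ne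
    · by_cases hy : y ∈ range ι
      · obtain ⟨c, rfl⟩ := hy
        rw [e1, e2 x hx] at hxy
        exact absurd hxy.symm (hlt c x).ne
      · rw [e2 x hx, e2 y hy] at hxy
        exact hw hxy
  exact ⟨⟨E, gE, φ', h1, h2, eE, hinj⟩, ⟨ι, e1, h4, h5⟩, h6⟩

/-! ### transfinite recursion -/

/-- the successor relation -/
def R (S T : Obj) : Prop := ∃ h : Hm S T, Good h

open Classical in
noncomputable def build {J : Type} [LinearOrder J] [WellFoundedLT J] (S0 : Obj) : J → Obj :=
  WellFounded.fix (wellFounded_lt : WellFounded ((· < ·) : J → J → Prop)) fun α ih =>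
    if h : ∃ T : Obj, Nonempty (Hm S0 T) ∧ ∀ β (hβ : β < α), R (ih β hβ) T then
      Classical.choose h else S0

theorem build_spec
    (hstep : ∀ V : Obj, ∃ (E : Obj) (h : Hm V E), Good h)
    {J : Type} [LinearOrder J] [WellFoundedLT J] (S0 : Obj) (α : J) :
    Nonempty (Hm S0 (build S0 α)) ∧ ∀ β < α, R (build S0 β) (build S0 α) := by
  classical
  have heq : ∀ α : J, build S0 α = if h : ∃ T : Obj, Nonempty (Hm S0 T) ∧
      ∀ β (_ : β < α), R (build S0 β) T then Classical.choose h else S0 := by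
    intro α
    unfold build
    rw [WellFounded.fix_eq]
  induction α using WellFoundedLT.induction with
  | ind α ih =>
    have hex : ∃ T : Obj, Nonempty (Hm S0 T) ∧ ∀ β (_ : β < α), R (build S0 β) T := by
      by_cases hne : Nonempty {β : J // β < α}
      · obtain ⟨V, hV, -⟩ := limit (I := {β : J // β < α}) (fun β => build S0 β.1) (by
          rintro ⟨i, hi⟩ ⟨j, hj⟩ hij
          rcases (show i ≤ j from hij).lt_or_eq with h | h
          · obtain ⟨h1, -⟩ := (ih j hj).2 i h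
            exact ⟨h1⟩
          · subst h
            exact ⟨Hm.refl _⟩)
        obtain ⟨E, hE, hg⟩ := hstep V
        obtain ⟨⟨β, hβ⟩⟩ := hne
        obtain ⟨h0⟩ := (ih β hβ).1
        exact ⟨E, ⟨(h0.trans (hV ⟨β, hβ⟩)).trans hE⟩,
          fun γ hγ => ⟨(hV ⟨γ, hγ⟩).trans hE, hg.pre _ _⟩⟩
      · exact ⟨S0, ⟨Hm.refl _⟩, fun β hβ => absurd ⟨⟨β, hβ⟩⟩ hne⟩
    rw [heq α, dif_pos hex]
    have := Classical.choose_spec hex
    exact ⟨this.1, fun β hβ => this.2 β hβ⟩

/-- in a well order of type `ω₁` every sequence is bounded -/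
theorem exists_omega1 : ∃ (J : Type) (_ : LinearOrder J) (_ : WellFoundedLT J) (_ : Nonempty J),
    ∀ f : ℕ → J, ∃ b, ∀ i, f i < b := by
  refine ⟨(Cardinal.aleph 1).ord.ToType, inferInstance, inferInstance, ?_, ?_⟩
  · rw [← Cardinal.mk_ne_zero_iff, Cardinal.mk_ord_toType]
    exact (Cardinal.aleph_pos 1).ne'
  · intro f
    by_contra hcon
    push Not at hcon
    have h1 : (univ : Set (Cardinal.aleph 1).ord.ToType) ⊆ ⋃ i, insert (f i) (Iio (f i)) := by
      intro b _
      obtain ⟨i, hi⟩ := hcon b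
      rw [mem_iUnion]
      refine ⟨i, ?_⟩
      rcases hi.lt_or_eq with h | h
      · exact Or.inr h
      · exact Or.inl h
    have h2 : (univ : Set (Cardinal.aleph 1).ord.ToType).Countable := by
      refine Countable.mono h1 (countable_iUnion fun i => Countable.insert _ ?_)
      rw [← Cardinal.le_aleph0_iff_set_countable]
      have h3 := Cardinal.mk_Iio_toType_ord_lt (f i)
      exact Order.lt_succ_iff.1 (h3.trans_eq Cardinal.succ_aleph0.symm)
    rw [countable_univ_iff, ← Cardinal.mk_le_aleph0_iff, Cardinal.mk_ord_toType] at h2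
    exact absurd h2 (not_le.2 Cardinal.aleph0_lt_aleph_one)

end Z1

open Z1 in
/-- closing off under solutions, inside `Type` (makes PB-Z2 unnecessary) -/
theorem exists_closed_type
    (hstep : ∀ (G : Type) [Group G] (φ : G → ℝ), SO φ → (∀ g, 0 ≤ φ g ∧ φ g ≤ 1) →
      ∃ (E : Type) (_ : Group E) (ι : G →* E) (φ' : E → ℝ), SO φ' ∧ (∀ g, 0 ≤ φ' g ∧ φ' g ≤ 1) ∧
        Function.Injective ι ∧ (∀ g, φ' (ι g) = φ g) ∧
        (∀ g p, p ∉ Set.range ι → φ' (ι g * p) = φ' p) ∧
        ∀ x : ℕ → G, ∃ s : Fin 4 → E, Sol (fun i => ι (x i)) s)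
    (G₀ : Type) [Group G₀] (φ₀ : G₀ → ℝ) (h₀ : SO φ₀) (h₀' : ∀ g, 0 ≤ φ₀ g ∧ φ₀ g ≤ 1) :
    ∃ (M : Type) (_ : Group M) (ι : G₀ →* M) (φ : M → ℝ), SO φ ∧ (∀ g, 0 ≤ φ g ∧ φ g ≤ 1) ∧
      Function.Injective ι ∧ (∀ g, φ (ι g) = φ₀ g) ∧
      ∀ x : ℕ → M, ∃ s : Fin 4 → M, Sol x s := by
  classical
  obtain ⟨J, _, _, _, hJ⟩ := exists_omega1
  let S0 : Obj := ⟨G₀, inferInstance, φ₀, h₀, h₀',
    Ordinal.typein (WellOrderingRel : G₀ → G₀ → Prop), Ordinal.typein_injective _⟩
  have hb := build_spec (step hstep) (J := J) S0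
  have hle : ∀ i j : J, i ≤ j → Nonempty (Hm (build S0 i) (build S0 j)) := by
    intro i j hij
    rcases hij.lt_or_eq with h | h
    · obtain ⟨h1, -⟩ := (hb j).2 i h
      exact ⟨h1⟩
    · subst h
      exact ⟨Hm.refl _⟩
  obtain ⟨V, hV, hsurj⟩ := limit (I := J) (fun j => build S0 j) hle
  -- solutions in `V`
  have hsol : ∀ x : ℕ → V.G, ∃ s : Fin 4 → V.G, Sol x s := by
    intro x
    choose a g hg using fun i => hsurj (x i)
    obtain ⟨b, hb1⟩ := hJ a
    obtain ⟨c, hc⟩ := hJ fun _ => b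
    have hbc := hc 0
    obtain ⟨hbcm, hgood⟩ := (hb c).2 b hbc
    let y : ℕ → (build S0 b).G := fun i => (Classical.choice (hle (a i) b (hb1 i).le)).f (g i)
    have hy : ∀ i, (hV b).f (y i) = x i := by
      intro i
      rw [← hg i]
      exact Hm.unique ((Classical.choice (hle (a i) b (hb1 i).le)).trans (hV b)) (hV (a i)) (g i)
    obtain ⟨s, hs⟩ := hgood y
    refine ⟨fun k => (hV c).f (s k), ?_⟩
    have h1 := Sol_map (hV c) _ s hs
    have h2 : (fun i => (hV c).f (hbcm.f (y i))) = x := by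
      funext i
      rw [← hy i]
      exact Hm.unique (hbcm.trans (hV c)) (hV b) (y i)
    rw [h2] at h1
    exact h1
  obtain ⟨j0⟩ := ‹Nonempty J›
  obtain ⟨h0⟩ := (hb j0).1
  let h0V : Hm S0 V := h0.trans (hV j0)
  exact ⟨V.G, inferInstance, h0V.f, V.φ, V.so, V.h01, h0V.injective, fun g => h0V.hφ g, hsol⟩

/-- PB-Z1: closing off under solutions, in a large universe -/
theorem exists_closed_large
    (hstep : ∀ (G : Type) [Group G] (φ : G → ℝ), SO φ → (∀ g, 0 ≤ φ g ∧ φ g ≤ 1) →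
      ∃ (E : Type) (_ : Group E) (ι : G →* E) (φ' : E → ℝ), SO φ' ∧ (∀ g, 0 ≤ φ' g ∧ φ' g ≤ 1) ∧
        Function.Injective ι ∧ (∀ g, φ' (ι g) = φ g) ∧
        (∀ g p, p ∉ Set.range ι → φ' (ι g * p) = φ' p) ∧
        ∀ x : ℕ → G, ∃ s : Fin 4 → E, Sol (fun i => ι (x i)) s)
    (G₀ : Type) [Group G₀] (φ₀ : G₀ → ℝ) (h₀ : SO φ₀) (h₀' : ∀ g, 0 ≤ φ₀ g ∧ φ₀ g ≤ 1) :
    ∃ (M : Type 1) (_ : Group M) (ι : G₀ →* M) (φ : M → ℝ), SO φ ∧ Function.Injective ι ∧
      (∀ g, φ (ι g) = φ₀ g) ∧ ∀ x : ℕ → M, ∃ s : Fin 4 → M, Sol x s := by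
  obtain ⟨V, _, ι, φ, hso, -, hinj, hφ, hsol⟩ := exists_closed_type hstep G₀ φ₀ h₀ h₀'
  let up : V ≃* ULift.{1} V := MulEquiv.ulift.symm
  refine ⟨ULift.{1} V, inferInstance, up.toMonoidHom.comp ι, fun v => φ v.down, ?_, ?_,
    fun g => hφ g, ?_⟩
  · intro f ε hε
    refine ((hso f.down ε hε).image up).subset ?_
    intro v hv
    exact ⟨v.down, hv, rfl⟩
  · exact up.injective.comp hinj
  · intro x
    obtain ⟨s, hs⟩ := hsol fun i => (x i).down
    refine ⟨fun k => up (s k), fun i => ?_⟩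
    have key : ∀ i a b, up (Uw i a b) = Uw i (up a) (up b) := by
      intro i a b
      unfold Uw
      rw [map_list_prod, List.map_map]
      congr 1
    have h2 := congrArg up (hs i)
    rw [map_mul, key, key] at h2
    exact h2

end PB
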