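import Pool.Agent.R309.PB.Defs

/-!
# MP_b2dc7d_gt, piece PB-Z2
-/

set_option autoImplicit false

namespace PB

namespace PZ2

/-- codes for the elements of the closure -/
inductive Code (G₀ : Type) : Type
  | base (g : G₀) : Code G₀
  | one : Code G₀
  | mul : Code G₀ → Code G₀ → Code G₀
  | inv : Code G₀ → Code G₀
  | sol : (ℕ → Code G₀) → Fin 4 → Code G₀

/-- evaluation of codes -/
def ev {G₀ : Type} {M : Type 1} [Group M] (ι : G₀ → M) (sol : (ℕ → M) → Fin 4 → M) :
    Code G₀ → M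
  | .base g => ι g
  | .one => 1
  | .mul a b => ev ι sol a * ev ι sol b
  | .inv a => (ev ι sol a)⁻¹
  | .sol c k => sol (fun i => ev ι sol (c i)) k

/-- the subgroup of evaluations -/
def N {G₀ : Type} {M : Type 1} [Group M] (ι : G₀ → M) (sol : (ℕ → M) → Fin 4 → M) :
    Subgroup M where
  carrier := Set.range (ev ι sol)
  mul_mem' := by
    rintro _ _ ⟨a, rfl⟩ ⟨b, rfl⟩
    exact ⟨.mul a b, rfl⟩
  one_mem' := ⟨.one, rfl⟩
  inv_mem' := by
    rintro _ ⟨a, rfl⟩
    exact ⟨.inv a, rfl⟩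

theorem map_Uw {E E' : Type*} [Group E] [Group E'] (f : E →* E') (i : ℕ) (a b : E) :
    f (Uw i a b) = Uw i (f a) (f b) := by
  unfold Uw
  rw [map_list_prod, List.map_map]
  congr 1
  apply List.map_congr_left
  intro j _
  simp

end PZ2

open PZ2

/-- PB-Z2: cutting down to `Type` -/
theorem exists_closed_small (G₀ : Type) [Group G₀] (φ₀ : G₀ → ℝ)
    (M : Type 1) [Group M] (ι : G₀ →* M) (φ : M → ℝ) (h : SO φ) (hι : Function.Injective ι)
    (hφ : ∀ g, φ (ι g) = φ₀ g) (hs : ∀ x : ℕ → M, ∃ s : Fin 4 → M, Sol x s) :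
    ∃ (M' : Type) (_ : Group M') (ι' : G₀ →* M') (φ' : M' → ℝ), SO φ' ∧ Function.Injective ι' ∧
      (∀ g, φ' (ι' g) = φ₀ g) ∧ ∀ x : ℕ → M', ∃ s : Fin 4 → M', Sol x s := by
  choose sol hsol using hs
  have hsmall : Small.{0} (N ι sol) :=
    small_of_surjective (f := fun c : Code G₀ => (⟨ev ι sol c, c, rfl⟩ : N ι sol)) (by
      rintro ⟨_, c, rfl⟩
      exact ⟨c, rfl⟩)
  set me : Shrink.{0} (N ι sol) ≃* N ι sol := Shrink.mulEquiv with hme
  set Ψ : Shrink.{0} (N ι sol) →* M := (N ι sol).subtype.comp me.toMonoidHom with hΨ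
  have hΨi : Function.Injective Ψ := Subtype.val_injective.comp me.injective
  have hbase : ∀ g, ι g ∈ N ι sol := fun g => ⟨.base g, rfl⟩
  refine ⟨Shrink.{0} (N ι sol), inferInstance,
    me.symm.toMonoidHom.comp (ι.codRestrict (N ι sol) hbase), fun m => φ (Ψ m), ?_, ?_, ?_, ?_⟩
  · intro f ε hε
    have h1 := (h (Ψ f) ε hε).preimage (f := Ψ) hΨi.injOn
    apply h1.subset
    intro x hx
    show ε ≤ |φ (Ψ f * Ψ x) - φ (Ψ x)|
    rw [← map_mul]
    exact hx
  · intro a b hab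
    apply hι
    have h1 : ι.codRestrict (N ι sol) hbase a = ι.codRestrict (N ι sol) hbase b :=
      me.symm.injective hab
    exact congrArg Subtype.val h1
  · intro g
    have : Ψ (me.symm (ι.codRestrict (N ι sol) hbase g)) = ι g := by
      show ((me (me.symm (ι.codRestrict (N ι sol) hbase g)) : N ι sol) : M) = ι g
      rw [MulEquiv.apply_symm_apply]
      rfl
    show φ (Ψ (me.symm (ι.codRestrict (N ι sol) hbase g))) = φ₀ g
    rw [this, hφ]
  · intro x
    have hx : ∀ i, ∃ c : Code G₀, ev ι sol c = Ψ (x i) := fun i => (me (x i)).2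
    choose c hc using hx
    have hmem : ∀ k, sol (fun i => Ψ (x i)) k ∈ N ι sol := fun k => ⟨.sol c k, by
      show sol (fun i => ev ι sol (c i)) k = _
      simp only [hc]⟩
    refine ⟨fun k => me.symm ⟨sol (fun i => Ψ (x i)) k, hmem k⟩, fun i => ?_⟩
    have hk : ∀ k, Ψ (me.symm ⟨sol (fun i => Ψ (x i)) k, hmem k⟩) = sol (fun i => Ψ (x i)) k := by
      intro k
      show ((me (me.symm _) : N ι sol) : M) = _
      rw [MulEquiv.apply_symm_apply]
    apply hΨi
    rw [map_mul, map_Uw, map_Uw, hk, hk, hk, hk]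
    exact hsol (fun i => Ψ (x i)) i

end PB
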