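import Pool.Agent.R309.PB.Step
import Pool.Agent.R309.PB.Berg
import Pool.Agent.R309.PB.O
import Pool.Agent.R309.PB.K
import Pool.Agent.R309.PB.L
import Pool.Agent.R309.PB.F
import Pool.Agent.R309.PB.ETA
import Pool.Agent.R309.PB.Z1
import Pool.Agent.R309.PB.Z2
import Pool.Agent.R309.PB.FIN

namespace PB

/-- the starting function on `ℤ` -/
noncomputable def phi0 (n : Multiplicative ℤ) : ℝ := if 0 ≤ Multiplicative.toAdd n then 1 else 0

theorem phi0_SO : SO phi0 := by
  intro f ε hε
  have hfin : (Set.Icc (-|Multiplicative.toAdd f|) |Multiplicative.toAdd f|).Finite :=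
    Set.finite_Icc _ _
  refine (hfin.image (Multiplicative.ofAdd)).subset ?_
  intro x hx
  have hx' : ε ≤ |phi0 (f * x) - phi0 x| := hx
  refine ⟨Multiplicative.toAdd x, ?_, rfl⟩
  by_contra hcon
  rw [Set.mem_Icc] at hcon
  have hfx : Multiplicative.toAdd (f * x) = Multiplicative.toAdd f + Multiplicative.toAdd x := rfl
  have key : (0 ≤ Multiplicative.toAdd (f * x)) ↔ 0 ≤ Multiplicative.toAdd x := by
    rw [hfx]
    have h1 := le_abs_self (Multiplicative.toAdd f)
    have h2 := neg_abs_le (Multiplicative.toAdd f)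
    constructor
    · intro h; by_contra hc; apply hcon; constructor <;> linarith
    · intro h; by_contra hc; apply hcon; constructor <;> linarith
  have : phi0 (f * x) = phi0 x := by
    unfold phi0
    simp only [key]
  rw [this, sub_self, abs_zero] at hx'
  linarith

theorem phi0_bd (g) : 0 ≤ phi0 g ∧ phi0 g ≤ 1 := by
  unfold phi0
  split_ifs <;> norm_num

theorem core : ∃ (G : Type) (_ : Group G), Bergman G ∧
    (∀ ψ : G → ℝ, SO ψ → ∃ C : ℝ, ∀ x, |ψ x| ≤ C) ∧
    ∃ φ : G → ℝ, SO φ ∧ {x | φ x = 0}.Infinite ∧ {x | φ x = 1}.Infinite := by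
  obtain ⟨η, hη⟩ := exists_eta hU_injective (fun n => vis_finite hU_injective finite_acount
    tau_finite (loop sep_finite sep_ncard sep_letter (sep_overlap key)) n)
  obtain ⟨M, hM, ι, φ, h1, h2, h3, h4⟩ := exists_closed_large (one_step η hη)
    (Multiplicative ℤ) phi0 phi0_SO phi0_bd
  obtain ⟨G, hG, ι', φ', h1', h2', h3', h4'⟩ := exists_closed_small (Multiplicative ℤ) phi0 M ι φ
    h1 h2 h3 h4
  refine ⟨G, hG, bergman_of_sol h4', fun ψ hψ => bounded_of_sol h4' ψ hψ, φ', h1', ?_, ?_⟩
  · have hinf0 : (ι' '' {n : Multiplicative ℤ | Multiplicative.toAdd n < 0}).Infinite := by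
      apply Set.Infinite.image h2'.injOn
      exact Set.Iio_infinite (0 : ℤ)
    refine hinf0.mono ?_
    rintro _ ⟨n, hn, rfl⟩
    change φ' (ι' n) = 0
    rw [h3']
    unfold phi0
    exact if_neg (not_le.mpr hn)
  · have hinf1 : (ι' '' {n : Multiplicative ℤ | 0 ≤ Multiplicative.toAdd n}).Infinite := by
      apply Set.Infinite.image h2'.injOn
      exact Set.Ici_infinite (0 : ℤ)
    refine hinf1.mono ?_
    rintro _ ⟨n, hn, rfl⟩
    change φ' (ι' n) = 1
    rw [h3']
    unfold phi0
    exact if_pos hn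

end PB
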