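import Mathlib

/-!
Definitions for the counterexample to MP_b2dc7d (pseudobounded finitary balleans of groups).
-/

namespace PB

/-- `φ` is slowly oscillating: for every `f` and `ε > 0` only finitely many `x` have
`|φ (f x) - φ x| ≥ ε`. -/
def SO {G : Type*} [Group G] (φ : G → ℝ) : Prop :=
  ∀ f : G, ∀ ε : ℝ, 0 < ε → {x : G | ε ≤ |φ (f * x) - φ x|}.Finite

/-- the exponents (pairwise distinct powers of two) -/
def e (i j : ℕ) : ℕ := 2 ^ (Nat.pair i j)

/-- the words `U_i(a,b) = a b^{e(i,0)} a b^{e(i,1)} ⋯ a b^{e(i,i+2)}` in any group -/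
def Uw {E : Type*} [Group E] (i : ℕ) (a b : E) : E :=
  ((List.range (i + 3)).map (fun j => a * b ^ (e i j))).prod

/-- `D` is the free group on two letters `a = of true`, `b = of false`. -/
abbrev D : Type := FreeGroup Bool

def U (i : ℕ) : D := Uw i (FreeGroup.of true) (FreeGroup.of false)

/-- `u_i ↦ U_i` -/
noncomputable def hU : FreeGroup ℕ →* D := FreeGroup.lift U

/-- the subgroup generated by the `U_i` -/
noncomputable def W : Subgroup D := hU.range

/-- number of letters `a^{±1}` in the reduced word -/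
def acount (d : D) : ℕ := (d.toWord.filter (fun l => l.1)).length

/-- the type of an element of the free group on `ℕ`: `some i` if the last (rightmost) letter of
the reduced word is `u_i^{+1}`, `none` otherwise -/
def tau (f : FreeGroup ℕ) : Option ℕ :=
  match f.toWord.getLast? with
  | some (i, true) => some i
  | _ => none

/-- `c` is one of the four letters -/
def IsLetter (c : D) : Prop :=
  c = FreeGroup.of true ∨ c = (FreeGroup.of true)⁻¹ ∨
  c = FreeGroup.of false ∨ c = (FreeGroup.of false)⁻¹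

/-- the half space beyond the `a`-edge from `q` to `a q` in the (left multiplication) Cayley tree:
the reduced word of `y q⁻¹` ends (on the right) with the letter `a`. -/
def HS (q y : D) : Prop := (y * q⁻¹).toWord.getLast? = some (true, true)

/-- the `a`-edges separating `x` and `y` -/
def Sep (x y : D) : Set D := {q | ¬ (HS q x ↔ HS q y)}

/-- A tail function: `φ` on the free product `G * K` only depends on the last `K`-syllable and
the last `G`-syllable. -/
structure TailFn {G K : Type} [Group G] [Group K] (Θ : K → G → ℝ)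
    (φ : Monoid.Coprod G K → ℝ) : Prop where
  val : ∀ (d : K) (g : G), φ (Monoid.Coprod.inr d * Monoid.Coprod.inl g) = Θ d g
  invG : ∀ (g : G) (q : Monoid.Coprod G K),
    q ∉ Set.range (Monoid.Coprod.inl : G →* Monoid.Coprod G K) →
      φ (Monoid.Coprod.inl g * q) = φ q
  invK : ∀ (d : K) (q : Monoid.Coprod G K),
    (∀ (d' : K) (g : G), q ≠ Monoid.Coprod.inr d' * Monoid.Coprod.inl g) →
      φ (Monoid.Coprod.inr d * q) = φ q
  mem : ∀ q, ∃ d g, φ q = Θ d g

/-- the system of equations `U_i(s 2, s 3) = U_i(s 0, s 1) * x_i`, `i ∈ ℕ` -/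
def Sol {E : Type*} [Group E] (x : ℕ → E) (s : Fin 4 → E) : Prop :=
  ∀ i, Uw i (s 2) (s 3) = Uw i (s 0) (s 1) * x i

/-- A simple excursion of `n` letters from `hU f` to `hU g`: `s k → t k` is a letter move,
`t k → s (k+1)` a jump inside a coset `W t_k`; the cosets `W t_k` (`k + 1 < n`) are pairwise distinct
and different from `W`. -/
structure Exc (n : ℕ) (f g : FreeGroup ℕ) (s t : ℕ → D) : Prop where
  pos : 1 ≤ n
  start : s 0 = hU f
  fin : t (n - 1) = hU g
  letter : ∀ k < n, IsLetter (t k * (s k)⁻¹)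
  jump : ∀ k, k + 1 < n → s (k + 1) * (t k)⁻¹ ∈ W
  notW : ∀ k, k + 1 < n → t k ∉ W
  dist : ∀ k l, k + 1 < n → l + 1 < n → k ≠ l → t k * (t l)⁻¹ ∉ W

/-- the points visited by type changing simple excursions of `n` letters -/
def Vis (n : ℕ) : Set D :=
  {d | ∃ f g s t, Exc n f g s t ∧ tau f ≠ tau g ∧ ∃ k < n, d = s k ∨ d = t k}

/-- the conclusion of the combinatorial part: a partition of unity on `D` -/
structure Eta (η : D → ℕ → ℝ) : Prop where
  nonneg : ∀ d i, 0 ≤ η d i
  le_one : ∀ d i, η d i ≤ 1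
  one : ∀ d i j, i ≠ j → η d i = 0 ∨ η d j = 0
  onW : ∀ f : FreeGroup ℕ, ∀ i, η (hU f) i = if tau f = some i then 1 else 0
  inv : ∀ f : FreeGroup ℕ, ∀ d : D, d ∉ W → η (hU f * d) = η d
  slow : ∀ c : D, IsLetter c → ∀ ε : ℝ, 0 < ε → {d : D | ∃ i, ε ≤ |η (c * d) i - η d i|}.Finite

end PB
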