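import Pool.Agent.R309.PB.Defs

namespace PB

theorem SO_of_closure {G : Type*} [Group G] (φ : G → ℝ) (S : Set G)
    (hS : Subgroup.closure S = ⊤)
    (h : ∀ f ∈ S, ∀ ε : ℝ, 0 < ε → {x : G | ε ≤ |φ (f * x) - φ x|}.Finite) : SO φ := by
  intro f
  have hf : f ∈ Subgroup.closure S := by rw [hS]; trivial
  induction hf using Subgroup.closure_induction with
  | mem f hf => exact h f hf
  | one => intro ε hε; convert Set.finite_empty; ext x; simp; exact hε
  | mul f g _ _ ihf ihg =>
    intro ε hε
    have h1 := ihg (ε / 2) (by linarith)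
    have h2 := (ihf (ε / 2) (by linarith)).image (fun y => g⁻¹ * y)
    refine (h1.union h2).subset ?_
    intro x hx
    simp only [Set.mem_setOf_eq] at hx
    by_contra hcon
    simp only [Set.mem_union, Set.mem_setOf_eq, Set.mem_image, not_or, not_le] at hcon
    obtain ⟨hc1, hc2⟩ := hcon
    have hc3 : |φ (f * (g * x)) - φ (g * x)| < ε / 2 := by
      by_contra hh
      exact hc2 ⟨g * x, not_lt.mp hh, by group⟩
    have : |φ (f * g * x) - φ x| ≤ |φ (f * (g * x)) - φ (g * x)| + |φ (g * x) - φ x| := by
      rw [mul_assoc]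
      exact abs_sub_le _ _ _
    linarith
  | inv f _ ih =>
    intro ε hε
    refine ((ih ε hε).image (fun y => f * y)).subset ?_
    intro x hx
    simp only [Set.mem_setOf_eq] at hx
    refine ⟨f⁻¹ * x, ?_, by simp⟩
    simp only [Set.mem_setOf_eq, mul_inv_cancel_left]
    rw [abs_sub_comm]
    exact hx

end PB
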