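import Pool.Agent.R309.PB.Defs

/-!
# MP_b2dc7d_gt, piece PB-J
-/

set_option autoImplicit false

namespace PB

open Monoid

namespace PJ

section general

variable {ι : Type} {M N : ι → Type} [∀ i, Group (M i)] [∀ i, Group (N i)]

/-- letterwise image of a reduced word -/
def mapW (f : ∀ i, M i →* N i) (hf : ∀ i, Function.Injective (f i)) (w : CoprodI.Word M) :
    CoprodI.Word N where
  toList := w.toList.map (fun l => ⟨l.1, f l.1 l.2⟩)
  ne_one := by
    intro l hl
    rw [List.mem_map] at hl
    obtain ⟨l', hl', rfl⟩ := hl
    intro h
    apply w.ne_one l' hl'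
    apply hf l'.1
    rw [map_one]
    exact h
  chain_ne := by
    rw [List.isChain_map]
    exact w.chain_ne

/-- the homomorphism of free products -/
def mapI (f : ∀ i, M i →* N i) : CoprodI M →* CoprodI N :=
  CoprodI.lift (fun i => (CoprodI.of (M := N) (i := i)).comp (f i))

theorem mapI_prod (f : ∀ i, M i →* N i) (hf : ∀ i, Function.Injective (f i))
    (w : CoprodI.Word M) : mapI f w.prod = (mapW f hf w).prod := by
  unfold CoprodI.Word.prod mapW mapI
  rw [map_list_prod, List.map_map, List.map_map]
  congr 1

theorem mapI_injective (f : ∀ i, M i →* N i) (hf : ∀ i, Function.Injective (f i)) :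
    Function.Injective (mapI f) := by
  classical
  rw [injective_iff_map_eq_one]
  intro x hx
  obtain ⟨w, rfl⟩ : ∃ w : CoprodI.Word M, w.prod = x :=
    ⟨CoprodI.Word.equiv x, CoprodI.Word.equiv.symm_apply_apply x⟩
  rw [mapI_prod f hf] at hx
  have h1 : (mapW f hf w).prod = (CoprodI.Word.empty : CoprodI.Word N).prod := by
    rw [hx, CoprodI.Word.prod_empty]
  have h2 : mapW f hf w = CoprodI.Word.empty := CoprodI.Word.equiv.symm.injective h1
  have h3 : w.toList.map (fun l => (⟨l.1, f l.1 l.2⟩ : Σ i, N i)) = [] :=
    congrArg CoprodI.Word.toList h2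
  have h4 : w.toList = [] := List.map_eq_nil_iff.1 h3
  unfold CoprodI.Word.prod
  rw [h4]
  rfl

end general

/-- the two factors as a family -/
def Fam (G K : Type) : Bool → Type
  | true => G
  | false => K

instance (G K : Type) [Group G] [Group K] (b : Bool) : Group (Fam G K b) := by
  cases b
  · exact (inferInstance : Group K)
  · exact (inferInstance : Group G)

/-- to the indexed free product -/
def toI (G K : Type) [Group G] [Group K] : Coprod G K →* CoprodI (Fam G K) :=
  Coprod.lift (CoprodI.of (M := Fam G K) (i := true)) (CoprodI.of (M := Fam G K) (i := false))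

/-- back -/
def fromI (G K : Type) [Group G] [Group K] : CoprodI (Fam G K) →* Coprod G K :=
  CoprodI.lift (fun b => match b with
    | true => (Coprod.inl : G →* Coprod G K)
    | false => (Coprod.inr : K →* Coprod G K))

theorem from_to (G K : Type) [Group G] [Group K] (x : Coprod G K) : fromI G K (toI G K x) = x := by
  have h : (fromI G K).comp (toI G K) = MonoidHom.id _ := by
    apply Coprod.hom_ext
    · ext g
      simp only [MonoidHom.comp_apply, toI, Coprod.lift_apply_inl, fromI, MonoidHom.id_apply]
      exact CoprodI.lift_of _ _
    · ext g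
      simp only [MonoidHom.comp_apply, toI, Coprod.lift_apply_inr, fromI, MonoidHom.id_apply]
      exact CoprodI.lift_of _ _
  exact DFunLike.congr_fun h x

end PJ

open PJ

/-- PB-J -/
theorem coprod_map_injective {G F K : Type} [Group G] [Group F] [Group K] (h : F →* K)
    (hh : Function.Injective h) :
    Function.Injective (Monoid.Coprod.map (MonoidHom.id G) h) := by
  set f : ∀ b : Bool, Fam G F b →* Fam G K b := fun b => match b with
    | true => (MonoidHom.id G)
    | false => h with hf
  have hfi : ∀ b, Function.Injective (f b) := by
    intro b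
    cases b
    · exact hh
    · exact Function.injective_id
  have hcomm : (toI G K).comp (Coprod.map (MonoidHom.id G) h) = (mapI f).comp (toI G F) := by
    apply Coprod.hom_ext
    · ext g
      simp only [MonoidHom.comp_apply, toI, Coprod.lift_apply_inl, Coprod.map_apply_inl,
        MonoidHom.id_apply, mapI]
      exact (CoprodI.lift_of _ _).symm
    · ext g
      simp only [MonoidHom.comp_apply, toI, Coprod.lift_apply_inr, Coprod.map_apply_inr, mapI]
      exact (CoprodI.lift_of _ _).symm
  have hinj : Function.Injective ((toI G K).comp (Coprod.map (MonoidHom.id G) h)) := by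
    rw [hcomm]
    exact (mapI_injective f hfi).comp (Function.LeftInverse.injective (from_to G F))
  exact Function.Injective.of_comp hinj

end PB
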