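import Pool.Agent.R309.PB.Tail

namespace PB

open Monoid.Coprod

theorem map_Uw {E F : Type*} [Group E] [Group F] (f : E →* F) (i : ℕ) (a b : E) :
    f (Uw i a b) = Uw i (f a) (f b) := by
  unfold Uw
  rw [map_list_prod, List.map_map]
  congr 1
  apply List.map_congr_left
  intro j _
  simp

theorem one_step (η : D → ℕ → ℝ) (hη : Eta η) (G : Type) [Group G] (φ : G → ℝ) (hφ : SO φ)
    (h01 : ∀ g, 0 ≤ φ g ∧ φ g ≤ 1) :
    ∃ (E : Type) (_ : Group E) (ι : G →* E) (φ' : E → ℝ), SO φ' ∧ (∀ g, 0 ≤ φ' g ∧ φ' g ≤ 1) ∧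
        Function.Injective ι ∧ (∀ g, φ' (ι g) = φ g) ∧
        (∀ g p, p ∉ Set.range ι → φ' (ι g * p) = φ' p) ∧
        ∀ x : ℕ → G, ∃ s : Fin 4 → E, Sol (fun i => ι (x i)) s := by
  choose Θ hΘ01 hΘW hΘinv hΘslow using fun x : ℕ → G => exists_theta η hη φ hφ h01 x
  choose φQ hQ using fun x : ℕ → G => exists_tailFn (Θ x)
  obtain ⟨φB, hB⟩ := exists_tailFn (G := G) (K := FreeGroup ℕ) (fun _ g => φ g)
  have hW : ∀ x, ThetaW φ x (Θ x) := fun x => hΘW x
  have hΘ1 : ∀ x g, Θ x 1 g = φ g := by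
    intro x g
    have := hW x 1 g
    rw [tau_one, map_one] at this
    exact this
  have hSO : ∀ x, SO (φQ x) := fun x => phiQ_SO hφ (hW x) (hΘslow x) (hQ x)
  obtain ⟨Φ, hΦ1, hΦ2, hΦ3, hΦ4⟩ := exists_pushout (fun x : ℕ → G => jx x)
    (fun x => jx_injective x) φB φQ (fun x b => phiQ_jx (hW x) (hQ x) hB b)
    (fun x b k hk => phiQ_inv (hΘinv x) (hQ x) b k hk)
  have hQ01 : ∀ x q, 0 ≤ φQ x q ∧ φQ x q ≤ 1 := by
    intro x q
    obtain ⟨d, g, h⟩ := (hQ x).mem q
    rw [h]
    exact hΘ01 x d g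
  set x0 : ℕ → G := fun _ => 1 with hx0
  let o : ∀ x : ℕ → G, Monoid.Coprod G D →* Monoid.PushoutI (fun x : ℕ → G => jx x) :=
    fun x => Monoid.PushoutI.of (G := fun _ : ℕ → G => Monoid.Coprod G D) x
  have ho : ∀ x b, o x (jx x b) = o x0 (jx x0 b) := by
    intro x b
    simp only [o]
    rw [Monoid.PushoutI.of_apply_eq_base (fun x : ℕ → G => jx x) x b,
      Monoid.PushoutI.of_apply_eq_base (fun x : ℕ → G => jx x) x0 b]
  have hinl : ∀ x g, o x (inl g) = o x0 (inl g) := by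
    intro x g
    have := ho x (inl g)
    rwa [jx_inl, jx_inl] at this
  have hinj : ∀ x, Function.Injective (o x) := fun x =>
    Monoid.PushoutI.of_injective (fun x => jx_injective x) x
  refine ⟨Monoid.PushoutI (fun x : ℕ → G => jx x), inferInstance, (o x0).comp inl, Φ,
    ?_, ?_, ?_, ?_, ?_, ?_⟩
  · -- SO
    refine SO_of_closure Φ (⋃ x, Set.range (o x)) ?_ ?_
    · rw [eq_top_iff]
      rintro q -
      induction q using Monoid.PushoutI.induction_on with
      | of i g => exact Subgroup.subset_closure (Set.mem_iUnion.2 ⟨i, g, rfl⟩)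
      | base h =>
        rw [← Monoid.PushoutI.of_apply_eq_base (fun x : ℕ → G => jx x) x0 h]
        exact Subgroup.subset_closure (Set.mem_iUnion.2 ⟨x0, _, rfl⟩)
      | mul x y hx hy => exact Subgroup.mul_mem _ hx hy
    · intro f hf ε hε
      obtain ⟨x, k, rfl⟩ := Set.mem_iUnion.1 hf
      refine ((hSO x k ε hε).image (o x)).subset ?_
      intro p hp
      have hp' : ε ≤ |Φ (o x k * p) - Φ p| := hp
      by_cases hpr : p ∈ Set.range (o x)
      · obtain ⟨q, rfl⟩ := hpr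
        refine ⟨q, ?_, rfl⟩
        rw [← map_mul] at hp'
        simp only [o] at hp'
        rw [hΦ1, hΦ1] at hp'
        exact hp'
      · have := hΦ3 x k p hpr
        simp only [o] at hp'
        rw [this, sub_self, abs_zero] at hp'
        linarith
  · intro p
    rcases hΦ4 p with ⟨b, hb⟩ | ⟨i, k, hk⟩
    · rw [hb, ← phiQ_jx (hW x0) (hQ x0) hB b]
      exact hQ01 _ _
    · rw [hk]; exact hQ01 _ _
  · exact (hinj x0).comp Monoid.Coprod.inl_injective
  · intro g
    simp only [MonoidHom.comp_apply, o]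
    rw [hΦ1, tail_inl (hQ x0), hΘ1]
  · intro g p hp
    by_cases hpr : p ∈ Set.range (o x0)
    · obtain ⟨q, rfl⟩ := hpr
      have hq : q ∉ Set.range (inl : G →* Monoid.Coprod G D) := by
        rintro ⟨g', rfl⟩
        exact hp ⟨g', rfl⟩
      rw [MonoidHom.comp_apply, ← map_mul]
      simp only [o]
      rw [hΦ1, hΦ1, (hQ x0).invG _ _ hq]
    · exact hΦ3 x0 (inl g) p hpr
  · intro x
    refine ⟨![o x0 (inr (FreeGroup.of true)), o x0 (inr (FreeGroup.of false)),
      o x (inr (FreeGroup.of true)), o x (inr (FreeGroup.of false))], ?_⟩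
    intro i
    simp only [Matrix.cons_val]
    have hUi : (inr (U i) : Monoid.Coprod G D) =
        Uw i (inr (FreeGroup.of true)) (inr (FreeGroup.of false)) :=
      map_Uw (inr : D →* Monoid.Coprod G D) i _ _
    rw [← map_Uw (o x), ← map_Uw (o x0), ← hUi]
    change o x (inr (U i)) = o x0 (inr (U i)) * o x0 (inl (x i))
    have h1 := ho x (inr (FreeGroup.of i))
    rw [jx_inr_of, jx_inr_of, map_mul, map_mul, hinl x] at h1
    simp only [hx0, inv_one, map_one, mul_one] at h1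
    rw [← hx0] at h1
    rw [map_inv, map_inv, mul_inv_eq_iff_eq_mul] at h1
    exact h1

end PB
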