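import Pool.Agent.R309.PB.Defs

/-! PB-T0: a function of the last two syllables on a free product (helper619 for helper309) -/

namespace PB

open Monoid

section T0

/-- the two factors of the free product as a family -/
def Fam (G K : Type) : Bool → Type
  | true => G
  | false => K

instance famGroup (G K : Type) [Group G] [Group K] : ∀ b, Group (Fam G K b)
  | true => inferInstanceAs (Group G)
  | false => inferInstanceAs (Group K)

/-- the value at a word, given by its reversed list of letters -/
def tailVal {G K : Type} [Group G] [Group K] (Θ : K → G → ℝ) : List (Σ b, Fam G K b) → ℝ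
  | [] => Θ 1 1
  | [⟨true, g⟩] => Θ 1 g
  | ⟨false, d⟩ :: _ => Θ d 1
  | ⟨true, g⟩ :: ⟨false, d⟩ :: _ => Θ d g
  | ⟨true, g⟩ :: ⟨true, _⟩ :: _ => Θ 1 g

variable {G K : Type} [Group G] [Group K]

theorem tailVal_mem (Θ : K → G → ℝ) (l : List (Σ b, Fam G K b)) :
    ∃ d g, tailVal Θ l = Θ d g := by
  rcases l with _ | ⟨⟨_ | _, x⟩, l⟩
  · exact ⟨1, 1, rfl⟩
  · exact ⟨x, 1, by cases l <;> rfl⟩
  · rcases l with _ | ⟨⟨_ | _, y⟩, l⟩
    · exact ⟨1, x, rfl⟩
    · exact ⟨y, x, rfl⟩
    · exact ⟨1, x, rfl⟩

theorem tailVal_append (Θ : K → G → ℝ) (l : List (Σ b, Fam G K b)) (a : Σ b, Fam G K b)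
    (h : 2 ≤ l.length ∨ ∃ d, l = [⟨false, d⟩]) : tailVal Θ (l ++ [a]) = tailVal Θ l := by
  rcases l with _ | ⟨⟨_ | _, x⟩, l⟩
  · rcases h with h | ⟨d, h⟩
    · simp at h
    · simp at h
  · cases l <;> rfl
  · rcases l with _ | ⟨⟨_ | _, y⟩, l⟩
    · rcases h with h | ⟨d, h⟩
      · simp at h
      · simp at h
    · rfl
    · rfl

theorem rcons_toList {ι : Type} {M : ι → Type} [∀ i, Group (M i)] [DecidableEq ι]
    [∀ i, DecidableEq (M i)] {i : ι} (p : CoprodI.Word.Pair M i) :
    (CoprodI.Word.rcons p).toList =
      if p.head = 1 then p.tail.toList else ⟨i, p.head⟩ :: p.tail.toList := by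
  unfold CoprodI.Word.rcons
  split_ifs <;> rfl

theorem tailVal_rcons [∀ b, DecidableEq (Fam G K b)] (Θ : K → G → ℝ) {i : Bool}
    (p : CoprodI.Word.Pair (Fam G K) i)
    (h : 2 ≤ p.tail.toList.length ∨ ∃ d, p.tail.toList = [⟨false, d⟩]) :
    tailVal Θ (CoprodI.Word.rcons p).toList.reverse = tailVal Θ p.tail.toList.reverse := by
  rw [rcons_toList]
  split_ifs
  · rfl
  · rw [List.reverse_cons]
    apply tailVal_append
    rcases h with h | ⟨d, h⟩
    · left
      rw [List.length_reverse]
      exact h
    · right
      exact ⟨d, by rw [h]; rfl⟩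

/-- the map to the free product of the family -/
noncomputable def toI (G K : Type) [Group G] [Group K] :
    Coprod G K →* CoprodI (Fam G K) :=
  Coprod.lift (CoprodI.of (M := Fam G K) (i := true) : G →* CoprodI (Fam G K))
    (CoprodI.of (M := Fam G K) (i := false) : K →* CoprodI (Fam G K))

/-- the map back -/
noncomputable def fromI (G K : Type) [Group G] [Group K] :
    CoprodI (Fam G K) →* Coprod G K :=
  CoprodI.lift (fun b => match b with
    | true => (Coprod.inl : G →* Coprod G K)
    | false => (Coprod.inr : K →* Coprod G K))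

theorem toI_inl (g : G) : toI G K (Coprod.inl g) = CoprodI.of (M := Fam G K) (i := true) g :=
  Coprod.lift_apply_inl _ _ _

theorem toI_inr (d : K) : toI G K (Coprod.inr d) = CoprodI.of (M := Fam G K) (i := false) d :=
  Coprod.lift_apply_inr _ _ _

theorem fromI_true (g : G) :
    fromI G K (CoprodI.of (M := Fam G K) (i := true) g) = Coprod.inl g := by
  unfold fromI
  exact CoprodI.lift_of _ _

theorem fromI_false (d : K) :
    fromI G K (CoprodI.of (M := Fam G K) (i := false) d) = Coprod.inr d := by
  unfold fromI
  exact CoprodI.lift_of _ _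

theorem fromI_toI (q : Coprod G K) : fromI G K (toI G K q) = q := by
  have h : (fromI G K).comp (toI G K) = MonoidHom.id _ := by
    apply Coprod.hom_ext
    · ext g
      show fromI G K (toI G K (Coprod.inl g)) = Coprod.inl g
      rw [toI_inl, fromI_true]
    · ext d
      show fromI G K (toI G K (Coprod.inr d)) = Coprod.inr d
      rw [toI_inr, fromI_false]
  exact congrArg (fun f : Coprod G K →* Coprod G K => f q) h

theorem val_aux [∀ b, DecidableEq (Fam G K b)] (Θ : K → G → ℝ) (d : Fam G K false)
    (g : Fam G K true) :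
    tailVal Θ ((CoprodI.of d * CoprodI.of g) •
      (CoprodI.Word.empty : CoprodI.Word (Fam G K))).toList.reverse = Θ d g := by
  rw [mul_smul]
  have h1 : (CoprodI.of g • (CoprodI.Word.empty : CoprodI.Word (Fam G K))).toList =
      if g = 1 then [] else [⟨true, g⟩] := by
    rw [CoprodI.Word.of_smul_def, rcons_toList,
      CoprodI.Word.equivPair_eq_of_fstIdx_ne (w := (CoprodI.Word.empty : CoprodI.Word (Fam G K)))
        (i := true) (by simp [CoprodI.Word.fstIdx])]
    simp only [mul_one]
    rfl
  have h2 : (CoprodI.of g • (CoprodI.Word.empty : CoprodI.Word (Fam G K))).fstIdx ≠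
      some false := by
    unfold CoprodI.Word.fstIdx
    rw [h1]
    split_ifs <;> simp
  rw [CoprodI.Word.of_smul_def, rcons_toList, CoprodI.Word.equivPair_eq_of_fstIdx_ne h2]
  simp only [mul_one]
  rw [h1]
  by_cases hd : d = 1
  · rw [if_pos hd]
    by_cases hg : g = 1
    · rw [if_pos hg, hd, hg]
      rfl
    · rw [if_neg hg, hd]
      rfl
  · rw [if_neg hd]
    by_cases hg : g = 1
    · rw [if_pos hg, hg]
      rfl
    · rw [if_neg hg]
      rfl

theorem exists_tailFn {G K : Type} [Group G] [Group K] (Θ : K → G → ℝ) :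
    ∃ φ : Monoid.Coprod G K → ℝ, TailFn Θ φ := by
  classical
  set E : CoprodI.Word (Fam G K) := CoprodI.Word.empty with hE
  have key : ∀ (i : Bool) (m : Fam G K i) (q : Coprod G K),
      (2 ≤ (CoprodI.Word.equivPair i (toI G K q • E)).tail.toList.length ∨
        ∃ d, (CoprodI.Word.equivPair i (toI G K q • E)).tail.toList = [⟨false, d⟩]) →
      tailVal Θ ((CoprodI.of m * toI G K q) • E).toList.reverse =
        tailVal Θ (toI G K q • E).toList.reverse := by
    intro i m q hq
    rw [mul_smul, CoprodI.Word.of_smul_def, tailVal_rcons Θ _ (by exact hq)]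
    have h1 : (toI G K q • E) =
        CoprodI.Word.rcons (CoprodI.Word.equivPair i (toI G K q • E)) := by
      rw [← CoprodI.Word.equivPair_symm, Equiv.symm_apply_apply]
    conv_rhs => rw [h1]
    rw [tailVal_rcons Θ _ hq]
  have hprod : ∀ (i : Bool) (q : Coprod G K), toI G K q =
      CoprodI.of (CoprodI.Word.equivPair i (toI G K q • E)).head *
        (CoprodI.Word.equivPair i (toI G K q • E)).tail.prod := by
    intro i q
    rw [← CoprodI.Word.prod_rcons, ← CoprodI.Word.equivPair_symm, Equiv.symm_apply_apply,
      CoprodI.Word.prod_smul, hE, CoprodI.Word.prod_empty, mul_one]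
  refine ⟨fun q => tailVal Θ (toI G K q • E).toList.reverse, ?_, ?_, ?_, ?_⟩
  · intro d g
    show tailVal Θ (toI G K (Coprod.inr d * Coprod.inl g) • E).toList.reverse = Θ d g
    rw [map_mul, toI_inr, toI_inl]
    exact val_aux Θ d g
  · intro g q hq
    show tailVal Θ (toI G K (Coprod.inl g * q) • E).toList.reverse = _
    rw [map_mul, toI_inl]
    apply key
    have hP := hprod true q
    set p := CoprodI.Word.equivPair true (toI G K q • E) with hp
    rcases hl : p.tail.toList with _ | ⟨⟨b, x⟩, _ | ⟨y, l⟩⟩
    · exfalso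
      apply hq
      have h1 : p.tail.prod = 1 := by
        unfold CoprodI.Word.prod
        rw [hl]
        rfl
      rw [h1, mul_one] at hP
      refine ⟨(p.head : G), ?_⟩
      rw [← fromI_toI q, hP]
      exact (fromI_true (K := K) (p.head : G)).symm
    · right
      have h1 := p.fstIdx_ne
      unfold CoprodI.Word.fstIdx at h1
      rw [hl] at h1
      cases b
      · exact ⟨x, rfl⟩
      · exact absurd rfl h1
    · left
      simp
  · intro d q hq
    show tailVal Θ (toI G K (Coprod.inr d * q) • E).toList.reverse = _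
    rw [map_mul, toI_inr]
    apply key
    have hP := hprod false q
    set p := CoprodI.Word.equivPair false (toI G K q • E) with hp
    rcases hl : p.tail.toList with _ | ⟨⟨b, x⟩, _ | ⟨y, l⟩⟩
    · exfalso
      have h1 : p.tail.prod = 1 := by
        unfold CoprodI.Word.prod
        rw [hl]
        rfl
      rw [h1, mul_one] at hP
      apply hq (p.head : K) 1
      rw [map_one, mul_one, ← fromI_toI q, hP]
      exact fromI_false (G := G) (p.head : K)
    · exfalso
      have h1 := p.fstIdx_ne
      unfold CoprodI.Word.fstIdx at h1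
      rw [hl] at h1
      cases b
      · exact absurd rfl h1
      · have h2 : p.tail.prod = CoprodI.of (M := Fam G K) (i := true) x := by
          unfold CoprodI.Word.prod
          rw [hl]
          simp
        rw [h2] at hP
        apply hq (p.head : K) (x : G)
        rw [← fromI_toI q, hP, map_mul]
        exact congrArg₂ (· * ·) (fromI_false (G := G) (p.head : K)) (fromI_true (K := K) (x : G))
    · left
      simp
  · intro q
    exact tailVal_mem Θ _

end T0

end PB
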