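import Pool.Agent.R309.PB.Defs

/-!
# Project PB, piece PB-T1: functions of the last letter on an amalgamated product
-/

namespace PB

open Monoid Monoid.PushoutI Monoid.PushoutI.NormalWord

namespace T1aux

variable {ι B : Type} [Group B] {K : ι → Type} [∀ i, Group (K i)] {j : ∀ i, B →* K i}

/-- value of a normal word -/
def val (φB : B → ℝ) (φ : ∀ i, K i → ℝ) (h : B) (l : List (Σ i, K i)) : ℝ :=
  match l.getLast? with
  | none => φB h
  | some x => φ x.1 x.2

omit [Group B] [∀ i, Group (K i)] in
lemma val_nil (φB : B → ℝ) (φ : ∀ i, K i → ℝ) (h : B) : val φB φ h [] = φB h := rfl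

omit [Group B] [∀ i, Group (K i)] in
lemma val_eq (φB : B → ℝ) (φ : ∀ i, K i → ℝ) (h h' : B) (l l' : List (Σ i, K i))
    (hl : l.getLast? = l'.getLast?) (hne : l' ≠ []) : val φB φ h l = val φB φ h' l' := by
  unfold val
  rw [hl]
  obtain ⟨x, hx⟩ : ∃ x, l'.getLast? = some x := by
    rw [List.getLast?_eq_some_getLast hne]
    exact ⟨_, rfl⟩
  rw [hx]

omit [Group B] [∀ i, Group (K i)] in
lemma val_mem (φB : B → ℝ) (φ : ∀ i, K i → ℝ) (h : B) (l : List (Σ i, K i)) :
    (∃ b, val φB φ h l = φB b) ∨ ∃ i k, val φB φ h l = φ i k := by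
  unfold val
  cases l.getLast? with
  | none => exact Or.inl ⟨h, rfl⟩
  | some x => exact Or.inr ⟨x.1, x.2, rfl⟩

variable [DecidableEq ι] [∀ i, DecidableEq (K i)] {d : Transversal j}

lemma rcons_list (i : ι) (p : NormalWord.Pair d i) :
    (NormalWord.rcons i p).toList =
      if ((d.compl i).equiv p.head).2 = (1 : K i) then p.tail.toList
      else ⟨i, (((d.compl i).equiv p.head).2 : K i)⟩ :: p.tail.toList := by
  show ((CoprodI.Word.equivPair i).symm
    { p.toPair with head := (((d.compl i).equiv p.head).2 : K i) }).toList = _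
  rw [CoprodI.Word.equivPair_symm, CoprodI.Word.rcons]
  split_ifs with h1
  · rfl
  · rfl

lemma rcons_head (i : ι) (p : NormalWord.Pair d i) :
    j i (NormalWord.rcons i p).head = (((d.compl i).equiv p.head).1 : K i) :=
  MonoidHom.apply_ofInjective_symm (d.injective i) _

lemma rcons_last (i : ι) (p : NormalWord.Pair d i) (hne : p.tail.toList ≠ []) :
    (NormalWord.rcons i p).toList.getLast? = p.tail.toList.getLast? := by
  rw [rcons_list]
  split_ifs with h
  · rfl
  · rw [List.getLast?_cons]
    rw [List.getLast?_eq_some_getLast hne]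
    rfl

lemma rcons_val (φB : B → ℝ) (φ : ∀ i, K i → ℝ)
    (h1 : ∀ i b, φ i (j i b) = φB b)
    (h2 : ∀ i b k, k ∉ Set.range (j i) → φ i (j i b * k) = φ i k)
    (i : ι) (p : NormalWord.Pair d i) (hnil : p.tail.toList = []) :
    val φB φ (NormalWord.rcons i p).head (NormalWord.rcons i p).toList = φ i p.head := by
  have hmul : (((d.compl i).equiv p.head).1 : K i) * (((d.compl i).equiv p.head).2 : K i) =
      p.head := Subgroup.IsComplement.equiv_fst_mul_equiv_snd _ _
  have hhead := rcons_head i p
  rw [rcons_list]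
  split_ifs with h
  · rw [hnil, val_nil, ← h1 i, hhead]
    rw [h, mul_one] at hmul
    rw [hmul]
  · rw [hnil]
    show φ i (((d.compl i).equiv p.head).2 : K i) = _
    have hns : (((d.compl i).equiv p.head).2 : K i) ∉ Set.range (j i) := by
      rintro ⟨b, hb⟩
      apply h
      rw [Subgroup.IsComplement.coe_equiv_snd_eq_one_iff_mem _ (d.one_mem _)]
      rw [← hmul]
      exact mul_mem (SetLike.coe_mem _) ⟨b, hb⟩
    rw [← h2 i (NormalWord.rcons i p).head _ hns, hhead, hmul]

lemma equivPair_empty (i : ι) :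
    ((NormalWord.equivPair i) (NormalWord.empty : NormalWord d)).toPair =
      ⟨1, CoprodI.Word.empty, by simp [CoprodI.Word.fstIdx]⟩ := by
  show CoprodI.Word.equivPair i (CoprodI.of (j i 1) • CoprodI.Word.empty) = _
  rw [map_one, map_one, one_smul]
  exact CoprodI.Word.equivPair_eq_of_fstIdx_ne _

lemma of_smul_empty (i : ι) (p : NormalWord.Pair d i) (hnil : p.tail.toList = []) :
    PushoutI.of (φ := j) i p.head • (NormalWord.empty : NormalWord d) = NormalWord.rcons i p := by
  rw [summand_smul_def]
  show NormalWord.rcons i _ = NormalWord.rcons i _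
  congr 1
  have h := equivPair_empty (d := d) i
  obtain ⟨⟨hd, tl, hfst⟩, hn⟩ := p
  have htl : tl = CoprodI.Word.empty := CoprodI.Word.ext hnil
  subst htl
  generalize (NormalWord.equivPair i) (NormalWord.empty : NormalWord d) = q at h ⊢
  obtain ⟨⟨hd', tl', hfst'⟩, hn'⟩ := q
  simp only [CoprodI.Word.Pair.mk.injEq] at h
  obtain ⟨e1, e2⟩ := h
  subst e1 e2
  simp

end T1aux

open T1aux Classical in
/-- PB-T1 -/
theorem exists_pushout {ι B : Type} [Group B] {K : ι → Type} [∀ i, Group (K i)]
    (j : ∀ i, B →* K i) (hj : ∀ i, Function.Injective (j i)) (φB : B → ℝ) (φ : ∀ i, K i → ℝ)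
    (h1 : ∀ i b, φ i (j i b) = φB b)
    (h2 : ∀ i b k, k ∉ Set.range (j i) → φ i (j i b * k) = φ i k) :
    ∃ Φ : Monoid.PushoutI j → ℝ,
      (∀ i k, Φ (Monoid.PushoutI.of i k) = φ i k) ∧
      (∀ b, Φ (Monoid.PushoutI.base j b) = φB b) ∧
      (∀ i k p, p ∉ Set.range (Monoid.PushoutI.of (φ := j) i) →
        Φ (Monoid.PushoutI.of i k * p) = Φ p) ∧
      (∀ p, (∃ b, Φ p = φB b) ∨ ∃ i k, Φ p = φ i k) := by
  obtain ⟨d⟩ := transversal_nonempty j hj
  refine ⟨fun p => val φB φ (p • (NormalWord.empty : NormalWord d)).head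
    (p • (NormalWord.empty : NormalWord d)).toList, ?_, ?_, ?_, ?_⟩
  · intro i k
    have h := of_smul_empty (d := d) i
      ⟨⟨k, CoprodI.Word.empty, by simp [CoprodI.Word.fstIdx]⟩, by simp⟩ rfl
    simp only at h
    simp only [h]
    exact rcons_val φB φ h1 h2 i _ rfl
  · intro b
    simp only [base_smul_def]
    show val φB φ (b * 1) [] = _
    rw [val_nil, mul_one]
  · intro i k p hp
    simp only [mul_smul]
    set w := p • (NormalWord.empty : NormalWord d) with hw
    have hwr : w = NormalWord.rcons i (NormalWord.equivPair i w) :=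
      ((NormalWord.equivPair i).symm_apply_apply w).symm
    have hkw : PushoutI.of (φ := j) i k • w = NormalWord.rcons i
      { NormalWord.equivPair i w with head := k * (NormalWord.equivPair i w).head } := by
      rw [summand_smul_def]; rfl
    by_cases hnil : (NormalWord.equivPair i w).tail.toList = []
    · exfalso
      apply hp
      refine ⟨(NormalWord.equivPair i w).head, ?_⟩
      have h3 := of_smul_empty (d := d) i (NormalWord.equivPair i w) hnil
      rw [← hwr, hw] at h3
      exact (NormalWord.equiv (d := d)).injective h3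
    · rw [hkw]
      have e1 := rcons_last i
        ({ NormalWord.equivPair i w with head := k * (NormalWord.equivPair i w).head } :
          NormalWord.Pair d i) hnil
      have e2 := rcons_last i (NormalWord.equivPair i w) hnil
      rw [← hwr] at e2
      apply val_eq
      · rw [e1, e2]
      · intro h0
        rw [h0] at e2
        exact hnil (List.getLast?_eq_none_iff.mp e2.symm)
  · intro p
    exact val_mem _ _ _ _

end PB
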