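import Pool.Agent.R309.PB.Defs

/-!
# MP_b2dc7d_gt, piece PB-TAU
-/

set_option autoImplicit false

namespace PB

/-- PB-TAU -/
theorem tau_one : tau 1 = none := by
  unfold tau
  rw [FreeGroup.toWord_one]
  rfl

/-- PB-TAU -/
theorem tau_of (i : ℕ) : tau (FreeGroup.of i) = some i := by
  unfold tau
  rw [FreeGroup.toWord_of]
  rfl

/-- PB-TAU -/
theorem tau_of_mul (i : ℕ) (f : FreeGroup ℕ) (hf : f ≠ 1) :
    tau (FreeGroup.of i * f) = tau f := by
  have h1 : (FreeGroup.of i * f).toWord = FreeGroup.reduce ((i, true) :: f.toWord) := by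
    rw [FreeGroup.toWord_mul, FreeGroup.toWord_of]
    rfl
  have h2 : FreeGroup.reduce f.toWord = f.toWord := FreeGroup.reduce_toWord f
  have h3 : f.toWord ≠ [] := fun h => hf (FreeGroup.toWord_eq_nil_iff.1 h)
  unfold tau
  rw [h1, FreeGroup.reduce.cons, h2]
  rcases hw : f.toWord with _ | ⟨hd, tl⟩
  · exact absurd hw h3
  · simp only
    split_ifs with h
    · rcases tl with _ | ⟨hd', tl'⟩
      · obtain ⟨a, b⟩ := hd
        simp only at h
        have hb : b = false := by
          cases b
          · rfl
          · simp at h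
        subst hb
        rfl
      · rw [List.getLast?_cons_cons]
    · rw [List.getLast?_cons_cons]

/-- PB-TAU -/
theorem tau_finite (v : FreeGroup ℕ) : {u : FreeGroup ℕ | tau (v * u) ≠ tau u}.Finite := by
  have hof : ∀ i : ℕ, {u : FreeGroup ℕ | tau (FreeGroup.of i * u) ≠ tau u}.Finite := by
    intro i
    apply (Set.finite_singleton (1 : FreeGroup ℕ)).subset
    intro u hu
    by_contra hne
    exact hu (tau_of_mul i u hne)
  induction v using FreeGroup.induction_on with
  | C1 => simp
  | of i => exact hof i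
  | inv_of i _ =>
    apply ((hof i).image (fun u => FreeGroup.of i * u)).subset
    intro u hu
    refine ⟨(FreeGroup.of i)⁻¹ * u, ?_, by simp⟩
    show tau (FreeGroup.of i * ((FreeGroup.of i)⁻¹ * u)) ≠ tau ((FreeGroup.of i)⁻¹ * u)
    rw [mul_inv_cancel_left]
    exact fun h => hu h.symm
  | mul x y hx hy =>
    have h1 : ((fun u => y * u) ⁻¹' {u : FreeGroup ℕ | tau (x * u) ≠ tau u}).Finite :=
      hx.preimage (mul_right_injective y).injOn
    apply (h1.union hy).subset
    intro u hu
    by_contra hcon
    rw [Set.mem_union, not_or] at hcon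
    obtain ⟨c1, c2⟩ := hcon
    have d1 : tau (x * (y * u)) = tau (y * u) := by
      by_contra h; exact c1 h
    have d2 : tau (y * u) = tau u := by
      by_contra h; exact c2 h
    exact hu (by rw [mul_assoc, d1, d2])

end PB
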