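import Pool.Agent.R309.PB.Defs

/-! PB-TH -/

namespace PB

open Classical in
theorem exists_theta (η : D → ℕ → ℝ) (hη : Eta η) {G : Type} [Group G] (φ : G → ℝ) (hφ : SO φ)
    (h01 : ∀ g, 0 ≤ φ g ∧ φ g ≤ 1) (x : ℕ → G) :
    ∃ Θ : D → G → ℝ, (∀ d g, 0 ≤ Θ d g ∧ Θ d g ≤ 1) ∧
      (∀ f g, Θ (hU f) g = match tau f with
        | some i => φ (x i * g)
        | none => φ g) ∧
      (∀ f : FreeGroup ℕ, ∀ d : D, d ∉ W → ∀ g, Θ (hU f * d) g = Θ d g) ∧
      (∀ c : D, IsLetter c → ∀ ε : ℝ, 0 < ε →
        {p : D × G | ε ≤ |Θ (c * p.1) p.2 - Θ p.1 p.2|}.Finite) := by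
  obtain ⟨ind, hind⟩ : ∃ ind : (ℕ → ℝ) → ℕ, ∀ r : ℕ → ℝ, (∃ i, r i ≠ 0) → r (ind r) ≠ 0 := by
    refine ⟨fun r => if h : ∃ i, r i ≠ 0 then h.choose else 0, fun r h => ?_⟩
    simp only [dif_pos h]
    exact h.choose_spec
  -- the row of `η` vanishes off the index
  have hoff : ∀ d k, k ≠ ind (η d) → η d k = 0 := by
    intro d k hk
    by_contra hne
    have h1 := hind (η d) ⟨k, hne⟩
    rcases hη.one d k (ind (η d)) hk with h | h
    · exact hne h
    · exact h1 h
  have hφd : ∀ g h : G, |φ g - φ h| ≤ 1 := by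
    intro g h
    rw [abs_le]
    constructor <;> linarith [(h01 g).1, (h01 g).2, (h01 h).1, (h01 h).2]
  refine ⟨fun d g => φ g + η d (ind (η d)) * (φ (x (ind (η d)) * g) - φ g), ?_, ?_, ?_, ?_⟩
  · intro d g
    have ha := hη.nonneg d (ind (η d))
    have hb := hη.le_one d (ind (η d))
    beta_reduce
    generalize η d (ind (η d)) = r at ha hb ⊢
    have h1 := h01 g
    have h2 := h01 (x (ind (η d)) * g)
    constructor
    · nlinarith [mul_nonneg ha h2.1, mul_nonneg (sub_nonneg.mpr hb) h1.1]
    · nlinarith [mul_nonneg ha (sub_nonneg.mpr h2.2),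
        mul_nonneg (sub_nonneg.mpr hb) (sub_nonneg.mpr h1.2)]
  · intro f g
    have h1 := hη.onW f
    cases ht : tau f with
    | none =>
      have h2 := h1 (ind (η (hU f)))
      rw [ht] at h2
      simp only [reduceCtorEq, if_false] at h2
      simp only [h2, zero_mul, add_zero]
    | some i =>
      have h2 := h1 i
      rw [ht] at h2
      simp only [if_true] at h2
      have h3 : ind (η (hU f)) = i := by
        by_contra hne
        have h4 := hoff (hU f) i (fun h => hne h.symm)
        rw [h2] at h4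
        norm_num at h4
      simp only [h3, h2]
      ring
  · intro f d hd g
    simp only [hη.inv f d hd]
  · intro c hc ε hε
    have hE := hη.slow c hc (ε / 3) (by positivity)
    set E := {d : D | ∃ i, ε / 3 ≤ |η (c * d) i - η d i|} with hEdef
    have hfin : ∀ d : D, {g : G | ε ≤ |(φ g + η (c * d) (ind (η (c * d))) *
        (φ (x (ind (η (c * d))) * g) - φ g)) -
        (φ g + η d (ind (η d)) * (φ (x (ind (η d)) * g) - φ g))|}.Finite := by
      intro d
      refine ((hφ (x (ind (η (c * d)))) (ε / 2) (by positivity)).union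
        (hφ (x (ind (η d))) (ε / 2) (by positivity))).subset ?_
      intro g hg
      have hg' : ε ≤ |(φ g + η (c * d) (ind (η (c * d))) *
        (φ (x (ind (η (c * d))) * g) - φ g)) -
        (φ g + η d (ind (η d)) * (φ (x (ind (η d)) * g) - φ g))| := hg
      by_contra hcon
      rw [Set.mem_union, not_or] at hcon
      obtain ⟨hc1, hc2⟩ := hcon
      have hc1' : |φ (x (ind (η (c * d))) * g) - φ g| < ε / 2 := lt_of_not_ge hc1
      have hc2' : |φ (x (ind (η d)) * g) - φ g| < ε / 2 := lt_of_not_ge hc2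
      have ha := hη.nonneg (c * d) (ind (η (c * d)))
      have ha1 := hη.le_one (c * d) (ind (η (c * d)))
      have hb := hη.nonneg d (ind (η d))
      have hb1 := hη.le_one d (ind (η d))
      generalize η (c * d) (ind (η (c * d))) = a at ha ha1 hg'
      generalize η d (ind (η d)) = b at hb hb1 hg'
      generalize φ (x (ind (η (c * d))) * g) - φ g = u at hc1' hg'
      generalize φ (x (ind (η d)) * g) - φ g = v at hc2' hg'
      have h1 : (φ g + a * u) - (φ g + b * v) = a * u - b * v := by ring
      rw [h1] at hg'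
      have h2 : |a * u| ≤ |u| := by
        rw [abs_mul, abs_of_nonneg ha]
        nlinarith [abs_nonneg u]
      have h3 : |b * v| ≤ |v| := by
        rw [abs_mul, abs_of_nonneg hb]
        nlinarith [abs_nonneg v]
      have h4 := abs_sub (a * u) (b * v)
      linarith
    have hbig := hE.biUnion (t := fun d => (fun g : G => (d, g)) '' {g : G | ε ≤
        |(φ g + η (c * d) (ind (η (c * d))) *
        (φ (x (ind (η (c * d))) * g) - φ g)) -
        (φ g + η d (ind (η d)) * (φ (x (ind (η d)) * g) - φ g))|})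
        (fun d _ => (hfin d).image _)
    refine hbig.subset ?_
    rintro ⟨d, g⟩ hp
    have hp' : ε ≤ |(φ g + η (c * d) (ind (η (c * d))) *
        (φ (x (ind (η (c * d))) * g) - φ g)) -
        (φ g + η d (ind (η d)) * (φ (x (ind (η d)) * g) - φ g))| := hp
    rw [Set.mem_iUnion₂]
    refine ⟨d, ?_, ⟨g, hp, rfl⟩⟩
    by_contra hdE
    have hall : ∀ i, |η (c * d) i - η d i| < ε / 3 := by
      intro i
      by_contra hi
      exact hdE ⟨i, not_lt.mp hi⟩
    have hu := hφd (x (ind (η (c * d))) * g) g
    have hv := hφd (x (ind (η d)) * g) g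
    by_cases hij : ind (η (c * d)) = ind (η d)
    · rw [hij] at hp'
      have h1 := hall (ind (η d))
      have h2 : (φ g + η (c * d) (ind (η d)) * (φ (x (ind (η d)) * g) - φ g)) -
        (φ g + η d (ind (η d)) * (φ (x (ind (η d)) * g) - φ g)) =
        (η (c * d) (ind (η d)) - η d (ind (η d))) * (φ (x (ind (η d)) * g) - φ g) := by ring
      rw [h2, abs_mul] at hp'
      nlinarith [abs_nonneg (η (c * d) (ind (η d)) - η d (ind (η d))),
        abs_nonneg (φ (x (ind (η d)) * g) - φ g)]
    · have h1 := hall (ind (η (c * d)))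
      have h2 := hall (ind (η d))
      rw [hoff d _ hij, sub_zero] at h1
      rw [hoff (c * d) _ (fun h => hij h.symm), zero_sub, abs_neg] at h2
      generalize η (c * d) (ind (η (c * d))) = a at h1 hp'
      generalize η d (ind (η d)) = b at h2 hp'
      generalize φ (x (ind (η (c * d))) * g) - φ g = u at hu hp'
      generalize φ (x (ind (η d)) * g) - φ g = v at hv hp'
      have h3 : (φ g + a * u) - (φ g + b * v) = a * u - b * v := by ring
      rw [h3] at hp'
      have h4 := abs_sub (a * u) (b * v)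
      have h5 : |a * u| ≤ |a| := by
        rw [abs_mul]
        nlinarith [abs_nonneg u, abs_nonneg a]
      have h6 : |b * v| ≤ |b| := by
        rw [abs_mul]
        nlinarith [abs_nonneg v, abs_nonneg b]
      linarith

end PB
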