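import Pool.Agent.R309.PB.Gen
import Pool.Agent.R309.PB.T0
import Pool.Agent.R309.PB.J
import Pool.Agent.R309.PB.C1
import Pool.Agent.R309.PB.TAU
import Pool.Agent.R309.PB.TH
import Pool.Agent.R309.PB.T1

namespace PB

open Monoid.Coprod

section
variable {G : Type} [Group G]

/-- the embedding `G * F_ℕ → G * D`, `u_i ↦ U_i x_i⁻¹` -/
noncomputable def jx (x : ℕ → G) : Monoid.Coprod G (FreeGroup ℕ) →* Monoid.Coprod G D :=
  lift inl (FreeGroup.lift (fun i => inr (U i) * inl (x i)⁻¹))

noncomputable def aut (x : ℕ → G) : Monoid.Coprod G (FreeGroup ℕ) →* Monoid.Coprod G (FreeGroup ℕ) :=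
  lift inl (FreeGroup.lift (fun i => inr (FreeGroup.of i) * inl (x i)⁻¹))

@[simp] theorem jx_inl (x : ℕ → G) (g : G) : jx x (inl g) = inl g := by simp [jx]

theorem jx_inr_of (x : ℕ → G) (i : ℕ) :
    jx x (inr (FreeGroup.of i)) = inr (U i) * inl (x i)⁻¹ := by simp [jx]

theorem aut_comp (x : ℕ → G) : (aut (fun i => (x i)⁻¹)).comp (aut x) = MonoidHom.id _ := by
  apply Monoid.Coprod.hom_ext
  · ext g; simp [aut]
  · ext i
    simp only [aut, MonoidHom.comp_apply, lift_apply_inr, FreeGroup.lift_apply_of, map_mul,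
      lift_apply_inl, MonoidHom.id_apply, inv_inv, map_inv, mul_inv_cancel_right, mul_assoc,
      mul_inv_cancel, mul_one, inv_mul_cancel]

theorem aut_injective (x : ℕ → G) : Function.Injective (aut x) := by
  have h := aut_comp x
  intro a b hab
  have := congrArg (aut (fun i => (x i)⁻¹)) hab
  rw [← MonoidHom.comp_apply, ← MonoidHom.comp_apply, h] at this
  exact this

theorem jx_eq (x : ℕ → G) : jx x = (map (MonoidHom.id G) hU).comp (aut x) := by
  apply Monoid.Coprod.hom_ext
  · ext g; simp [aut, jx]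
  · ext i; simp [aut, jx, hU]

theorem jx_injective (x : ℕ → G) : Function.Injective (jx x) := by
  rw [jx_eq]
  exact (coprod_map_injective hU hU_injective).comp (aut_injective x)

/-- generation of `G * F_ℕ` from the left -/
theorem coprod_induction {motive : Monoid.Coprod G (FreeGroup ℕ) → Prop}
    (one : motive 1)
    (hG : ∀ g b, motive b → motive (inl g * b))
    (hu : ∀ i b, motive b → motive (inr (FreeGroup.of i) * b))
    (hu' : ∀ i b, motive b → motive ((inr (FreeGroup.of i))⁻¹ * b)) (b) : motive b := by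
  have key : ∀ c : Monoid.Coprod G (FreeGroup ℕ), ∀ b, motive b → motive (c * b) := by
    intro c
    induction c using Monoid.Coprod.induction_on with
    | inl g => exact hG g
    | inr f =>
      induction f using FreeGroup.induction_on with
      | C1 => intro b hb; simpa using hb
      | of i => exact hu i
      | inv_of i _ =>
        intro b hb
        rw [map_inv]
        exact hu' i b hb
      | mul f g ihf ihg =>
        intro b hb
        rw [map_mul, mul_assoc]
        exact ihf _ (ihg _ hb)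
    | mul c d ihc ihd =>
      intro b hb
      rw [mul_assoc]
      exact ihc _ (ihd _ hb)
  simpa using key b 1 one

theorem inr_inl_inj {K : Type} [Group K] {d d' : K} {g g' : G}
    (h : (inr d * inl g : Monoid.Coprod G K) = inr d' * inl g') : d = d' ∧ g = g' := by
  classical
  obtain ⟨φ, hφ⟩ := exists_tailFn (G := G) (K := K) (fun a b => if a = d ∧ b = g then 1 else 0)
  have h1 := hφ.val d g
  have h2 := hφ.val d' g'
  rw [h] at h1
  rw [h1] at h2
  simp only [and_self, if_true] at h2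
  by_contra hcon
  have : ¬ (d' = d ∧ g' = g) := fun hh => hcon ⟨hh.1.symm, hh.2.symm⟩
  rw [if_neg this] at h2
  norm_num at h2

/-- elements `d g` of the range of `jx x` have `d ∈ W` -/
theorem mem_W_of_mem_range (x : ℕ → G) {d : D} {g : G}
    (h : (inr d * inl g : Monoid.Coprod G D) ∈ Set.range (jx x)) : d ∈ W := by
  classical
  obtain ⟨φ, hφ⟩ := exists_tailFn (G := G) (K := D) (fun a _ => if a ∈ W then 1 else 0)
  have hone : φ 1 = 1 := by
    have := hφ.val 1 1
    simpa [W.one_mem] using this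
  have hW : ∀ w ∈ W, ∀ q, φ (inr w * q) = φ q := by
    intro w hw q
    by_cases hq : ∃ (d' : D) (g : G), q = inr d' * inl g
    · obtain ⟨d', g, rfl⟩ := hq
      rw [← mul_assoc, ← map_mul, hφ.val, hφ.val, W.mul_mem_cancel_left hw]
    · push Not at hq
      exact hφ.invK _ _ hq
  have hG : ∀ (g : G) q, φ (inl g * q) = φ q := by
    intro g q
    by_cases hq : q ∈ Set.range (inl : G →* Monoid.Coprod G D)
    · obtain ⟨g', rfl⟩ := hq
      have h1 := hφ.val 1 (g * g')
      have h2 := hφ.val 1 g'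
      simp only [map_one, one_mul] at h1 h2
      rw [← map_mul, h1, h2]
    · exact hφ.invG _ _ hq
  have hU' : ∀ i, U i ∈ W := fun i => ⟨FreeGroup.of i, by simp [hU]⟩
  have key : ∀ b, φ (jx x b) = 1 := by
    intro b
    induction b using coprod_induction with
    | one => simpa using hone
    | hG g b ih => rw [map_mul, jx_inl, hG]; exact ih
    | hu i b ih => rw [map_mul, jx_inr_of, mul_assoc, hW _ (hU' i), hG]; exact ih
    | hu' i b ih =>
      rw [map_mul, map_inv, jx_inr_of]
      have : (inr (U i) * inl (x i)⁻¹ : Monoid.Coprod G D)⁻¹ * jx x b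
          = inl (x i) * (inr (U i)⁻¹ * jx x b) := by
        simp [mul_assoc]
      rw [this, hG, hW _ (W.inv_mem (hU' i))]; exact ih
  obtain ⟨b, hb⟩ := h
  have := key b
  rw [hb, hφ.val] at this
  by_contra hcon
  rw [if_neg hcon] at this
  norm_num at this

theorem inr_mem_range (x : ℕ → G) {d : D} (hd : d ∈ W) :
    (inr d : Monoid.Coprod G D) ∈ (jx x).range := by
  obtain ⟨f, rfl⟩ := hd
  induction f using FreeGroup.induction_on with
  | C1 => simp [(jx x).range.one_mem]
  | of i =>
    refine ⟨inr (FreeGroup.of i) * inl (x i), ?_⟩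
    rw [map_mul, jx_inr_of, jx_inl, mul_assoc, ← map_mul]
    simp [hU]
  | inv_of i ih => rw [map_inv, map_inv]; exact (jx x).range.inv_mem ih
  | mul f g ihf ihg => rw [map_mul, map_mul]; exact (jx x).range.mul_mem ihf ihg

end

section props
variable {G : Type} [Group G] {φ : G → ℝ} {x : ℕ → G} {Θ : D → G → ℝ}
  {φQ : Monoid.Coprod G D → ℝ} {φB : Monoid.Coprod G (FreeGroup ℕ) → ℝ}

theorem tail_inl {K : Type} [Group K] {Θ : K → G → ℝ} {ψ : Monoid.Coprod G K → ℝ}
    (h : TailFn Θ ψ) (g : G) : ψ (inl g) = Θ 1 g := by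
  have := h.val 1 g
  simpa using this

theorem phiB_of_mul (hB : TailFn (fun _ g => φ g) φB) (i : ℕ) (b) :
    φB (inr (FreeGroup.of i) * b) = φB b := by
  by_cases hq : ∃ (d' : FreeGroup ℕ) (g : G), b = inr d' * inl g
  · obtain ⟨d', g, rfl⟩ := hq
    rw [← mul_assoc, ← map_mul, hB.val, hB.val]
  · push Not at hq
    exact hB.invK _ _ hq

theorem jx_mem_inl (x : ℕ → G) {b} (h : jx x b ∈ Set.range (inl : G →* Monoid.Coprod G D)) :
    b ∈ Set.range (inl : G →* Monoid.Coprod G (FreeGroup ℕ)) := by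
  obtain ⟨g, hg⟩ := h
  refine ⟨g, jx_injective x ?_⟩
  rw [jx_inl, hg]

/-- hypothesis on `Θ` on `W` -/
def ThetaW (φ : G → ℝ) (x : ℕ → G) (Θ : D → G → ℝ) : Prop :=
  ∀ f g, Θ (hU f) g = match tau f with
        | some i => φ (x i * g)
        | none => φ g

theorem phiQ_of_mul (hW : ThetaW φ x Θ) (hQ : TailFn Θ φQ) (i : ℕ) (b) :
    φQ (jx x (inr (FreeGroup.of i) * b)) = φQ (jx x b) := by
  rw [map_mul, jx_inr_of, mul_assoc]
  by_cases hb : b ∈ Set.range (inl : G →* Monoid.Coprod G (FreeGroup ℕ))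
  · obtain ⟨g, rfl⟩ := hb
    rw [jx_inl, ← map_mul, hQ.val, tail_inl hQ]
    have h1 := hW (FreeGroup.of i) ((x i)⁻¹ * g)
    have h2 := hW 1 g
    rw [tau_of] at h1
    rw [tau_one, map_one] at h2
    simp only [mul_inv_cancel_left] at h1
    have h3 : hU (FreeGroup.of i) = U i := by simp [hU]
    rw [h3] at h1
    rw [h1, h2]
  · have hb' : jx x b ∉ Set.range (inl : G →* Monoid.Coprod G D) := fun h => hb (jx_mem_inl x h)
    have hq : φQ (inl (x i)⁻¹ * jx x b) = φQ (jx x b) := hQ.invG _ _ hb'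
    by_cases hq' : ∃ (d' : D) (g : G), inl (x i)⁻¹ * jx x b = inr d' * inl g
    · obtain ⟨d, g, hd⟩ := hq'
      have hdW : d ∈ W := by
        apply mem_W_of_mem_range x (g := g)
        exact ⟨inl (x i)⁻¹ * b, by rw [map_mul, jx_inl, hd]⟩
      obtain ⟨f, rfl⟩ := hdW
      have hf : f ≠ 1 := by
        rintro rfl
        apply hb'
        rw [map_one, map_one, one_mul] at hd
        refine ⟨x i * g, ?_⟩
        rw [map_mul, ← hd, ← mul_assoc, ← map_mul]
        simp
      rw [← hq, hd, ← mul_assoc, ← map_mul, hQ.val, hQ.val]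
      have h3 : hU (FreeGroup.of i) = U i := by simp [hU]
      rw [← h3]
      change Θ (hU (FreeGroup.of i) * hU f) g = Θ (hU f) g
      rw [← map_mul, hW, hW, tau_of_mul i f hf]
    · push Not at hq'
      rw [hQ.invK _ _ hq', hq]

theorem phiQ_jx (hW : ThetaW φ x Θ) (hQ : TailFn Θ φQ) (hB : TailFn (fun _ g => φ g) φB) (b) :
    φQ (jx x b) = φB b := by
  have h1 : ∀ g, Θ 1 g = φ g := by
    intro g
    have := hW 1 g
    rw [tau_one, map_one] at this
    exact this
  induction b using coprod_induction with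
  | one =>
    have a1 := tail_inl hQ 1
    have a2 := tail_inl hB 1
    simp only [map_one] at a1 a2 ⊢
    rw [a1, a2, h1]
  | hG g b ih =>
    by_cases hb : b ∈ Set.range (inl : G →* Monoid.Coprod G (FreeGroup ℕ))
    · obtain ⟨g', rfl⟩ := hb
      rw [← map_mul, jx_inl, tail_inl hQ, tail_inl hB, h1]
    · have hb' : jx x b ∉ Set.range (inl : G →* Monoid.Coprod G D) := fun h => hb (jx_mem_inl x h)
      rw [map_mul, jx_inl, hQ.invG _ _ hb', hB.invG _ _ hb, ih]
  | hu i b ih => rw [phiQ_of_mul hW hQ, phiB_of_mul hB, ih]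
  | hu' i b ih =>
    have a1 := phiQ_of_mul hW hQ i ((inr (FreeGroup.of i))⁻¹ * b)
    have a2 := phiB_of_mul hB i ((inr (FreeGroup.of i))⁻¹ * b)
    rw [mul_inv_cancel_left] at a1 a2
    rw [← a1, ← a2, ih]

theorem phiQ_inv (hinv : ∀ f : FreeGroup ℕ, ∀ d : D, d ∉ W → ∀ g, Θ (hU f * d) g = Θ d g)
    (hQ : TailFn Θ φQ) (b) (q) (hq : q ∉ Set.range (jx x)) :
    φQ (jx x b * q) = φQ q := by
  have hmem : ∀ b q, q ∉ Set.range (jx x) → jx x b * q ∉ Set.range (jx x) := by
    rintro b q hq ⟨c, hc⟩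
    exact hq ⟨b⁻¹ * c, by rw [map_mul, map_inv, hc, inv_mul_cancel_left]⟩
  have hinl : ∀ q, q ∉ Set.range (jx x) → q ∉ Set.range (inl : G →* Monoid.Coprod G D) := by
    rintro q hq ⟨g, rfl⟩
    exact hq ⟨inl g, jx_inl x g⟩
  have hWinv : ∀ w ∈ W, ∀ q, q ∉ Set.range (jx x) → φQ (inr w * q) = φQ q := by
    rintro w ⟨f, rfl⟩ q hq
    by_cases hq' : ∃ (d' : D) (g : G), q = inr d' * inl g
    · obtain ⟨d, g, rfl⟩ := hq'
      have hd : d ∉ W := by
        intro hd
        apply hq
        obtain ⟨c, hc⟩ := inr_mem_range x hd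
        exact ⟨c * inl g, by rw [map_mul, jx_inl, hc]⟩
      rw [← mul_assoc, ← map_mul, hQ.val, hQ.val]
      exact hinv f d hd g
    · push Not at hq'
      exact hQ.invK _ _ hq'
  have hU' : ∀ i, U i ∈ W := fun i => ⟨FreeGroup.of i, by simp [hU]⟩
  induction b using coprod_induction with
  | one => simp
  | hG g b ih => rw [map_mul, jx_inl, mul_assoc, hQ.invG _ _ (hinl _ (hmem b q hq)), ih]
  | hu i b ih =>
    rw [map_mul, jx_inr_of]
    have hm := hmem b q hq
    have hm2 := hmem (inl (x i)⁻¹) _ hm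
    rw [jx_inl] at hm2
    rw [mul_assoc, mul_assoc, hWinv _ (hU' i) _ hm2, hQ.invG _ _ (hinl _ hm), ih]
  | hu' i b ih =>
    rw [map_mul, map_inv, jx_inr_of]
    have hm := hmem b q hq
    have e1 : (inr (U i) * inl (x i)⁻¹ : Monoid.Coprod G D)⁻¹ * jx x b * q
          = inl (x i) * (inr (U i)⁻¹ * (jx x b * q)) := by
        simp [mul_assoc]
    have hm2 : (inr (U i)⁻¹ * (jx x b * q) : Monoid.Coprod G D) ∉ Set.range (jx x) := by
      obtain ⟨c, hc⟩ := inr_mem_range x (W.inv_mem (hU' i))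
      rw [← hc]
      exact hmem c _ hm
    rw [e1, hQ.invG _ _ (hinl _ hm2), hWinv _ (W.inv_mem (hU' i)) _ hm, ih]

theorem phiQ_SO (hφ : SO φ) (hW : ThetaW φ x Θ)
    (hslow : ∀ c : D, IsLetter c → ∀ ε : ℝ, 0 < ε →
        {p : D × G | ε ≤ |Θ (c * p.1) p.2 - Θ p.1 p.2|}.Finite)
    (hQ : TailFn Θ φQ) : SO φQ := by
  have h1 : ∀ g, Θ 1 g = φ g := by
    intro g
    have := hW 1 g
    rw [tau_one, map_one] at this
    exact this
  refine SO_of_closure φQ (Set.range (inl : G →* Monoid.Coprod G D) ∪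
    (fun c => (inr c : Monoid.Coprod G D)) '' {c | IsLetter c}) ?_ ?_
  · rw [eq_top_iff]
    rintro q -
    induction q using Monoid.Coprod.induction_on with
    | inl g => exact Subgroup.subset_closure (Or.inl ⟨g, rfl⟩)
    | inr d =>
      induction d using FreeGroup.induction_on with
      | C1 => rw [map_one]; exact Subgroup.one_mem _
      | of i =>
        refine Subgroup.subset_closure (Or.inr ⟨FreeGroup.of i, ?_, rfl⟩)
        cases i
        · exact Or.inr (Or.inr (Or.inl rfl))
        · exact Or.inl rfl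
      | inv_of i ih => rw [map_inv]; exact Subgroup.inv_mem _ ih
      | mul f g ihf ihg => rw [map_mul]; exact Subgroup.mul_mem _ ihf ihg
    | mul c d ihc ihd => exact Subgroup.mul_mem _ ihc ihd
  · rintro f (⟨g, rfl⟩ | ⟨c, hc, rfl⟩) ε hε
    · refine ((hφ g ε hε).image (inl : G → Monoid.Coprod G D)).subset ?_
      intro q hq
      by_cases hq' : q ∈ Set.range (inl : G →* Monoid.Coprod G D)
      · obtain ⟨g', rfl⟩ := hq'
        refine ⟨g', ?_, rfl⟩
        have hq2 : ε ≤ |φQ (inl g * inl g') - φQ (inl g')| := hq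
        rw [← map_mul, tail_inl hQ, tail_inl hQ, h1, h1] at hq2
        exact hq2
      · have hq2 : ε ≤ |φQ (inl g * q) - φQ q| := hq
        rw [hQ.invG _ _ hq', sub_self, abs_zero] at hq2
        linarith
    · refine ((hslow c hc ε hε).image
        (fun p : D × G => (inr p.1 * inl p.2 : Monoid.Coprod G D))).subset ?_
      intro q hq
      have hq2 : ε ≤ |φQ (inr c * q) - φQ q| := hq
      by_cases hq' : ∃ (d' : D) (g : G), q = inr d' * inl g
      · obtain ⟨d, g, rfl⟩ := hq'
        refine ⟨(d, g), ?_, rfl⟩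
        rw [← mul_assoc, ← map_mul, hQ.val, hQ.val] at hq2
        exact hq2
      · push Not at hq'
        rw [hQ.invK _ _ hq', sub_self, abs_zero] at hq2
        linarith

end props

end PB
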